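import Pool.Agent.Lib.MP_8b264c_pr.QV2.Spec

/-!
# ASB: the number of bad pieces, almost surely
-/

set_option autoImplicit false

open MeasureTheory Set ProbabilityTheory Filter Topology

namespace Pool.Agent.Lib.MP_8b264c_pr.QV2

open Pool.Agent.BMR Pool.Agent.Lib.MP_8b264c_pr.QV

namespace ASBM

/-- `aK` is at least one. -/
lemma aK_pos (K ν : ℕ) (hν : 1 ≤ ν) : 1 ≤ aK K ν := by
  have hν0 : (0 : ℝ) < ν := by exact_mod_cast hν
  unfold aK
  exact Nat.one_le_iff_ne_zero.mpr (Nat.ceil_pos.mpr (Real.rpow_pos_of_pos hν0 _)).ne'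

/-- `aK / ν` is small. -/
lemma aK_le (K ν : ℕ) (hK : 1 ≤ K) (hν : 1 ≤ ν) :
    (aK K ν : ℝ) / ν ≤ 2 * (ν : ℝ) ^ (-(1 / (K : ℝ))) := by
  have hν1 : (1 : ℝ) ≤ ν := by exact_mod_cast hν
  have hν0 : (0 : ℝ) < ν := by linarith
  have hK1 : (1 : ℝ) ≤ K := by exact_mod_cast hK
  have hK0 : (0 : ℝ) < K := by linarith
  have he : 0 ≤ 1 - 1 / (K : ℝ) := by
    rw [sub_nonneg, div_le_one hK0]
    exact hK1
  have h1 : (1 : ℝ) ≤ (ν : ℝ) ^ (1 - 1 / (K : ℝ)) := Real.one_le_rpow hν1 he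
  have h2 : (aK K ν : ℝ) ≤ 2 * (ν : ℝ) ^ (1 - 1 / (K : ℝ)) := by
    unfold aK
    have := (Nat.ceil_lt_add_one (by linarith : 0 ≤ (ν : ℝ) ^ (1 - 1 / (K : ℝ)))).le
    linarith
  rw [div_le_iff₀ hν0]
  refine h2.trans (le_of_eq ?_)
  have h3 : (ν : ℝ) ^ (1 - 1 / (K : ℝ)) = (ν : ℝ) ^ (-(1 / (K : ℝ))) * ν := by
    rw [show (1 - 1 / (K : ℝ)) = -(1 / (K : ℝ)) + 1 by ring, Real.rpow_add hν0, Real.rpow_one]
  rw [h3]
  ring

/-- The main power. -/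
lemma pow_le (C : ℝ) (hC : 0 < C) (K ν : ℕ) (hK : 1 ≤ K) (hν : 1 ≤ ν) :
    (C * aK K ν / ν) ^ (20 * K) ≤ (2 * C) ^ (20 * K) / (ν : ℝ) ^ 20 := by
  have hν0 : (0 : ℝ) < ν := by exact_mod_cast hν
  have hK0 : (0 : ℝ) < K := by exact_mod_cast hK
  have h1 : C * aK K ν / ν ≤ (2 * C) * (ν : ℝ) ^ (-(1 / (K : ℝ))) := by
    have := mul_le_mul_of_nonneg_left (aK_le K ν hK hν) hC.le
    calc C * aK K ν / ν = C * ((aK K ν : ℝ) / ν) := by ring
      _ ≤ C * (2 * (ν : ℝ) ^ (-(1 / (K : ℝ)))) := this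
      _ = _ := by ring
  have h0 : 0 ≤ C * aK K ν / ν := by positivity
  refine (pow_le_pow_left₀ h0 h1 _).trans (le_of_eq ?_)
  have h2 : ((ν : ℝ) ^ (-(1 / (K : ℝ)))) ^ (20 * K) = ((ν : ℝ) ^ 20)⁻¹ := by
    rw [← Real.rpow_natCast ((ν : ℝ) ^ (-(1 / (K : ℝ)))) (20 * K), ← Real.rpow_mul hν0.le,
      ← Real.rpow_natCast (ν : ℝ) 20, ← Real.rpow_neg hν0.le]
    congr 1
    push_cast
    field_simp
  rw [mul_pow, h2, div_eq_mul_inv]

/-- Summability of the majorant. -/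
lemma summable_maj (D E : ℝ) :
    Summable fun k : ℕ => ((k : ℝ) + 1) ^ 16 * (D / ((k : ℝ) + 1) ^ 20 + E / 4 ^ (k + 1)) := by
  have h1 : Summable fun k : ℕ => 1 / (k : ℝ) ^ 4 :=
    Real.summable_one_div_nat_pow.mpr (by norm_num)
  have h1' : Summable fun k : ℕ => 1 / ((k : ℝ) + 1) ^ 4 := by
    have := (summable_nat_add_iff 1).mpr h1
    refine this.congr fun k => ?_
    push_cast
    rfl
  have h2 : Summable fun k : ℕ => (k : ℝ) ^ 16 * (1 / 4 : ℝ) ^ k :=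
    summable_pow_mul_geometric_of_norm_lt_one 16 (by norm_num)
  have h2' : Summable fun k : ℕ => ((k : ℝ) + 1) ^ 16 * (1 / 4 : ℝ) ^ (k + 1) := by
    have := (summable_nat_add_iff 1).mpr h2
    refine this.congr fun k => ?_
    push_cast
    rfl
  refine ((h1'.mul_left D).add (h2'.mul_left E)).congr fun k => ?_
  have hk : ((k : ℝ) + 1) ≠ 0 := by positivity
  rw [one_div_pow]
  field_simp

/-- A convergent series of expectations bounds each term almost surely. -/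
lemma series {Ω : Type} [MeasurableSpace Ω] (P : Measure Ω) (F : ℕ → Ω → ENNReal)
    (hF : ∀ k, Measurable (F k)) (w : ℕ → ℝ) (hw0 : ∀ k, 0 ≤ w k) (hw : Summable w)
    (hFw : ∀ k, ∫⁻ ω, F k ω ∂P ≤ ENNReal.ofReal (w k)) :
    ∀ᵐ ω ∂P, ∃ R : ℝ, 0 ≤ R ∧ ∀ k, F k ω ≤ ENNReal.ofReal R := by
  have hint : ∫⁻ ω, ∑' k, F k ω ∂P ≠ ⊤ := by
    rw [lintegral_tsum fun k => (hF k).aemeasurable]
    refine ne_top_of_le_ne_top ?_ (ENNReal.tsum_le_tsum hFw)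
    rw [← ENNReal.ofReal_tsum_of_nonneg hw0 hw]
    exact ENNReal.ofReal_ne_top
  filter_upwards [ae_lt_top' (AEMeasurable.tsum fun k => (hF k).aemeasurable) hint] with ω hω
  refine ⟨(∑' k, F k ω).toReal, ENNReal.toReal_nonneg, fun k => ?_⟩
  rw [ENNReal.ofReal_toReal hω.ne]
  exact ENNReal.le_tsum k

end ASBM

open ASBM in
/-- ASB -/
theorem specASB (hCNB : SpecCNB) : SpecASB := by
  obtain ⟨C, hC, hCNB⟩ := hCNB
  intro K hK Ω _ P _ B hB
  choose W hW1 hW2 hW3 using fun k : ℕ =>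
    hCNB Ω P B hB (k + 1) (20 * K) (aK K (k + 1)) (by omega) (aK_pos K (k + 1) (by omega))
  set D : ℝ := (2 * C) ^ (20 * K) with hD
  set E : ℝ := 2 * ((20 * K : ℕ) : ℝ) + 1 with hE
  have hD0 : 0 ≤ D := by positivity
  have hE0 : 0 ≤ E := by positivity
  have key := series P
    (fun k ω => ENNReal.ofReal (((k : ℝ) + 1) ^ 16 / 4 ^ sc (k + 1) (20 * K)) * W k ω)
    (fun k => (hW1 k).const_mul _)
    (fun k : ℕ => ((k : ℝ) + 1) ^ 16 * (D / ((k : ℝ) + 1) ^ 20 + E / 4 ^ (k + 1)))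
    (fun k => by positivity) (summable_maj D E) (fun k => by
      rw [lintegral_const_mul _ (hW1 k)]
      refine (mul_le_mul' le_rfl (hW2 k)).trans ?_
      rw [← ENNReal.ofReal_mul (by positivity)]
      refine ENNReal.ofReal_le_ofReal ?_
      have h4 : (0 : ℝ) < 4 ^ sc (k + 1) (20 * K) := by positivity
      have hp := pow_le C hC K (k + 1) hK (by omega)
      have hk1 : (((k + 1 : ℕ) : ℝ)) = (k : ℝ) + 1 := by push_cast; ring
      rw [hk1] at hp ⊢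
      calc ((k : ℝ) + 1) ^ 16 / 4 ^ sc (k + 1) (20 * K) *
            (4 ^ sc (k + 1) (20 * K) * ((C * aK K (k + 1) / ((k : ℝ) + 1)) ^ (20 * K) +
              (2 * ((20 * K : ℕ) : ℝ) + 1) / 4 ^ (k + 1))) =
            ((k : ℝ) + 1) ^ 16 * ((C * aK K (k + 1) / ((k : ℝ) + 1)) ^ (20 * K) +
              (2 * ((20 * K : ℕ) : ℝ) + 1) / 4 ^ (k + 1)) := by
            field_simp
        _ ≤ ((k : ℝ) + 1) ^ 16 * (D / ((k : ℝ) + 1) ^ 20 + E / 4 ^ (k + 1)) := by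
            refine mul_le_mul_of_nonneg_left ?_ (by positivity)
            exact add_le_add hp le_rfl)
  filter_upwards [key] with ω hω
  obtain ⟨R, hR, hRk⟩ := hω
  refine ⟨R, hR, fun ν hν => ?_⟩
  obtain ⟨k, rfl⟩ : ∃ k, ν = k + 1 := ⟨ν - 1, by omega⟩
  have h4 : (0 : ℝ) < 4 ^ sc (k + 1) (20 * K) := by positivity
  have h5 := (mul_le_mul' (le_refl (ENNReal.ofReal (((k : ℝ) + 1) ^ 16 /
    4 ^ sc (k + 1) (20 * K)))) (hW3 k ω)).trans (hRk k)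
  have h6 := ENNReal.toReal_mono ENNReal.ofReal_ne_top h5
  rw [ENNReal.toReal_mul, ENNReal.toReal_natCast, ENNReal.toReal_ofReal (by positivity),
    ENNReal.toReal_ofReal hR, div_mul_eq_mul_div, div_le_iff₀ h4] at h6
  push_cast
  linarith

end Pool.Agent.Lib.MP_8b264c_pr.QV2
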