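import Pool.Agent.Lib.MP_8b264c_pr.QV2.Spec

/-!
# ASE: the slices are null
-/

set_option autoImplicit false

open MeasureTheory Set Filter Topology

namespace Pool.Agent.Lib.MP_8b264c_pr.QV2

open Pool.Agent.BMR Pool.Agent.Lib.MP_8b264c_pr.QV

namespace ASEM

lemma sc_le (ν i r : ℕ) (hν : 1 ≤ ν) (hi : i ≤ r) :
    ((sc ν i : ℕ) : ℝ) + 1 ≤ (3 * ((r : ℝ) + 1) + 1) * ν := by
  unfold sc
  push_cast
  have h1 : (1 : ℝ) ≤ ν := by exact_mod_cast hν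
  have h2 : (i : ℝ) ≤ r := by exact_mod_cast hi
  have h3 : ((i : ℝ) + 1) * (2 * ν + 1) ≤ ((r : ℝ) + 1) * (3 * ν) := by
    have h0 : (0 : ℝ) ≤ i := Nat.cast_nonneg i
    refine mul_le_mul (by linarith) (by linarith) (by linarith) (by linarith)
  nlinarith

/-- The bound of one summand of the first group. -/
lemma first (K ν r i : ℕ) (γ C c Q : ℝ) (hν : 1 ≤ ν) (hC : 0 ≤ C) (hγ : 0 ≤ γ)
    (hc : c = 3 * ((r : ℝ) + 1) + 1) (hi : i ≤ r)
    (hQ : Q ≤ C * (((sc ν i : ℕ) : ℝ) + 1) ^ γ) :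
    20 / ((aK K ν : ℕ) : ℝ) * Real.sqrt Q ≤
      20 * (Real.sqrt C * c ^ (γ / 2)) * (ν : ℝ) ^ (-((1 - 1 / (K : ℝ)) - γ / 2)) := by
  have h1 : (1 : ℝ) ≤ ν := by exact_mod_cast hν
  have h0 : (0 : ℝ) < ν := by linarith
  have hc0 : 0 < c := by rw [hc]; positivity
  have s1 : Real.sqrt Q ≤ Real.sqrt C * (c ^ (γ / 2) * (ν : ℝ) ^ (γ / 2)) := by
    have e1 : (((sc ν i : ℕ) : ℝ) + 1) ^ γ ≤ (c * ν) ^ γ := by
      refine Real.rpow_le_rpow (by positivity) ?_ hγ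
      rw [hc]
      exact sc_le ν i r hν hi
    calc Real.sqrt Q ≤ Real.sqrt (C * (c * ν) ^ γ) :=
          Real.sqrt_le_sqrt (hQ.trans (mul_le_mul_of_nonneg_left e1 hC))
      _ = Real.sqrt C * (c ^ (γ / 2) * (ν : ℝ) ^ (γ / 2)) := by
          rw [Real.sqrt_mul hC, ← Real.mul_rpow hc0.le h0.le]
          congr 1
          rw [Real.sqrt_eq_rpow, ← Real.rpow_mul (by positivity)]
          congr 1
          ring
  have s2 : 20 / ((aK K ν : ℕ) : ℝ) ≤ 20 * (ν : ℝ) ^ (-(1 - 1 / (K : ℝ))) := by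
    have e0 : (0 : ℝ) < (ν : ℝ) ^ (1 - 1 / (K : ℝ)) := Real.rpow_pos_of_pos h0 _
    have e1 : (ν : ℝ) ^ (1 - 1 / (K : ℝ)) ≤ ((aK K ν : ℕ) : ℝ) := by
      unfold aK
      exact Nat.le_ceil _
    rw [Real.rpow_neg h0.le, ← div_eq_mul_inv]
    exact div_le_div_of_nonneg_left (by norm_num) e0 e1
  calc 20 / ((aK K ν : ℕ) : ℝ) * Real.sqrt Q ≤ (20 * (ν : ℝ) ^ (-(1 - 1 / (K : ℝ)))) *
        (Real.sqrt C * (c ^ (γ / 2) * (ν : ℝ) ^ (γ / 2))) :=
        mul_le_mul s2 s1 (Real.sqrt_nonneg _) (by positivity)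
    _ = 20 * (Real.sqrt C * c ^ (γ / 2)) * ((ν : ℝ) ^ (-(1 - 1 / (K : ℝ))) *
        (ν : ℝ) ^ (γ / 2)) := by ring
    _ = _ := by
        rw [← Real.rpow_add h0]
        congr 2
        ring

/-- The bound of the second group. -/
lemma second (w c R C γ Q b D F E : ℝ) (hw : 1 ≤ w) (hc : 1 ≤ c) (hR : 0 ≤ R) (hC : 0 ≤ C)
    (hγ0 : 0 ≤ γ) (hγ : γ ≤ 2) (hD : 0 < D) (hE : 0 < E) (s : ℝ) (hs0 : 0 ≤ s)
    (hs : s + 1 ≤ c * w)
    (hQ : Q ≤ C * (s + 1) ^ γ) (hb : b * w ^ 16 ≤ R * D) (hF0 : 0 ≤ F)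
    (hF : F ≤ C * (s + 1) ^ 2 * D) :
    4 * Real.sqrt Q * (Real.sqrt (Real.sqrt (b / D * (F / D))) + Real.sqrt (F / D) / E) ≤
      4 * (Real.sqrt C * c) * Real.sqrt (Real.sqrt (R * C * c ^ 2)) * w⁻¹ +
      4 * (C * c ^ 2) * (w ^ 2 / E) := by
  have hw0 : 0 < w := by linarith
  have hc0 : 0 < c := by linarith
  have hcw : 1 ≤ c * w := by nlinarith
  have s1 : Real.sqrt Q ≤ Real.sqrt C * (c * w) := by
    have e1 : (s + 1) ^ γ ≤ (c * w) ^ 2 := by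
      calc (s + 1) ^ γ ≤ (c * w) ^ γ := Real.rpow_le_rpow (by linarith) hs hγ0
        _ ≤ (c * w) ^ (2 : ℝ) := Real.rpow_le_rpow_of_exponent_le hcw hγ
        _ = (c * w) ^ 2 := by norm_cast
    calc Real.sqrt Q ≤ Real.sqrt (C * (c * w) ^ 2) :=
          Real.sqrt_le_sqrt (hQ.trans (mul_le_mul_of_nonneg_left e1 hC))
      _ = Real.sqrt C * (c * w) := by rw [Real.sqrt_mul hC, Real.sqrt_sq (by positivity)]
  have hFD : F / D ≤ C * (c * w) ^ 2 := by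
    rw [div_le_iff₀ hD]
    refine hF.trans ?_
    gcongr
  have hFD0 : 0 ≤ F / D := by positivity
  have s3 : Real.sqrt (F / D) ≤ Real.sqrt C * (c * w) := by
    calc Real.sqrt (F / D) ≤ Real.sqrt (C * (c * w) ^ 2) := Real.sqrt_le_sqrt hFD
      _ = Real.sqrt C * (c * w) := by rw [Real.sqrt_mul hC, Real.sqrt_sq (by positivity)]
  have s2 : Real.sqrt (Real.sqrt (b / D * (F / D))) ≤
      Real.sqrt (Real.sqrt (R * C * c ^ 2)) * (w⁻¹) ^ 2 := by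
    have e1 : b / D ≤ R * (w⁻¹) ^ 16 := by
      rw [div_le_iff₀ hD]
      calc b = b * w ^ 16 * (w⁻¹) ^ 16 := by field_simp
        _ ≤ R * D * (w⁻¹) ^ 16 := mul_le_mul_of_nonneg_right hb (by positivity)
        _ = R * (w⁻¹) ^ 16 * D := by ring
    have e2 : b / D * (F / D) ≤ R * C * c ^ 2 * ((w⁻¹) ^ 4) ^ 2 := by
      calc b / D * (F / D) ≤ R * (w⁻¹) ^ 16 * (C * (c * w) ^ 2) :=
            mul_le_mul e1 hFD hFD0 (by positivity)
        _ = R * C * c ^ 2 * (w⁻¹) ^ 14 := by field_simp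
        _ ≤ R * C * c ^ 2 * ((w⁻¹) ^ 4) ^ 2 := by
            refine mul_le_mul_of_nonneg_left ?_ (by positivity)
            rw [← pow_mul]
            exact pow_le_pow_of_le_one (by positivity) (inv_le_one_of_one_le₀ hw) (by norm_num)
    calc Real.sqrt (Real.sqrt (b / D * (F / D))) ≤
          Real.sqrt (Real.sqrt (R * C * c ^ 2 * ((w⁻¹) ^ 4) ^ 2)) :=
          Real.sqrt_le_sqrt (Real.sqrt_le_sqrt e2)
      _ = Real.sqrt (Real.sqrt (R * C * c ^ 2)) * (w⁻¹) ^ 2 := by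
          rw [Real.sqrt_mul (by positivity), Real.sqrt_sq (by positivity),
            Real.sqrt_mul (Real.sqrt_nonneg _), show (w⁻¹) ^ 4 = ((w⁻¹) ^ 2) ^ 2 by ring,
            Real.sqrt_sq (by positivity)]
  have hsC : Real.sqrt C * Real.sqrt C = C := Real.mul_self_sqrt hC
  have a3 : Real.sqrt (F / D) / E ≤ Real.sqrt C * (c * w) / E :=
    div_le_div_of_nonneg_right s3 hE.le
  have hsum : 0 ≤ Real.sqrt (Real.sqrt (b / D * (F / D))) + Real.sqrt (F / D) / E := by positivity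
  calc 4 * Real.sqrt Q * (Real.sqrt (Real.sqrt (b / D * (F / D))) + Real.sqrt (F / D) / E) ≤
        4 * (Real.sqrt C * (c * w)) *
          (Real.sqrt (Real.sqrt (R * C * c ^ 2)) * (w⁻¹) ^ 2 + Real.sqrt C * (c * w) / E) :=
        mul_le_mul (mul_le_mul_of_nonneg_left s1 (by norm_num)) (add_le_add s2 a3) hsum
          (by positivity)
    _ = 4 * (Real.sqrt C * c) * Real.sqrt (Real.sqrt (R * C * c ^ 2)) * w⁻¹ +
        4 * (Real.sqrt C * Real.sqrt C * c ^ 2) * (w ^ 2 / E) := by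
        generalize Real.sqrt (Real.sqrt (R * C * c ^ 2)) = r2
        generalize Real.sqrt C = c1
        field_simp
    _ = _ := by rw [hsC]

end ASEM

open ASEM in
/-- ASE -/
theorem specASE (hDE2 : SpecDE2) : SpecASE := by
  intro K γ β f R C hK hγ0 hγ hβ hR hC hbad hF hQ g h hg hh
  set r : ℕ := 20 * K with hr
  set c : ℝ := 3 * ((r : ℝ) + 1) + 1 with hc
  set δ : ℝ := (1 - 1 / (K : ℝ)) - γ / 2 with hδ
  have hδ0 : 0 < δ := by rw [hδ]; linarith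
  have hγ2 : γ ≤ 2 := by
    have : (0 : ℝ) ≤ 1 / (K : ℝ) := by positivity
    linarith
  have hc1 : 1 ≤ c := by
    rw [hc]
    have : (0 : ℝ) ≤ r := Nat.cast_nonneg r
    linarith
  -- the bound tends to zero
  set T : ℕ → ℝ := fun ν => (r : ℝ) * (20 * (Real.sqrt C * c ^ (γ / 2)) * (ν : ℝ) ^ (-δ)) +
    (4 * (Real.sqrt C * c) * Real.sqrt (Real.sqrt (R * C * c ^ 2)) * (ν : ℝ)⁻¹ +
      4 * (C * c ^ 2) * ((ν : ℝ) ^ 2 / 2 ^ (2 * ν + 1))) with hT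
  have hTlim : Tendsto T atTop (𝓝 0) := by
    have h1 : Tendsto (fun ν : ℕ => (ν : ℝ) ^ (-δ)) atTop (𝓝 0) :=
      (tendsto_rpow_neg_atTop hδ0).comp tendsto_natCast_atTop_atTop
    have h2 : Tendsto (fun ν : ℕ => (ν : ℝ)⁻¹) atTop (𝓝 0) := tendsto_inv_atTop_nhds_zero_nat
    have h3 : Tendsto (fun ν : ℕ => (ν : ℝ) ^ 2 / 2 ^ (2 * ν + 1)) atTop (𝓝 0) := by
      have e1 := (tendsto_pow_const_div_const_pow_of_one_lt 2 (show (1 : ℝ) < 4 by norm_num)).div_const 2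
      rw [zero_div] at e1
      refine e1.congr fun ν => ?_
      rw [div_div, show (2 : ℝ) ^ (2 * ν + 1) = 4 ^ ν * 2 by
        rw [pow_succ, pow_mul]
        norm_num]
    have h4 := ((h1.const_mul (20 * (Real.sqrt C * c ^ (γ / 2)))).const_mul (r : ℝ)).add
      ((h2.const_mul (4 * (Real.sqrt C * c) * Real.sqrt (Real.sqrt (R * C * c ^ 2)))).add
      (h3.const_mul (4 * (C * c ^ 2))))
    simp only [mul_zero, add_zero] at h4
    exact h4
  -- the majorants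
  have hG : ∀ ν : ℕ, 1 ≤ ν → ∃ G : ℝ → ENNReal, Measurable G ∧
      (∀ v, volume ((fun z => g (f z)) '' {z | z ∈ trace β ∧ h z = v}) ≤ G v) ∧
      ∫⁻ v, G v ≤ ENNReal.ofReal (T ν) := by
    intro ν hν
    have hν1 : (1 : ℝ) ≤ ν := by exact_mod_cast hν
    have ha : 1 ≤ aK K ν := by
      unfold aK
      exact Nat.ceil_pos.mpr (Real.rpow_pos_of_pos (by linarith) _)
    obtain ⟨G, hG1, hG2, hG3⟩ := hDE2 β f g h ν r (aK K ν) hβ ha hg hh
    refine ⟨G, hG1, hG2, hG3.trans (ENNReal.ofReal_le_ofReal ?_)⟩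
    refine add_le_add ?_ ?_
    · calc ∑ i ∈ Finset.range r, 20 / ((aK K ν : ℕ) : ℝ) * Real.sqrt (QS (⇑f ∘ β) (sc ν i)) ≤
            ∑ _i ∈ Finset.range r, 20 * (Real.sqrt C * c ^ (γ / 2)) * (ν : ℝ) ^ (-δ) := by
            refine Finset.sum_le_sum fun i hi => ?_
            exact first K ν r i γ C c _ hν hC hγ0 hc (Finset.mem_range.mp hi).le (hQ _)
        _ = _ := by rw [Finset.sum_const, Finset.card_range, nsmul_eq_mul]
    · refine second (ν : ℝ) c R C γ _ _ (4 ^ sc ν r) _ (2 ^ (2 * ν + 1)) hν1 hc1 hR hC hγ0 hγ2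
        (by positivity) (by positivity) ((sc ν r : ℕ) : ℝ) (Nat.cast_nonneg _)
        (by rw [hc]; exact sc_le ν r r hν le_rfl) (hQ _) (hbad ν hν) ?_ (hF _)
      unfold FS
      exact Finset.sum_nonneg fun j _ => by
        rw [pow_mul]
        positivity
  refine null_of _ 1 ?_
  intro ε hε
  refine ⟨fun _ v => volume ((fun z => g (f z)) '' {z | z ∈ trace β ∧ h z = v}),
    fun _ _ _ _ => le_rfl, fun v => le_iSup_of_le 0 le_rfl, fun _ => ?_⟩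
  obtain ⟨k, hk1, hk2⟩ := ((eventually_ge_atTop 1).and
    (hTlim.eventually (gt_mem_nhds hε))).exists
  obtain ⟨G, hG1, hG2, hG3⟩ := hG k hk1
  refine ⟨G, hG1, hG2, hG3.trans (ENNReal.ofReal_le_ofReal ?_)⟩
  rw [mul_one]
  exact hk2.le

end Pool.Agent.Lib.MP_8b264c_pr.QV2
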