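import Pool.Agent.Lib.MP_8b264c_pr.QV2.Spec

/-!
# MP_8b264c_pr, module CIR: the four crossings give a circuit
-/

set_option autoImplicit false

open MeasureTheory Set ProbabilityTheory Filter Topology

namespace Pool.Agent.Lib.MP_8b264c_pr.QV2

open Pool.Agent.BMR Pool.Agent.Lib.MP_8b264c_pr.QV

namespace CIRM

lemma rel_eq (n : ℕ) (c : ℤ × ℤ) (z : ℂ) :
    rel n c z = (((2 : ℝ) ^ n : ℝ) : ℂ) * z - ⟨(c.1 : ℝ), (c.2 : ℝ)⟩ := by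
  apply Complex.ext
  · rw [Complex.sub_re, Complex.re_ofReal_mul]
    rfl
  · rw [Complex.sub_im, Complex.im_ofReal_mul]
    rfl

lemma rel_cont (n : ℕ) (c : ℤ × ℤ) : Continuous (rel n c) := by
  have h : rel n c = fun z => (((2 : ℝ) ^ n : ℝ) : ℂ) * z - ⟨(c.1 : ℝ), (c.2 : ℝ)⟩ :=
    funext (rel_eq n c)
  rw [h]
  exact (continuous_const.mul continuous_id).sub continuous_const

lemma rel_inj {n : ℕ} {c : ℤ × ℤ} {z w : ℂ} (h : rel n c z = rel n c w) : z = w := by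
  rw [rel_eq, rel_eq] at h
  have h2 : (((2 : ℝ) ^ n : ℝ) : ℂ) ≠ 0 := by
    rw [Complex.ofReal_ne_zero]
    positivity
  exact mul_left_cancel₀ h2 (sub_left_injective h)

/-- First exit from the open square. -/
lemma exit (γ : ℝ → ℂ) (hγ : Continuous γ) (t₀ : ℝ) (ht₀ : 0 ≤ t₀)
    (h0 : -1 ≤ (γ 0).re ∧ (γ 0).re ≤ 2 ∧ -1 ≤ (γ 0).im ∧ (γ 0).im ≤ 2)
    (h1 : ¬ (-(5 / 2) ≤ (γ t₀).re ∧ (γ t₀).re ≤ 7 / 2 ∧ -(5 / 2) ≤ (γ t₀).im ∧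
      (γ t₀).im ≤ 7 / 2)) :
    ∃ T, 0 ≤ T ∧ (∀ t ∈ Icc (0 : ℝ) T, -(5 / 2) ≤ (γ t).re ∧ (γ t).re ≤ 7 / 2 ∧
      -(5 / 2) ≤ (γ t).im ∧ (γ t).im ≤ 7 / 2) ∧
      ((γ T).re ≤ -(5 / 2) ∨ 7 / 2 ≤ (γ T).re ∨ (γ T).im ≤ -(5 / 2) ∨ 7 / 2 ≤ (γ T).im) := by
  have cre : Continuous fun t => (γ t).re := Complex.continuous_re.comp hγ
  have cim : Continuous fun t => (γ t).im := Complex.continuous_im.comp hγ
  set A : Set ℝ := {t | (γ t).re ≤ -(5 / 2) ∨ 7 / 2 ≤ (γ t).re ∨ (γ t).im ≤ -(5 / 2) ∨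
    7 / 2 ≤ (γ t).im} with hA
  have cA : IsClosed A :=
    (isClosed_le cre continuous_const).union ((isClosed_le continuous_const cre).union
      ((isClosed_le cim continuous_const).union (isClosed_le continuous_const cim)))
  have kA : IsCompact (Icc (0 : ℝ) t₀ ∩ A) := isCompact_Icc.inter_right cA
  have nA : (Icc (0 : ℝ) t₀ ∩ A).Nonempty := by
    refine ⟨t₀, ⟨ht₀, le_rfl⟩, ?_⟩
    by_contra hc
    have hc' : ¬ ((γ t₀).re ≤ -(5 / 2) ∨ 7 / 2 ≤ (γ t₀).re ∨ (γ t₀).im ≤ -(5 / 2) ∨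
      7 / 2 ≤ (γ t₀).im) := hc
    push Not at hc'
    exact h1 ⟨hc'.1.le, hc'.2.1.le, hc'.2.2.1.le, hc'.2.2.2.le⟩
  obtain ⟨T, ⟨⟨T0, T1⟩, TA⟩, Tmin⟩ := kA.exists_isLeast nA
  have Tne : (0 : ℝ) ≠ T := by
    rintro rfl
    have TA' : (γ 0).re ≤ -(5 / 2) ∨ 7 / 2 ≤ (γ 0).re ∨ (γ 0).im ≤ -(5 / 2) ∨
      7 / 2 ≤ (γ 0).im := TA
    obtain ⟨a, b, c, d⟩ := h0
    rcases TA' with h | h | h | h <;> linarith
  refine ⟨T, T0, ?_, TA⟩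
  set S : Set ℝ := {t | -(5 / 2) ≤ (γ t).re ∧ (γ t).re ≤ 7 / 2 ∧ -(5 / 2) ≤ (γ t).im ∧
    (γ t).im ≤ 7 / 2} with hS
  have cS : IsClosed S :=
    (isClosed_le continuous_const cre).inter ((isClosed_le cre continuous_const).inter
      ((isClosed_le continuous_const cim).inter (isClosed_le cim continuous_const)))
  have sub : Ico (0 : ℝ) T ⊆ S := by
    intro t ht
    have hn : t ∉ A := fun hta => absurd (Tmin ⟨⟨ht.1, ht.2.le.trans T1⟩, hta⟩) (not_le.2 ht.2)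
    have hn' : ¬ ((γ t).re ≤ -(5 / 2) ∨ 7 / 2 ≤ (γ t).re ∨ (γ t).im ≤ -(5 / 2) ∨
      7 / 2 ≤ (γ t).im) := hn
    push Not at hn'
    exact ⟨hn'.1.le, hn'.2.1.le, hn'.2.2.1.le, hn'.2.2.2.le⟩
  have := closure_minimal sub cS
  rw [closure_Ico Tne] at this
  exact fun t ht => this ht

end CIRM

open CIRM in
/-- Module CIR. -/
theorem specCIR (hCRS : SpecCRS) : SpecCIR := by
  intro β u v n c hβ hst α hα h0 h1
  obtain ⟨t₀, ht₀, h1⟩ := h1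
  have cα : Continuous fun t => rel n c (α t) := (rel_cont n c).comp hα
  have cβ : Continuous fun t => rel n c (β t) := (rel_cont n c).comp hβ
  obtain ⟨T, T0, hT, hside⟩ := exit (fun t => rel n c (α t)) cα t₀ ht₀ h0 h1
  have h0' : -1 ≤ (rel n c (α 0)).re ∧ (rel n c (α 0)).re ≤ 2 ∧ -1 ≤ (rel n c (α 0)).im ∧
    (rel n c (α 0)).im ≤ 2 := h0
  obtain ⟨a1, a2, a3, a4⟩ := h0'
  obtain ⟨⟨p1, q1, u1, pq1, v1, s1, e1, e1'⟩, ⟨p2, q2, u2, pq2, v2, s2, e2, e2'⟩,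
    ⟨p3, q3, u3, pq3, v3, s3, e3, e3'⟩, ⟨p4, q4, u4, pq4, v4, s4, e4, e4'⟩⟩ := hst
  rcases hside with h | h | h | h
  · obtain ⟨s, hs, t, ht, e⟩ := hCRS (fun t => rel n c (α t)) (fun t => rel n c (β t)) 0 T p1 q1
      (-(5 / 2)) (-(3 / 2)) (-(5 / 2)) (7 / 2) cα cβ T0 pq1
      (fun t ht => ⟨(hT t ht).2.2.1, (hT t ht).2.2.2⟩) s1
      (Or.inr ⟨by linarith, h⟩) (Or.inl ⟨e1, e1'⟩)
    exact ⟨s, hs.1, t, ⟨u1.trans ht.1, ht.2.trans v1⟩, (rel_inj e).symm⟩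
  · obtain ⟨s, hs, t, ht, e⟩ := hCRS (fun t => rel n c (α t)) (fun t => rel n c (β t)) 0 T p3 q3
      (5 / 2) (7 / 2) (-(5 / 2)) (7 / 2) cα cβ T0 pq3
      (fun t ht => ⟨(hT t ht).2.2.1, (hT t ht).2.2.2⟩) s3
      (Or.inl ⟨by linarith, h⟩) (Or.inr ⟨e3, e3'⟩)
    exact ⟨s, hs.1, t, ⟨u3.trans ht.1, ht.2.trans v3⟩, (rel_inj e).symm⟩
  · obtain ⟨s, hs, t, ht, e⟩ := hCRS (fun t => rel n c (β t)) (fun t => rel n c (α t)) p4 q4 0 T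
      (-(5 / 2)) (7 / 2) (-(5 / 2)) (-(3 / 2)) cβ cα pq4 T0 s4
      (fun t ht => ⟨(hT t ht).1, (hT t ht).2.1⟩)
      (Or.inr ⟨e4, e4'⟩) (Or.inr ⟨by linarith, h⟩)
    exact ⟨t, ht.1, s, ⟨u4.trans hs.1, hs.2.trans v4⟩, rel_inj e⟩
  · obtain ⟨s, hs, t, ht, e⟩ := hCRS (fun t => rel n c (β t)) (fun t => rel n c (α t)) p2 q2 0 T
      (-(5 / 2)) (7 / 2) (5 / 2) (7 / 2) cβ cα pq2 T0 s2
      (fun t ht => ⟨(hT t ht).1, (hT t ht).2.1⟩)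
      (Or.inl ⟨e2, e2'⟩) (Or.inl ⟨by linarith, h⟩)
    exact ⟨t, ht.1, s, ⟨u2.trans hs.1, hs.2.trans v2⟩, rel_inj e⟩

end Pool.Agent.Lib.MP_8b264c_pr.QV2
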