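import Pool.Agent.Lib.MP_8b264c_pr.QV2.Spec

/-!
MP_8b264c_pr, module CMP: comparison of the laws of two increments of the planar Brownian motion.
-/

set_option autoImplicit false

open MeasureTheory Set ProbabilityTheory Filter Topology

namespace Pool.Agent.Lib.MP_8b264c_pr.QV2

open Pool.Agent.BMR Pool.Agent.Lib.MP_8b264c_pr.QV

namespace CMPM

/-- the constant -/
noncomputable def C1 : ℝ := 3 * Real.exp 13

lemma C1_pos : 0 < C1 := by
  unfold C1
  positivity

lemma pdf_cmp {h v x y : ℝ} (hh : 0 < h) (h1 : h ≤ v) (h2 : v ≤ 2 * h)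
    (hxy : |x - y| ≤ 10 * Real.sqrt h) (w : ℝ) :
    (Real.sqrt (2 * Real.pi * v))⁻¹ * Real.exp (-(w - y) ^ 2 / (2 * v)) ≤
      C1 * ((Real.sqrt (2 * Real.pi * (8 * h)))⁻¹ * Real.exp (-(w - x) ^ 2 / (2 * (8 * h)))) := by
  have hv : 0 < v := lt_of_lt_of_le hh h1
  have hpi := Real.pi_pos
  have e1 : (Real.sqrt (2 * Real.pi * v))⁻¹ ≤ 3 * (Real.sqrt (2 * Real.pi * (8 * h)))⁻¹ := by
    have p1 : 0 < Real.sqrt (2 * Real.pi * v) := Real.sqrt_pos.2 (by positivity)
    have p2 : 0 < Real.sqrt (2 * Real.pi * (8 * h)) := Real.sqrt_pos.2 (by positivity)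
    rw [← div_eq_mul_inv, inv_eq_one_div, div_le_div_iff₀ p1 p2, one_mul]
    have e : Real.sqrt (2 * Real.pi * (8 * h)) ≤ Real.sqrt (3 ^ 2 * (2 * Real.pi * v)) := by
      refine Real.sqrt_le_sqrt ?_
      have : Real.pi * h ≤ Real.pi * v := mul_le_mul_of_nonneg_left h1 hpi.le
      have : 0 < Real.pi * h := by positivity
      nlinarith
    have e' : Real.sqrt (3 ^ 2 * (2 * Real.pi * v)) = 3 * Real.sqrt (2 * Real.pi * v) := by
      rw [Real.sqrt_mul (by norm_num : (0 : ℝ) ≤ 3 ^ 2), Real.sqrt_sq (by norm_num)]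
    rw [e'] at e
    exact e
  have e2 : Real.exp (-(w - y) ^ 2 / (2 * v)) ≤
      Real.exp 13 * Real.exp (-(w - x) ^ 2 / (2 * (8 * h))) := by
    rw [← Real.exp_add]
    refine Real.exp_le_exp.2 ?_
    have a1 : (w - y) ^ 2 / (4 * h) ≤ (w - y) ^ 2 / (2 * v) :=
      div_le_div_of_nonneg_left (sq_nonneg _) (by positivity) (by linarith)
    have a2 : (x - y) ^ 2 ≤ 100 * h := by
      have := mul_self_le_mul_self (abs_nonneg _) hxy
      rw [abs_mul_abs_self] at this
      have hs := Real.mul_self_sqrt hh.le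
      nlinarith
    have a3 : (w - x) ^ 2 / (2 * (8 * h)) ≤ (w - y) ^ 2 / (4 * h) + 13 := by
      rw [div_add' _ _ _ (by positivity), div_le_div_iff₀ (by positivity) (by positivity)]
      have a4 : (w - x) ^ 2 ≤ 2 * (w - y) ^ 2 + 2 * (x - y) ^ 2 := by
        nlinarith [sq_nonneg ((w - y) + (x - y))]
      have a5 : (w - x) ^ 2 ≤ 4 * (w - y) ^ 2 + 208 * h := by
        nlinarith [sq_nonneg (w - y)]
      have := mul_le_mul_of_nonneg_right a5 (show (0 : ℝ) ≤ 4 * h by positivity)
      nlinarith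
    have b1 : -(w - y) ^ 2 / (2 * v) = -((w - y) ^ 2 / (2 * v)) := neg_div _ _
    have b2 : -(w - x) ^ 2 / (2 * (8 * h)) = -((w - x) ^ 2 / (2 * (8 * h))) := neg_div _ _
    rw [b1, b2]
    linarith
  have p3 : 0 ≤ (Real.sqrt (2 * Real.pi * (8 * h)))⁻¹ := by positivity
  calc (Real.sqrt (2 * Real.pi * v))⁻¹ * Real.exp (-(w - y) ^ 2 / (2 * v))
      ≤ (3 * (Real.sqrt (2 * Real.pi * (8 * h)))⁻¹) *
        (Real.exp 13 * Real.exp (-(w - x) ^ 2 / (2 * (8 * h)))) :=
        mul_le_mul e1 e2 (Real.exp_pos _).le (by positivity)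
    _ = _ := by unfold C1; ring

lemma gauss_cmp {h v x y : ℝ} (hh : 0 < h) (h1 : h ≤ v) (h2 : v ≤ 2 * h)
    (hxy : |x - y| ≤ 10 * Real.sqrt h) :
    gaussianReal y v.toNNReal ≤ ENNReal.ofReal C1 • gaussianReal x (8 * h).toNNReal := by
  have hv : 0 < v := lt_of_lt_of_le hh h1
  have n1 : v.toNNReal ≠ 0 := by
    rw [Ne, Real.toNNReal_eq_zero]
    exact not_le.2 hv
  have n2 : (8 * h).toNNReal ≠ 0 := by
    rw [Ne, Real.toNNReal_eq_zero]
    exact not_le.2 (by positivity)
  rw [gaussianReal_of_var_ne_zero _ n1, gaussianReal_of_var_ne_zero _ n2,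
    ← withDensity_smul _ (measurable_gaussianPDF _ _)]
  refine withDensity_mono (ae_of_all _ fun w => ?_)
  rw [Pi.smul_apply, smul_eq_mul]
  unfold gaussianPDF gaussianPDFReal
  rw [← ENNReal.ofReal_mul C1_pos.le, Real.coe_toNNReal _ hv.le,
    Real.coe_toNNReal _ (by positivity : (0 : ℝ) ≤ 8 * h)]
  exact ENNReal.ofReal_le_ofReal (pdf_cmp hh h1 h2 hxy w)

variable {Ω : Type} [MeasurableSpace Ω] {P : Measure Ω} {B : ℝ → Ω → ℂ}

lemma pair_law [IsProbabilityMeasure P] (h : IsPBM P B) :
    AEMeasurable (fun ω => (co B (1, true) ω, co B (1, false) ω)) P ∧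
    P.map (fun ω => (co B (1, true) ω, co B (1, false) ω)) =
      (gaussianReal 0 1).prod (gaussianReal 0 1) := by
  have hG : IsGaussianProcess (Sum.elim (fun _ : Unit => co B (1, true))
      (fun _ : Unit => co B (1, false))) P := by
    have := h.gaussian (T := Unit ⊕ Unit) (Sum.elim (fun _ => (1, true)) (fun _ => (1, false)))
      (by rintro (i | i) <;> exact one_mem)
    have e : (Sum.elim (fun _ : Unit => co B (1, true)) (fun _ : Unit => co B (1, false))) =
        fun (i : Unit ⊕ Unit) ω => co B (Sum.elim (fun _ => ((1 : ℝ), true))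
          (fun _ => ((1 : ℝ), false)) i) ω := by
      funext i
      rcases i with i | i <;> rfl
    rw [e]
    exact this
  have hI := hG.indepFun_of_covariance_eq_zero (fun _ => h.aemeasurable_co _ one_mem)
    (fun _ => h.aemeasurable_co _ one_mem) (fun _ _ => by
      rw [h.cov_co _ _ one_mem one_mem]
      simp)
  have hI2 : IndepFun (co B (1, true)) (co B (1, false)) P :=
    hI.comp (φ := fun y : Unit → ℝ => y ()) (ψ := fun y : Unit → ℝ => y ()) (by fun_prop)
      (by fun_prop)
  have ma := h.aemeasurable_co (1, true) one_mem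
  have mb := h.aemeasurable_co (1, false) one_mem
  have hp := (indepFun_iff_map_prod_eq_prod_map_map ma mb).mp hI2
  rw [h.map_one, h.map_one] at hp
  exact ⟨ma.prodMk mb, hp⟩

lemma map_affine (m σ : ℝ) (v : ℝ) (hv : σ ^ 2 = v) :
    (gaussianReal 0 1).map (fun b => m + σ * b) = gaussianReal m v.toNNReal := by
  have e1 : (fun b : ℝ => m + σ * b) = (fun b => m + b) ∘ (fun b => σ * b) := rfl
  rw [e1, ← Measure.map_map (by fun_prop) (by fun_prop), gaussianReal_map_const_mul,
    gaussianReal_map_const_add]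
  congr 1
  · ring
  · rw [mul_one]
    apply NNReal.coe_injective
    rw [Real.coe_toNNReal _ (by rw [← hv]; exact sq_nonneg _), ← hv]
    rfl

lemma law [IsProbabilityMeasure P] (h : IsPBM P B) {s t : ℝ} (hs : 0 ≤ s) (hst : s < t)
    (ht : t ≤ 1) (y : ℂ) (F : ℂ → ENNReal) (hF : Measurable F) :
    ∫⁻ ω, F (y + (B t ω - B s ω)) ∂P =
      ∫⁻ a, ∫⁻ b, F (Complex.measurableEquivRealProd.symm (a, b))
        ∂(gaussianReal y.im (t - s).toNNReal) ∂(gaussianReal y.re (t - s).toNNReal) := by
  have hd : 0 < t - s := sub_pos.mpr hst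
  have hsq : 0 < Real.sqrt (t - s) := Real.sqrt_pos.mpr hd
  have hW := h.isPBM_seg hs hst ht
  set σ := Real.sqrt (t - s) with hσ
  have hσ2 : σ ^ 2 = t - s := by rw [hσ, Real.sq_sqrt hd.le]
  obtain ⟨ma, hp⟩ := pair_law hW
  have e0 : ∀ ω, y + (B t ω - B s ω) = Complex.measurableEquivRealProd.symm
      (y.re + σ * (co (seg B s t) (1, true) ω), y.im + σ * (co (seg B s t) (1, false) ω)) := by
    intro ω
    have e3 : s + 1 * (t - s) = t := by ring
    have c1 : co (seg B s t) (1, true) ω = (seg B s t 1 ω).re := rfl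
    have c2 : co (seg B s t) (1, false) ω = (seg B s t 1 ω).im := rfl
    apply Complex.ext
    · simp only [Complex.measurableEquivRealProd_symm_apply, Complex.add_re, Complex.sub_re]
      rw [c1, seg_re, e3, ← hσ, mul_inv_cancel_left₀ hsq.ne']
    · simp only [Complex.measurableEquivRealProd_symm_apply, Complex.add_im, Complex.sub_im]
      rw [c2, seg_im, e3, ← hσ, mul_inv_cancel_left₀ hsq.ne']
  have mG : Measurable fun p : ℝ × ℝ => F (Complex.measurableEquivRealProd.symm
      (y.re + σ * p.1, y.im + σ * p.2)) :=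
    hF.comp (Complex.measurableEquivRealProd.symm.measurable.comp
      ((measurable_const.add (measurable_const.mul measurable_fst)).prodMk
        (measurable_const.add (measurable_const.mul measurable_snd))))
  have mH : Measurable fun p : ℝ × ℝ => F (Complex.measurableEquivRealProd.symm p) :=
    hF.comp Complex.measurableEquivRealProd.symm.measurable
  calc ∫⁻ ω, F (y + (B t ω - B s ω)) ∂P
      = ∫⁻ ω, (fun p : ℝ × ℝ => F (Complex.measurableEquivRealProd.symm
          (y.re + σ * p.1, y.im + σ * p.2)))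
          (co (seg B s t) (1, true) ω, co (seg B s t) (1, false) ω) ∂P := by
        refine lintegral_congr fun ω => ?_
        rw [e0 ω]
    _ = ∫⁻ p, F (Complex.measurableEquivRealProd.symm
          (y.re + σ * p.1, y.im + σ * p.2)) ∂((gaussianReal 0 1).prod (gaussianReal 0 1)) := by
        rw [← hp, lintegral_map' mG.aemeasurable ma]
    _ = ∫⁻ a, ∫⁻ b, F (Complex.measurableEquivRealProd.symm
          (y.re + σ * a, y.im + σ * b)) ∂(gaussianReal 0 1) ∂(gaussianReal 0 1) := by
        rw [lintegral_prod _ mG.aemeasurable]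
    _ = ∫⁻ a, ∫⁻ b, F (Complex.measurableEquivRealProd.symm
          (y.re + σ * a, b)) ∂(gaussianReal y.im (t - s).toNNReal) ∂(gaussianReal 0 1) := by
        refine lintegral_congr fun a => ?_
        rw [← map_affine y.im σ (t - s) hσ2, lintegral_map]
        · exact mH.comp (measurable_const.prodMk measurable_id)
        · fun_prop
    _ = _ := by
        rw [← map_affine y.re σ (t - s) hσ2, lintegral_map]
        · exact mH.lintegral_prod_right'
        · fun_prop

end CMPM

open CMPM in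
theorem specCMP : SpecCMP := by
  refine ⟨C1 * C1, mul_pos C1_pos C1_pos, ?_⟩
  intro Ω _ P _ B hB h s t s' t' x y hh hs ht h1 h2 hs' ht' h8 hre him F hF
  have hst : s < t := by linarith
  have hst' : s' < t' := by linarith
  rw [law hB hs hst ht y F hF, law hB hs' hst' ht' x F hF, h8]
  have mH : Measurable fun p : ℝ × ℝ => F (Complex.measurableEquivRealProd.symm p) :=
    hF.comp Complex.measurableEquivRealProd.symm.measurable
  have g1 := gauss_cmp hh h1 h2 hre
  have g2 := gauss_cmp hh h1 h2 him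
  calc ∫⁻ a, ∫⁻ b, F (Complex.measurableEquivRealProd.symm (a, b))
        ∂(gaussianReal y.im (t - s).toNNReal) ∂(gaussianReal y.re (t - s).toNNReal)
      ≤ ∫⁻ a, ENNReal.ofReal C1 * ∫⁻ b, F (Complex.measurableEquivRealProd.symm (a, b))
        ∂(gaussianReal x.im (8 * h).toNNReal)
        ∂(ENNReal.ofReal C1 • gaussianReal x.re (8 * h).toNNReal) := by
        refine lintegral_mono' g1 fun a => ?_
        refine (lintegral_mono' g2 (le_refl _)).trans (le_of_eq ?_)
        rw [lintegral_smul_measure, smul_eq_mul]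
    _ = ENNReal.ofReal C1 * (ENNReal.ofReal C1 *
        ∫⁻ a, ∫⁻ b, F (Complex.measurableEquivRealProd.symm (a, b))
        ∂(gaussianReal x.im (8 * h).toNNReal) ∂(gaussianReal x.re (8 * h).toNNReal)) := by
        rw [lintegral_smul_measure, smul_eq_mul, lintegral_const_mul]
        exact mH.lintegral_prod_right'
    _ = _ := by
        rw [← mul_assoc, ← ENNReal.ofReal_mul C1_pos.le]

end Pool.Agent.Lib.MP_8b264c_pr.QV2
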