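import Pool.Agent.Lib.MP_8b264c_pr.QV2.Spec

/-!
# CNB. The expected number of bad pieces
-/

set_option autoImplicit false

open MeasureTheory Set ProbabilityTheory Filter Topology

namespace Pool.Agent.Lib.MP_8b264c_pr.QV2

open Pool.Agent.BMR Pool.Agent.Lib.MP_8b264c_pr.QV

namespace CNBM

lemma cnt_mono {ξ : ℚ → ℂ} {n : ℕ} {c : ℤ × ℤ} {k L : ℕ} (h : k + L ≤ 4 ^ n) :
    cnt ξ n c k L ≤ cnt ξ n c 0 (4 ^ n) := by
  classical
  unfold cnt
  refine Finset.card_le_card ?_
  refine Finset.filter_subset_filter _ ?_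
  refine Finset.Ico_subset_Ico (Nat.zero_le _) (by omega)

lemma le_sc (ν r : ℕ) : ν ≤ sc ν r := by
  unfold sc
  nlinarith [Nat.zero_le (r * (2 * ν + 1))]

end CNBM

open Classical CNBM in
theorem specCNB (hWIN : SpecWIN) : SpecCNB := by
  obtain ⟨C, hC, hW⟩ := hWIN
  refine ⟨C, hC, ?_⟩
  intro Ω _ P _ B hB ν r a hν ha
  set m := sc ν r with hm
  set q : ℝ := (C * a / ν) ^ r + 2 * r / 4 ^ ν with hq
  have hνm : ν ≤ m := le_sc ν r
  have hq0 : 0 ≤ q := by
    rw [hq]
    positivity
  -- the sets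
  have hS : ∀ j : ℕ, ∃ S : Set Ω, (tm m j + 1 / 4 ^ ν ≤ 1 → P S ≤ ENNReal.ofReal q) ∧
      (∀ ω, (∀ i < r, hubN (fun u => B u ω) (sc ν i)
        (cp (sc ν i) (B (tm m j) ω)) < a) → ω ∈ S) := by
    intro j
    by_cases hj : tm m j + 1 / 4 ^ ν ≤ 1
    · have hcast : (((j : ℚ) / 4 ^ m : ℚ) : ℝ) = tm m j := by
        unfold tm
        push_cast
        rfl
      obtain ⟨kk, hkk, hP⟩ := hW Ω P B hB ν r a ((j : ℚ) / 4 ^ m) hν ha (by positivity)
        (by rw [hcast]; exact hj)
      rw [hcast] at hP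
      refine ⟨_, fun _ => hP, ?_⟩
      intro ω hω i hi
      refine lt_of_le_of_lt (cnt_mono (hkk i hi)) ?_
      exact hω i hi
    · exact ⟨Set.univ, fun h => absurd h hj, fun ω _ => Set.mem_univ ω⟩
  choose S hS1 hS2 using hS
  refine ⟨fun ω => ∑ j ∈ Finset.range (4 ^ m), (toMeasurable P (S j)).indicator (fun _ => 1) ω,
    ?_, ?_, ?_⟩
  · refine Finset.measurable_sum _ fun j _ => ?_
    exact measurable_const.indicator (measurableSet_toMeasurable P (S j))
  · rw [lintegral_finsetSum _ fun j _ =>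
      measurable_const.indicator (measurableSet_toMeasurable P (S j))]
    have h1 : ∀ j ∈ Finset.range (4 ^ m),
        ∫⁻ ω, (toMeasurable P (S j)).indicator (fun _ => (1 : ENNReal)) ω ∂P ≤
          ENNReal.ofReal q + (if tm m j + 1 / 4 ^ ν ≤ 1 then 0 else 1) := by
      intro j _
      rw [lintegral_indicator (measurableSet_toMeasurable P (S j)), lintegral_const,
        Measure.restrict_apply_univ, one_mul, measure_toMeasurable]
      by_cases hj : tm m j + 1 / 4 ^ ν ≤ 1
      · rw [if_pos hj, add_zero]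
        exact hS1 j hj
      · rw [if_neg hj]
        exact prob_le_one.trans le_add_self
    refine (Finset.sum_le_sum h1).trans ?_
    rw [Finset.sum_add_distrib, Finset.sum_const, Finset.card_range, nsmul_eq_mul]
    have h2 : ∑ j ∈ Finset.range (4 ^ m), (if tm m j + 1 / 4 ^ ν ≤ 1 then (0 : ENNReal) else 1) ≤
        ((4 ^ (m - ν) : ℕ) : ENNReal) := by
      rw [Finset.sum_congr rfl (g := fun j => if ¬ (tm m j + 1 / 4 ^ ν ≤ 1) then (1 : ENNReal)
        else 0) (fun j _ => by split_ifs <;> simp_all), ← Finset.sum_filter, Finset.sum_const,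
        nsmul_eq_mul, mul_one]
      have h3 : ((Finset.range (4 ^ m)).filter fun j => ¬ (tm m j + 1 / 4 ^ ν ≤ 1)) ⊆
          Finset.Ico (4 ^ m - 4 ^ (m - ν)) (4 ^ m) := by
        intro j hj
        rw [Finset.mem_filter, Finset.mem_range] at hj
        rw [Finset.mem_Ico]
        refine ⟨?_, hj.1⟩
        have h4 := not_le.mp hj.2
        unfold tm at h4
        have h5 : (4 : ℝ) ^ m = 4 ^ (m - ν) * 4 ^ ν := by
          rw [← pow_add, Nat.sub_add_cancel hνm]
        have p1 : (0 : ℝ) < 4 ^ m := by positivity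
        have p2 : (0 : ℝ) < 4 ^ ν := by positivity
        have h6 : (4 : ℝ) ^ m < j + 4 ^ (m - ν) := by
          have h7 : (4 : ℝ) ^ m * 1 < 4 ^ m * ((j : ℝ) / 4 ^ m + 1 / 4 ^ ν) :=
            mul_lt_mul_of_pos_left h4 p1
          rw [mul_add, mul_div_cancel₀ _ p1.ne', mul_one] at h7
          have h8 : (4 : ℝ) ^ m * (1 / 4 ^ ν) = 4 ^ (m - ν) := by
            rw [h5]
            field_simp
          rw [h8] at h7
          exact h7
        have h9 : 4 ^ m < j + 4 ^ (m - ν) := by exact_mod_cast h6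
        omega
      have h10 := Finset.card_le_card h3
      rw [Nat.card_Ico] at h10
      have h11 : 4 ^ (m - ν) ≤ 4 ^ m := Nat.pow_le_pow_right (by norm_num) (by omega)
      have h14 : ((Finset.range (4 ^ m)).filter fun j => ¬ (tm m j + 1 / 4 ^ ν ≤ 1)).card ≤
          4 ^ (m - ν) := by
        refine h10.trans ?_
        generalize 4 ^ (m - ν) = u at *
        generalize 4 ^ m = w at *
        omega
      exact_mod_cast h14
    refine (add_le_add_right h2 _).trans ?_
    have h12 : ((4 ^ (m - ν) : ℕ) : ENNReal) = ENNReal.ofReal (4 ^ m * (1 / 4 ^ ν)) := by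
      have h5 : (4 : ℝ) ^ m * (1 / 4 ^ ν) = ((4 ^ (m - ν) : ℕ) : ℝ) := by
        have : (4 : ℝ) ^ m = 4 ^ (m - ν) * 4 ^ ν := by
          rw [← pow_add, Nat.sub_add_cancel hνm]
        rw [this]
        push_cast
        field_simp
      rw [h5, ENNReal.ofReal_natCast]
    have h13 : ((4 ^ m : ℕ) : ENNReal) * ENNReal.ofReal q = ENNReal.ofReal (4 ^ m * q) := by
      rw [ENNReal.ofReal_mul (by positivity)]
      congr 1
      have : (4 : ℝ) ^ m = ((4 ^ m : ℕ) : ℝ) := by push_cast; rfl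
      rw [this, ENNReal.ofReal_natCast]
    rw [h12, h13, ← ENNReal.ofReal_add (by positivity) (by positivity)]
    refine ENNReal.ofReal_le_ofReal (le_of_eq ?_)
    rw [hq]
    ring
  · intro ω
    have h1 : ((badJ (fun u => B u ω) ν r a).card : ENNReal) =
        ∑ j ∈ Finset.range (4 ^ m), if (∀ i < r, hubN (fun u => B u ω) (sc ν i)
          (cp (sc ν i) (B (tm m j) ω)) < a) then (1 : ENNReal) else 0 := by
      unfold badJ
      rw [← Finset.sum_filter, Finset.sum_const, nsmul_eq_mul, mul_one]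
    rw [h1]
    refine Finset.sum_le_sum fun j _ => ?_
    split_ifs with h
    · rw [Set.indicator_of_mem (subset_toMeasurable P (S j) (hS2 j ω h))]
    · exact bot_le

end Pool.Agent.Lib.MP_8b264c_pr.QV2
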