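import Pool.Agent.Lib.MP_8b264c_pr.QV2.Spec
import Pool.Agent.Lib.MP_43832e_gt.Brouwer

/-!
# CRS: two crossings of a rectangle meet
-/

set_option autoImplicit false

open MeasureTheory Set ProbabilityTheory Filter Topology

namespace Pool.Agent.Lib.MP_8b264c_pr.QV2

namespace CRSM

/-- the clamp to `[p, q]` -/
noncomputable def clp (p q x : ℝ) : ℝ := max p (min x q)

lemma clp_mem {p q : ℝ} (h : p ≤ q) (x : ℝ) : clp p q x ∈ Icc p q :=
  ⟨le_max_left _ _, max_le h (min_le_right _ _)⟩

lemma clp_continuous (p q : ℝ) : Continuous (clp p q) := by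
  unfold clp
  fun_prop

lemma clp_eq {p q x : ℝ} (h : x ∈ Icc p q) : clp p q x = x := by
  rw [clp, min_eq_left h.2, max_eq_right h.1]

lemma clp_of_gt {p q x : ℝ} (h : p ≤ q) (hx : q < x) : clp p q x = q := by
  rw [clp, min_eq_right hx.le, max_eq_right h]

lemma clp_of_lt {p q x : ℝ} (hx : x < p) : clp p q x = p := by
  rw [clp]
  exact max_eq_left (le_trans (min_le_left _ _) hx.le)

/-- the auxiliary map to the plane -/
noncomputable def aux (F G : ℝ → ℝ → ℝ) (z : ℝ × ℝ) : EuclideanSpace ℝ (Fin 2) :=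
  (EuclideanSpace.equiv (Fin 2) ℝ).symm ![-z.1 + F z.1 z.2, -z.2 + G z.1 z.2]

lemma aux_zero (F G : ℝ → ℝ → ℝ) (z : ℝ × ℝ) : aux F G z 0 = -z.1 + F z.1 z.2 := rfl

lemma aux_one (F G : ℝ → ℝ → ℝ) (z : ℝ × ℝ) : aux F G z 1 = -z.2 + G z.1 z.2 := rfl

lemma aux_continuous {F G : ℝ → ℝ → ℝ} (hF : Continuous fun z : ℝ × ℝ => F z.1 z.2)
    (hG : Continuous fun z : ℝ × ℝ => G z.1 z.2) : Continuous (aux F G) := by
  refine (EuclideanSpace.equiv (Fin 2) ℝ).symm.continuous.comp (continuous_pi fun i => ?_)
  fin_cases i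
  · exact continuous_fst.neg.add hF
  · exact continuous_snd.neg.add hG

/-- Poincare-Miranda in dimension two -/
lemma pm {p q p' q' : ℝ} (h : p ≤ q) (h' : p' ≤ q') {F G : ℝ → ℝ → ℝ}
    (hF : Continuous fun z : ℝ × ℝ => F z.1 z.2) (hG : Continuous fun z : ℝ × ℝ => G z.1 z.2)
    (hF0 : ∀ t ∈ Icc p' q', F p t ≤ 0) (hF1 : ∀ t ∈ Icc p' q', 0 ≤ F q t)
    (hG0 : ∀ s ∈ Icc p q, G s p' ≤ 0) (hG1 : ∀ s ∈ Icc p q, 0 ≤ G s q') :
    ∃ s ∈ Icc p q, ∃ t ∈ Icc p' q', F s t = 0 ∧ G s t = 0 := by
  have hc : Continuous fun x : EuclideanSpace ℝ (Fin 2) =>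
      aux F G (clp p q (x 0), clp p' q' (x 1)) := by
    refine (aux_continuous hF hG).comp ?_
    have h0 : Continuous fun x : EuclideanSpace ℝ (Fin 2) => x 0 := by fun_prop
    have h1 : Continuous fun x : EuclideanSpace ℝ (Fin 2) => x 1 := by fun_prop
    exact ((clp_continuous p q).comp h0).prodMk ((clp_continuous p' q').comp h1)
  obtain ⟨R, hR⟩ := (isCompact_Icc.prod isCompact_Icc :
    IsCompact (Icc p q ×ˢ Icc p' q')).exists_bound_of_continuousOn (aux_continuous hF hG).continuousOn
  obtain ⟨x, hx⟩ := MP43832.specBrouwer 2 _ hc ⟨R, fun y => hR _ ⟨clp_mem h _, clp_mem h' _⟩⟩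
  have e0 : x 0 + (-clp p q (x 0) + F (clp p q (x 0)) (clp p' q' (x 1))) = 0 := by
    have := congrArg (fun y : EuclideanSpace ℝ (Fin 2) => y 0) hx
    simpa [aux_zero] using this
  have e1 : x 1 + (-clp p' q' (x 1) + G (clp p q (x 0)) (clp p' q' (x 1))) = 0 := by
    have := congrArg (fun y : EuclideanSpace ℝ (Fin 2) => y 1) hx
    simpa [aux_one] using this
  have m0 : x 0 ∈ Icc p q := by
    constructor
    · by_contra hlt
      push Not at hlt
      rw [clp_of_lt hlt] at e0
      have := hF0 _ (clp_mem h' (x 1))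
      linarith
    · by_contra hlt
      push Not at hlt
      rw [clp_of_gt h hlt] at e0
      have := hF1 _ (clp_mem h' (x 1))
      linarith
  have m1 : x 1 ∈ Icc p' q' := by
    constructor
    · by_contra hlt
      push Not at hlt
      rw [clp_of_lt hlt] at e1
      have := hG0 _ (clp_mem h (x 0))
      linarith
    · by_contra hlt
      push Not at hlt
      rw [clp_of_gt h' hlt] at e1
      have := hG1 _ (clp_mem h (x 0))
      linarith
  rw [clp_eq m0, clp_eq m1] at e0 e1
  exact ⟨x 0, m0, x 1, m1, by linarith, by linarith⟩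

end CRSM

open CRSM in
theorem specCRS : SpecCRS := by
  intro α β p q p' q' a b c d hα hβ h h' him hre hx hy
  have hF : Continuous fun z : ℝ × ℝ => (α z.1).re - (β z.2).re :=
    (Complex.continuous_re.comp (hα.comp continuous_fst)).sub
      (Complex.continuous_re.comp (hβ.comp continuous_snd))
  have hG : Continuous fun z : ℝ × ℝ => (α z.1).im - (β z.2).im :=
    (Complex.continuous_im.comp (hα.comp continuous_fst)).sub
      (Complex.continuous_im.comp (hβ.comp continuous_snd))
  have hF' : Continuous fun z : ℝ × ℝ => (β z.2).re - (α z.1).re :=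
    (Complex.continuous_re.comp (hβ.comp continuous_snd)).sub
      (Complex.continuous_re.comp (hα.comp continuous_fst))
  have hG' : Continuous fun z : ℝ × ℝ => (β z.2).im - (α z.1).im :=
    (Complex.continuous_im.comp (hβ.comp continuous_snd)).sub
      (Complex.continuous_im.comp (hα.comp continuous_fst))
  rcases hx with ⟨hx0, hx1⟩ | ⟨hx0, hx1⟩ <;> rcases hy with ⟨hy0, hy1⟩ | ⟨hy0, hy1⟩
  · obtain ⟨s, hs, t, ht, e0, e1⟩ := pm h h' (F := fun s t => (α s).re - (β t).re)
      (G := fun s t => (β t).im - (α s).im) hF hG'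
      (fun t ht => by have := hre t ht; linarith)
      (fun t ht => by have := hre t ht; linarith)
      (fun s hs => by have := him s hs; linarith)
      (fun s hs => by have := him s hs; linarith)
    exact ⟨s, hs, t, ht, Complex.ext (by linarith) (by linarith)⟩
  · obtain ⟨s, hs, t, ht, e0, e1⟩ := pm h h' (F := fun s t => (α s).re - (β t).re)
      (G := fun s t => (α s).im - (β t).im) hF hG
      (fun t ht => by have := hre t ht; linarith)
      (fun t ht => by have := hre t ht; linarith)
      (fun s hs => by have := him s hs; linarith)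
      (fun s hs => by have := him s hs; linarith)
    exact ⟨s, hs, t, ht, Complex.ext (by linarith) (by linarith)⟩
  · obtain ⟨s, hs, t, ht, e0, e1⟩ := pm h h' (F := fun s t => (β t).re - (α s).re)
      (G := fun s t => (β t).im - (α s).im) hF' hG'
      (fun t ht => by have := hre t ht; linarith)
      (fun t ht => by have := hre t ht; linarith)
      (fun s hs => by have := him s hs; linarith)
      (fun s hs => by have := him s hs; linarith)
    exact ⟨s, hs, t, ht, Complex.ext (by linarith) (by linarith)⟩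
  · obtain ⟨s, hs, t, ht, e0, e1⟩ := pm h h' (F := fun s t => (β t).re - (α s).re)
      (G := fun s t => (α s).im - (β t).im) hF' hG
      (fun t ht => by have := hre t ht; linarith)
      (fun t ht => by have := hre t ht; linarith)
      (fun s hs => by have := him s hs; linarith)
      (fun s hs => by have := him s hs; linarith)
    exact ⟨s, hs, t, ht, Complex.ext (by linarith) (by linarith)⟩

end Pool.Agent.Lib.MP_8b264c_pr.QV2
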