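import Pool.Agent.Lib.MP_8b264c_pr.QV.Spec

/-!
# MP_8b264c_pr: conformal rigidity of the Brownian path, every exponent `γ < 2`

THEOREM. Almost surely every homeomorphism `f` of the plane, holomorphic off `K = B[0,1]`, with
`∑_{j < 4^n} (diam f(B[j 4^-n, (j+1) 4^-n]))^2 = O((n+1)^γ)` for some `γ < 2`, is holomorphic. This
contains all `f` with `|f(B_s) - f(B_t)| ≤ C |s-t|^(1/2) (1 + log 1/|s-t|)^b`, `b < 1` (Lévy's modulus
has `b = 1/2`).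

PROOF IN SHORT. A HUB of the cell `c` (side `2^-n`) is a grid time `k 4^-n` with `B ∈ c` such that
during the next time unit `4^-n` the path follows a fixed route around `c`. The piece of the path
at a hub meets every curve from the inner block `IB` (`3 × 3` cells around `c`) to the outside; so,
`f` being a HOMEOMORPHISM, `diam f(IB) ≤ diam f(B(I_k))` for EVERY hub `k` of `c`. If `c` has `a`
hubs, `diam f(IB) ≤ a⁻¹ ∑_hubs osc`: a gain of the factor `a`. The cell of `B_t` has at least `a` hubs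
at scale `n` up to a probability `O(a / n)` (the returns to the cell on `log`-scale), and using `r`
separated scales, up to `O((a/n)^r)`. With `a = n^(1 - 1/K)`, `r = 20 K` the bad pieces are
negligible, and `∫ |Re f(K ∩ line)| ≤ C a⁻¹ √Q + ... → 0` for `Q = O(n^γ)`, `γ/2 < 1 - 1/K`.

FILES. Module XXX: `Pool/Agent/Lib/MP_8b264c_pr/QV2/XXX.lean`, imports this file only (or `QV.YYY` for
copied lemmas), namespace `Pool.Agent.Lib.MP_8b264c_pr.QV2`, one theorem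
`specXXX (hYYY : SpecYYY) ... : SpecXXX` with the hypotheses listed in `deps` of the table; private
lemmas in a namespace `XXXM`. `SpecIND, SpecFUB, SpecLOW, SpecMOM` are those of `QV`.
-/

set_option autoImplicit false

open MeasureTheory Set ProbabilityTheory Filter Topology

namespace Pool.Agent.Lib.MP_8b264c_pr.QV2

open Pool.Agent.BMR Pool.Agent.Lib.MP_8b264c_pr.QV

/-! ## Geometry -/

/-- The cell (scale `n`, side `2^-n`) of a point; `cell β n j = cp n (β (tm n j))`. -/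
noncomputable def cp (n : ℕ) (z : ℂ) : ℤ × ℤ := (⌊2 ^ n * z.re⌋, ⌊2 ^ n * z.im⌋)

/-- Coordinates relative to the cell `c`; the cell is `[0,1)²`. -/
noncomputable def rel (n : ℕ) (c : ℤ × ℤ) (z : ℂ) : ℂ := ⟨2 ^ n * z.re - c.1, 2 ^ n * z.im - c.2⟩

/-- The inner block: relative coordinates in `[-1,2]`. -/
def IB (n : ℕ) (c : ℤ × ℤ) : Set ℂ :=
  {z | -1 ≤ (rel n c z).re ∧ (rel n c z).re ≤ 2 ∧ -1 ≤ (rel n c z).im ∧ (rel n c z).im ≤ 2}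

/-- The big square: relative coordinates in `[-5/2,7/2]`. -/
def BS (n : ℕ) (c : ℤ × ℤ) : Set ℂ :=
  {z | -(5 / 2) ≤ (rel n c z).re ∧ (rel n c z).re ≤ 7 / 2 ∧
    -(5 / 2) ≤ (rel n c z).im ∧ (rel n c z).im ≤ 7 / 2}

/-- `H` meets every curve from the inner block to the outside of the big square. -/
def Circ (H : Set ℂ) (n : ℕ) (c : ℤ × ℤ) : Prop :=
  ∀ α : ℝ → ℂ, Continuous α → α 0 ∈ IB n c → (∃ t, 0 ≤ t ∧ α t ∉ BS n c) → ∃ t, 0 ≤ t ∧ α t ∈ H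

/-- `β` crosses during `[u,v]` the left, top, right and bottom strip of the big square. -/
def Strips (β : ℝ → ℂ) (u v : ℝ) (n : ℕ) (c : ℤ × ℤ) : Prop :=
  (∃ p q, u ≤ p ∧ p ≤ q ∧ q ≤ v ∧
    (∀ t ∈ Icc p q, -(5 / 2) ≤ (rel n c (β t)).re ∧ (rel n c (β t)).re ≤ -(3 / 2)) ∧
    (rel n c (β p)).im ≤ -(5 / 2) ∧ 7 / 2 ≤ (rel n c (β q)).im) ∧
  (∃ p q, u ≤ p ∧ p ≤ q ∧ q ≤ v ∧
    (∀ t ∈ Icc p q, 5 / 2 ≤ (rel n c (β t)).im ∧ (rel n c (β t)).im ≤ 7 / 2) ∧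
    (rel n c (β p)).re ≤ -(5 / 2) ∧ 7 / 2 ≤ (rel n c (β q)).re) ∧
  (∃ p q, u ≤ p ∧ p ≤ q ∧ q ≤ v ∧
    (∀ t ∈ Icc p q, 5 / 2 ≤ (rel n c (β t)).re ∧ (rel n c (β t)).re ≤ 7 / 2) ∧
    7 / 2 ≤ (rel n c (β p)).im ∧ (rel n c (β q)).im ≤ -(5 / 2)) ∧
  (∃ p q, u ≤ p ∧ p ≤ q ∧ q ≤ v ∧
    (∀ t ∈ Icc p q, -(5 / 2) ≤ (rel n c (β t)).im ∧ (rel n c (β t)).im ≤ -(3 / 2)) ∧
    7 / 2 ≤ (rel n c (β p)).re ∧ (rel n c (β q)).re ≤ -(5 / 2))

/-- The way points of the route. -/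
noncomputable def way (z : ℂ) : ℕ → ℂ
  | 0 => z
  | 1 => ⟨-2, -3⟩
  | 2 => ⟨-2, 4⟩
  | 3 => ⟨-3, 3⟩
  | 4 => ⟨4, 3⟩
  | 5 => ⟨3, 4⟩
  | 6 => ⟨3, -3⟩
  | 7 => ⟨4, -2⟩
  | _ => ⟨-3, -2⟩

/-- Clamp to `[0,1]`. -/
noncomputable def cl (x : ℝ) : ℝ := max 0 (min 1 x)

/-- The route: piecewise linear, at `way z k` at time `k/8`. -/
noncomputable def route (z : ℂ) (t : ℝ) : ℂ :=
  z + ∑ k ∈ Finset.range 8, ((cl (8 * t - k) : ℝ) : ℂ) * (way z (k + 1) - way z k)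

/-! ## Hubs -/

/-- The path at rational times. -/
def rat (β : ℝ → ℂ) : ℚ → ℂ := fun q => β q

/-- `k` is a hub of the cell `c` for the path `ξ` (given at rational times): at the grid time `k 4^-n`
the path is in `c`, and it follows the route during the next time unit `4^-n`, up to `1/2`. -/
def hub (ξ : ℚ → ℂ) (n : ℕ) (c : ℤ × ℤ) (k : ℕ) : Prop :=
  cp n (ξ ((k : ℚ) / 4 ^ n)) = c ∧ ∀ q : ℚ, 0 ≤ q → q ≤ 1 →
    Near (rel n c (ξ (((k : ℚ) + q) / 4 ^ n))) (route (rel n c (ξ ((k : ℚ) / 4 ^ n))) (q : ℝ))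
      (1 / 2)

open Classical in
/-- The number of hubs in `[k, k + L)`. -/
noncomputable def cnt (ξ : ℚ → ℂ) (n : ℕ) (c : ℤ × ℤ) (k L : ℕ) : ℕ :=
  ((Finset.Ico k (k + L)).filter (fun i => hub ξ n c i)).card

lemma hub_congr {ξ ξ' : ℚ → ℂ} {n : ℕ} {c : ℤ × ℤ} {k : ℕ}
    (h : ∀ q : ℚ, (k : ℚ) / 4 ^ n ≤ q → q ≤ ((k : ℚ) + 1) / 4 ^ n → ξ q = ξ' q) :
    hub ξ n c k ↔ hub ξ' n c k := by
  have p4 : (0 : ℚ) < 4 ^ n := by positivity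
  have h0 : ξ ((k : ℚ) / 4 ^ n) = ξ' ((k : ℚ) / 4 ^ n) :=
    h _ le_rfl (div_le_div_of_nonneg_right (by linarith) p4.le)
  have h1 : ∀ q : ℚ, 0 ≤ q → q ≤ 1 → ξ (((k : ℚ) + q) / 4 ^ n) = ξ' (((k : ℚ) + q) / 4 ^ n) :=
    fun q a b => h _ (div_le_div_of_nonneg_right (by linarith) p4.le)
      (div_le_div_of_nonneg_right (by linarith) p4.le)
  unfold hub
  rw [h0]
  constructor
  · rintro ⟨a, b⟩
    exact ⟨a, fun q q0 q1 => by rw [← h1 q q0 q1]; exact b q q0 q1⟩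
  · rintro ⟨a, b⟩
    exact ⟨a, fun q q0 q1 => by rw [h1 q q0 q1]; exact b q q0 q1⟩

lemma cnt_congr {ξ ξ' : ℚ → ℂ} {n : ℕ} {c : ℤ × ℤ} {k L : ℕ}
    (h : ∀ q : ℚ, (k : ℚ) / 4 ^ n ≤ q → q ≤ ((k : ℚ) + L) / 4 ^ n → ξ q = ξ' q) :
    cnt ξ n c k L = cnt ξ' n c k L := by
  classical
  have p4 : (0 : ℚ) < 4 ^ n := by positivity
  unfold cnt
  congr 1
  refine Finset.filter_congr fun i hi => hub_congr fun q a b => ?_
  rw [Finset.mem_Ico] at hi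
  have i1 : (k : ℚ) ≤ i := by exact_mod_cast hi.1
  have i2 : (i : ℚ) + 1 ≤ (k : ℚ) + L := by exact_mod_cast hi.2
  exact h q ((div_le_div_of_nonneg_right i1 p4.le).trans a)
    (b.trans (div_le_div_of_nonneg_right i2 p4.le))

/-- The number of hubs of the cell `c` of the whole path. -/
noncomputable def hubN (β : ℝ → ℂ) (n : ℕ) (c : ℤ × ℤ) : ℕ := cnt (rat β) n c 0 (4 ^ n)

/-- The scales: `sc ν i`, `i < r`, and the finest scale `sc ν r`. -/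
def sc (ν i : ℕ) : ℕ := (i + 1) * (2 * ν + 1)

open Classical in
/-- The bad pieces of the finest scale: at none of the `r` scales the cell has `a` hubs. -/
noncomputable def badJ (β : ℝ → ℂ) (ν r a : ℕ) : Finset ℕ :=
  (Finset.range (4 ^ sc ν r)).filter
    (fun j => ∀ i < r, hubN β (sc ν i) (cp (sc ν i) (β (tm (sc ν r) j))) < a)

/-- The path stopped at `s`, at rational times. -/
def pst {Ω : Type} (B : ℝ → Ω → ℂ) (s : ℝ) (ω : Ω) : ℚ → ℂ := fun q => B (max 0 (min (q : ℝ) s)) ω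

/-- The increments after `s`, at rational times (absolute times). -/
def fut {Ω : Type} (B : ℝ → Ω → ℂ) (s : ℝ) (ω : Ω) : ℚ → ℂ :=
  fun q => B (max s (min (q : ℝ) 1)) ω - B s ω

/-! ## Modules: geometry -/

/-- CRS (80 lines, no deps). Two crossings of a rectangle meet.

PROOF. Poincare-Miranda from Brouwer: `MP43832.specBrouwer` (import
`Pool.Agent.Lib.MP_43832e_gt.Brouwer`; a bounded continuous `b` on `ℝ^N` has `y + b y = 0`), `N = 2`.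
`π` = clamp to `[p,q] × [p',q']`, `F(s,t) = α s - β t`. Case (`≤ a` at `p`, `≤ c` at `p'`):
`b(x) = -π(x) + (re F(πx), -im F(πx))`. A zero has `x = πx - (re F, -im F)(πx)`; if `x₁ > q` then
`π₁ = q`, `re F ≥ b - b = 0`, so `x₁ ≤ q`, contradiction; `x₁ < p`, `x₂ > q'` (`im F ≤ d - d`),
`x₂ < p'` the same. So `x = πx` and `F(x) = 0`. The other cases: change the signs of `re F` / `im F`. -/
def SpecCRS : Prop :=
  ∀ (α β : ℝ → ℂ) (p q p' q' a b c d : ℝ), Continuous α → Continuous β → p ≤ q → p' ≤ q' →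
    (∀ t ∈ Icc p q, c ≤ (α t).im ∧ (α t).im ≤ d) → (∀ t ∈ Icc p' q', a ≤ (β t).re ∧ (β t).re ≤ b) →
    ((α p).re ≤ a ∧ b ≤ (α q).re ∨ b ≤ (α p).re ∧ (α q).re ≤ a) →
    ((β p').im ≤ c ∧ d ≤ (β q').im ∨ d ≤ (β p').im ∧ (β q').im ≤ c) →
    ∃ s ∈ Icc p q, ∃ t ∈ Icc p' q', α s = β t

/-- CIR (100 lines, deps CRS). The four crossings give a circuit.

PROOF. Let `α 0 ∈ IB`, `α t₀ ∉ BS`. `T` = minimum of the closed set of the `t ∈ [0,t₀]` where the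
relative coordinates of `α t` are not in the OPEN square `(-5/2,7/2)²`; on `[0,T]` they are in the
closed square, and at `T` one of the four: `re ≤ -5/2`, `re ≥ 7/2`, `im ≤ -5/2`, `im ≥ 7/2`. If
`re ≤ -5/2`: CRS for `rel ∘ α` on `[0,T]` (`im ∈ [-5/2,7/2]`; `re` at `0` is `≥ -1 ≥ -3/2`, at `T`
`≤ -5/2`) and `rel ∘ β` on the left strip (`a = -5/2`, `b = -3/2`, `c = -5/2`, `d = 7/2`). The other
sides the same (for top and bottom the roles of `α`, `β` in CRS are exchanged: `β` is the horizontal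
crossing). `rel` is injective. -/
def SpecCIR : Prop :=
  ∀ (β : ℝ → ℂ) (u v : ℝ) (n : ℕ) (c : ℤ × ℤ), Continuous β → Strips β u v n c →
    Circ (β '' Icc u v) n c

/-- ROU (120 lines, deps CIR). A hub is a circuit.

PROOF. `z = rel (β (k/4^n)) `. On `t ∈ [1/8,2/8]`: `cl (8t) = 1`, `cl (8t - 1) = 8t - 1`,
`cl (8t - j) = 0` for `j ≥ 2`, so `route z t = (-2, -3) + (8t - 1) (0, 7)`; in the same way
`route z t = way k + (8t - k)(way (k+1) - way k)` on `[k/8,(k+1)/8]`. The closeness `1/2` holds at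
rational `q`, hence (continuity of `β` and of `route`) at all real `t ∈ [0,1]`. Left strip on
`[1/8,2/8]` (`re ∈ -2 ± 1/2`, `im ≤ -3 + 1/2` at `1/8`, `≥ 4 - 1/2` at `2/8`), top strip on
`[3/8,4/8]`, right strip on `[5/8,6/8]`, bottom strip on `[7/8,1]`; times `(k + t)/4^n`. -/
def SpecROU : Prop :=
  ∀ (β : ℝ → ℂ) (n : ℕ) (c : ℤ × ℤ) (k : ℕ), Continuous β → hub (rat β) n c k →
    Circ (β '' Icc (tm n k) (tm n (k + 1))) n c

/-- ENC (80 lines, no deps). The image of the inner block lies in the convex hull of the image of a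
circuit.

PROOF. Claim: `f z ∈ convexHull ℝ (f '' H)` for `z ∈ IB`. `C = convexHull ℝ (f '' H)` is compact
(`IsCompact.convexHull`, finite dimension). If `f z ∉ C` (`C` may be empty), separate
(`geometric_hahn_banach_closed_point` or `..._point_closed`): a continuous linear `L` with
`L w < L (f z)` for `w ∈ C`; choose `v ≠ 0` with `L v ≥ 0` (`v` or `-v`). `α t = f.symm (f z + t v)`
is continuous, `α 0 = z`, and `f (α t) ∉ C` for `t ≥ 0`, so `α t ∉ H`. It leaves `BS`: `BS` is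
compact, so `f '' BS` is bounded, but `f z + t v` is unbounded. Contradiction to `Circ`. Finally
`dist ≤ diam (convexHull) = diam (f '' H)` (`convexHull_diam`, `Metric.dist_le_diam_of_mem`). -/
def SpecENC : Prop :=
  ∀ (f : ℂ ≃ₜ ℂ) (H : Set ℂ) (n : ℕ) (c : ℤ × ℤ), IsCompact H → Circ H n c →
    ∀ z ∈ IB n c, ∀ w ∈ IB n c, dist (f z) (f w) ≤ Metric.diam (⇑f '' H)

/-! ## Modules: probability -/

/-- MSR (60 lines, no deps). Measurability. -/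
def SpecMSR : Prop :=
  (∀ n : ℕ, Measurable (cp n)) ∧
  (∀ (n : ℕ) (c : ℤ × ℤ) (k : ℕ), MeasurableSet {ξ : ℚ → ℂ | hub ξ n c k}) ∧
  ∀ (n : ℕ) (c : ℤ × ℤ) (k L a : ℕ), MeasurableSet {ξ : ℚ → ℂ | cnt ξ n c k L < a}

/-- MKV (60 lines, deps IND FUB). The Markov property: the past and the future are independent.

PROOF. IND with `T₁ = T₂ = ℚ`, `u₁ = 0`, `v₁ q = max 0 (min q s)` (`B 0 = 0`), `u₂ = s`,
`v₂ q = max s (min q 1)`; a.e. measurability coordinatewise (`ℚ` is countable); FUB. -/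
def SpecMKV : Prop :=
  ∀ (Ω : Type) [MeasurableSpace Ω] (P : Measure Ω) [IsProbabilityMeasure P] (B : ℝ → Ω → ℂ),
    IsPBM P B → ∀ s ∈ Icc (0 : ℝ) 1,
      (AEMeasurable (pst B s) P ∧ AEMeasurable (fut B s) P) ∧
      ∀ F : (ℚ → ℂ) → (ℚ → ℂ) → ENNReal, Measurable (Function.uncurry F) →
        ∫⁻ ω, F (pst B s ω) (fut B s ω) ∂P = ∫⁻ ω, (∫⁻ ω', F (pst B s ω) (fut B s ω') ∂P) ∂P

/-- STA (80 lines, deps MSR). Stationarity of the increments.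

PROOF. `L = 0`: both counts are `0`. `L ≥ 1`: with `s = k/4^n`, `t = (k+L)/4^n`, `seg B s t` and
`seg B s' t'` are Brownian motions (`IsPBM.isPBM_seg`) on the same space, so their joint laws at the
rational times of `[0,1]` agree (`map_unique`, `T = {q : ℚ // 0 ≤ q ∧ q ≤ 1} × Bool`), and
`B (s + u (t - s)) - B s = √(t - s) * seg B s t u` with `t - s = t' - s'`. The event is a measurable
(MSR) function of these values (shift of the indices; `cnt_congr`). -/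
def SpecSTA : Prop :=
  ∀ (Ω : Type) [MeasurableSpace Ω] (P : Measure Ω) [IsProbabilityMeasure P] (B : ℝ → Ω → ℂ),
    IsPBM P B → ∀ (n : ℕ) (c : ℤ × ℤ) (L a k k' : ℕ) (w : ℂ), k + L ≤ 4 ^ n → k' + L ≤ 4 ^ n →
      P {ω | cnt (fun q : ℚ => w + (B (q : ℝ) ω - B (tm n k) ω)) n c k L < a} =
      P {ω | cnt (fun q : ℚ => w + (B (q : ℝ) ω - B (tm n k') ω)) n c k' L < a}

/-- OSU (150 lines, no deps). A uniform maximal inequality.

PROOF. By `seg` it is enough to show `P(∃ u ∈ [0,1], l < ‖B u‖) ≤ C / l⁴` with a universal `C`: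
COPY of `QV/OSC.lean` (chaining, `q = 2`) with the universal moment bound of `QV/MOM.lean`
(`MOMM.inc_mom`), and Markov. -/
def SpecOSU : Prop :=
  ∃ C : ℝ, 0 < C ∧
  ∀ (Ω : Type) [MeasurableSpace Ω] (P : Measure Ω) [IsProbabilityMeasure P] (B : ℝ → Ω → ℂ),
    IsPBM P B → ∀ s t l : ℝ, 0 ≤ s → s < t → t ≤ 1 → 0 < l →
      P {ω | ∃ u ∈ Icc s t, l < ‖B u ω - B s ω‖} ≤ ENNReal.ofReal (C * (t - s) ^ 2 / l ^ 4)

/-- TUB (200 lines, deps IND LOW OSU). The path follows the route with positive probability.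

PROOF. `route z` is `Λ`-Lipschitz in both coordinates, `Λ = 512`, and `route z 0 = z`. `η = 1/N`,
`t_i = i η`, `G_i` = (`Near (B t_{i+1} - B t_i) (route z t_{i+1} - route z t_i) (η/8)`) and
(`‖B u - B t_i‖ ≤ 1/8` for the rational `u ∈ [t_i, t_{i+1}]`). LOW with `M = 1` (constant `c`; for
`Λ √η ≤ 1`) and OSU: `P(G_i) ≥ c η/64 - 4096 C η² ≥ c η/128` if `N` is large. The `G_i` are
independent (IND, induction: `G_0 ∩ ... ∩ G_{i-1}` is a function of the increments `B q - B 0`,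
`q ≤ t_i` rational, `G_i` of the increments `B q - B t_i`), so `P(⋂ G_i) ≥ (c η/128)^N =: ρ`. On
`⋂ G_i`, for `q ∈ [t_i, t_{i+1}]` the coordinates of `z + B q - route z q` are at most
`1/8 + i η/8 + Λ η ≤ 1/8 + 1/8 + 1/4` (`Λ η ≤ 1/4`). -/
def SpecTUB : Prop :=
  ∃ ρ : ℝ, 0 < ρ ∧
  ∀ (Ω : Type) [MeasurableSpace Ω] (P : Measure Ω) [IsProbabilityMeasure P] (B : ℝ → Ω → ℂ),
    IsPBM P B → ∀ z : ℂ, 0 ≤ z.re → z.re ≤ 1 → 0 ≤ z.im → z.im ≤ 1 →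
      ENNReal.ofReal ρ ≤
        P {ω | ∀ q : ℚ, 0 ≤ q → q ≤ 1 → Near (z + B (q : ℝ) ω) (route z (q : ℝ)) (1 / 2)}

/-- CMP (150 lines, no deps). Comparison of two Gaussian laws.

PROOF. The law of `(re, im)` of `B t - B s` is the product of two `gaussianReal 0 (t - s)` (as in
`QV/DEN.lean`, `DENM.one`, and scaling). In dimension one, for `h ≤ v ≤ 2h` and `|x - y| ≤ 10 √h`:
`(2πv)^(-1/2) exp(-(w-y)²/(2v)) ≤ √8 e^(100/8) (2π·8h)^(-1/2) exp(-(w-x)²/(16h))`, because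
`(w-x)²/(16h) ≤ (w-y)²/(8h) + (x-y)²/(8h)` and `1/(2v) ≥ 1/(4h)`. So the shifted laws satisfy
`μ ≤ C₁ • ν`, and the products `μ₁ × μ₂ ≤ C₁² • (ν₁ × ν₂)`. -/
def SpecCMP : Prop :=
  ∃ C : ℝ, 0 < C ∧
  ∀ (Ω : Type) [MeasurableSpace Ω] (P : Measure Ω) [IsProbabilityMeasure P] (B : ℝ → Ω → ℂ),
    IsPBM P B → ∀ (h s t s' t' : ℝ) (x y : ℂ), 0 < h → 0 ≤ s → t ≤ 1 → h ≤ t - s → t - s ≤ 2 * h →
      0 ≤ s' → t' ≤ 1 → t' - s' = 8 * h →
      |x.re - y.re| ≤ 10 * Real.sqrt h → |x.im - y.im| ≤ 10 * Real.sqrt h →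
      ∀ F : ℂ → ENNReal, Measurable F →
        ∫⁻ ω, F (y + (B t ω - B s ω)) ∂P ≤
          ENNReal.ofReal C * ∫⁻ ω, F (x + (B t' ω - B s' ω)) ∂P

/-- HUB (150 lines, deps MSR MKV LOW TUB). The probability that `k` is a hub.

PROOF. `s = tm n k = k/4^n`. (1) `P(cp n (y + B s) = c) ≥ P(Near (B s - B 0) (centre - y) (2^-n/4)) ≥
c₀ 4^-n/16/(k 4^-n) = c₀/(16 k)` by LOW with `M = 4` (`centre` = the point with relative coordinates
`(1/2,1/2)`, `|centre - y|_∞ ≤ 3.5·2^-n ≤ 4 √s`). (2) MKV at `s`: given the past with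
`w = y + B s` in the cell, `z = rel n c w ∈ [0,1)²`, the event is `∀ q, Near (z + 2^n (B((k+q)/4^n) -
B s)) (route z q) (1/2)`, and `2^n (B((k+q)/4^n) - B s) = seg B (tm n k) (tm n (k+1)) q`; TUB for
the Brownian motion `seg ...` gives `≥ ρ`. -/
def SpecHUB : Prop :=
  ∃ κ : ℝ, 0 < κ ∧
  ∀ (Ω : Type) [MeasurableSpace Ω] (P : Measure Ω) [IsProbabilityMeasure P] (B : ℝ → Ω → ℂ),
    IsPBM P B → ∀ (n k : ℕ) (c : ℤ × ℤ) (y : ℂ), 1 ≤ k → k + 1 ≤ 4 ^ n →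
      |(rel n c y).re| ≤ 3 → |(rel n c y).im| ≤ 3 →
      ENNReal.ofReal (κ / k) ≤ P {ω | hub (fun q : ℚ => y + B (q : ℝ) ω) n c k}

/-- FE1 (40 lines, no deps). Few of the hubs are followed by few hubs.

PROOF. Let `k₁` be the smallest element of the set. The other elements are hubs of
`[k₁, k₀ + L) ⊆ [k₁, k₁ + L)`; those `≥ k₁ + 9` are hubs in `[k₁ + 9, k₁ + 9 + L)`, fewer than `a`;
at most `9` are in `[k₁, k₁ + 9)`. -/
def SpecFE1 : Prop :=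
  ∀ (ξ : ℚ → ℂ) (n : ℕ) (c : ℤ × ℤ) (k₀ L a : ℕ) (S : Finset ℕ), S ⊆ Finset.Ico k₀ (k₀ + L) →
    (∀ i ∈ S, hub ξ n c i ∧ cnt ξ n c (i + 9) L < a) → S.card ≤ a + 9

/-- FE2 (200 lines, deps MSR MKV STA CMP HUB). One term of the renewal inequality.

PROOF. `u = tm n (k+1)`, `u' = tm n (k+9)`, `Ψ(w) = P{cnt (w + (B - B u')) n c (k+9) L < a}` (a
measurable function of `w`). MKV at `u'` (`y + B q = (y + B u') + fut q` for `q ≥ u'`):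
right side `= ∫ 1{hub k} Ψ(y + B u')`. MKV at `u`: `= ∫ 1{hub k}(ω) ∫ Ψ((y + B u ω) + (B u' - B u)(ω'))`.
On `{hub k}` the point `x' = y + B u` has `rel` within `1/2` of `(-3,-2)` (`q = 1`: `route z 1 =
way 8 = (-3,-2)`), so it is within `6.5·2^-n` of `x` in both coordinates, and CMP (`h = 4^-n`,
`√h = 2^-n`) gives: inner integral `≥ C⁻¹ ∫ Ψ(x + (B (tm n k₀) - B s))`. By STA
`Ψ(w) = P{cnt (w + (B - B (tm n k₀))) n c k₀ L < a}`, and MKV at `tm n k₀` (here `s ≤ tm n k₀`; the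
past at `s` is `pst B (tm n k₀) s`, `s` rational) identifies the last integral with the
probability on the left. Finally HUB. -/
def SpecFE2 : Prop :=
  ∃ κ : ℝ, 0 < κ ∧
  ∀ (Ω : Type) [MeasurableSpace Ω] (P : Measure Ω) [IsProbabilityMeasure P] (B : ℝ → Ω → ℂ),
    IsPBM P B → ∀ (n k L a k₀ : ℕ) (c : ℤ × ℤ) (x y : ℂ) (s : ℚ), 1 ≤ k → k + 9 + L ≤ 4 ^ n →
      |(rel n c y).re| ≤ 3 → |(rel n c y).im| ≤ 3 → |(rel n c x).re| ≤ 3 → |(rel n c x).im| ≤ 3 →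
      0 ≤ s → k₀ + L ≤ 4 ^ n → 1 / 4 ^ n ≤ tm n k₀ - (s : ℝ) → tm n k₀ - (s : ℝ) ≤ 2 / 4 ^ n →
      ENNReal.ofReal (κ / k) *
          P {ω | cnt (fun q : ℚ => x + (B (q : ℝ) ω - B (s : ℝ) ω)) n c k₀ L < a} ≤
        P {ω | hub (fun q : ℚ => y + B (q : ℝ) ω) n c k ∧
          cnt (fun q : ℚ => y + B (q : ℝ) ω) n c (k + 9) L < a}

/-- FEW (100 lines, deps MSR MKV FE1 FE2). Few hubs with small probability.

PROOF. Let `p` be the probability. FE2 with `y = x`, `L = 4^ν`, `k = 1, ..., 4^ν`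
(`k + 9 + 4^ν ≤ 2·4^ν + 9 ≤ 4^(2ν+1) ≤ 4^n`) and FE1 (`k₀ = 1`, with the path `x + B`):
`∑_{k=1}^{4^ν} (κ/k) p ≤ E #{k : hub k, cnt (k+9) < a} ≤ a + 9 ≤ 10 a`, and
`∑_{k=1}^{4^ν} 1/k ≥ log (4^ν) ≥ ν`. So `p ≤ 10 a/(κ ν)`. (Measurability of the events: MSR and
`pst B 1`, MKV.) -/
def SpecFEW : Prop :=
  ∃ C : ℝ, 0 < C ∧
  ∀ (Ω : Type) [MeasurableSpace Ω] (P : Measure Ω) [IsProbabilityMeasure P] (B : ℝ → Ω → ℂ),
    IsPBM P B → ∀ (n ν a k₀ : ℕ) (c : ℤ × ℤ) (x : ℂ) (s : ℚ), 1 ≤ ν → 1 ≤ a → 2 * ν + 1 ≤ n →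
      |(rel n c x).re| ≤ 3 → |(rel n c x).im| ≤ 3 →
      0 ≤ s → k₀ + 4 ^ ν ≤ 4 ^ n → 1 / 4 ^ n ≤ tm n k₀ - (s : ℝ) →
      tm n k₀ - (s : ℝ) ≤ 2 / 4 ^ n →
      P {ω | cnt (fun q : ℚ => x + (B (q : ℝ) ω - B (s : ℝ) ω)) n c k₀ (4 ^ ν) < a} ≤
        ENNReal.ofReal (C * a / ν)

/-- WIN (250 lines, deps MSR MKV MOM FEW). Few hubs at all scales.

PROOF. `n_i = sc ν i`, `σ_i = t + 4^-(n_i + ν)` (rational), `k_i = ⌈4^{n_i} σ_i⌉ + 1`, so that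
`tm n_i k_i - σ_i ∈ [4^-n_i, 2·4^-n_i]`; the window of scale `i` ends at
`tm n_i (k_i + 4^ν) ≤ t + (4^-ν + 2 + 4^ν) 4^-n_i ≤ t + 4·4^ν 4^-n_i`, which is `≤ σ_{i-1}` for `i ≥ 1`
(`n_i = n_{i-1} + 2ν + 1`) and `≤ t + 4^-ν ≤ 1` for `i = 0`. `E_i` = {cnt at scale `i` is `< a`},
`G_i` = {`|B σ_i - B t| ≤ 2^-n_i` in both coordinates}, `P(G_iᶜ) ≤ E ‖B σ_i - B t‖²/4^-n_i ≤ 2·4^-ν`
(MOM). `Q_l = P(⋂_{l ≤ i < r} (E_i ∩ G_i))`, `Q_r = 1`, and `Q_l ≤ (C a/ν) Q_{l+1}`: MKV at `σ_l`; the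
events `E_i, G_i` with `i > l` are functions of `pst B σ_l` (`t ≤ σ_l` rational, the windows end
before `σ_l`; `cnt_congr`), also `c_l = cp n_l (B t)` and `G_l`; given the past, `x = B σ_l` has
`rel n_l c_l x ∈ [-1,2]²` on `G_l`, and FEW bounds the conditional probability of `E_l`. -/
def SpecWIN : Prop :=
  ∃ C : ℝ, 0 < C ∧
  ∀ (Ω : Type) [MeasurableSpace Ω] (P : Measure Ω) [IsProbabilityMeasure P] (B : ℝ → Ω → ℂ),
    IsPBM P B → ∀ (ν r a : ℕ) (t : ℚ), 1 ≤ ν → 1 ≤ a → 0 ≤ t → (t : ℝ) + 1 / 4 ^ ν ≤ 1 →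
      ∃ kk : ℕ → ℕ, (∀ i < r, kk i + 4 ^ ν ≤ 4 ^ sc ν i) ∧
        P {ω | ∀ i < r, cnt (rat fun u => B u ω) (sc ν i) (cp (sc ν i) (B (t : ℝ) ω)) (kk i)
          (4 ^ ν) < a} ≤ ENNReal.ofReal ((C * a / ν) ^ r + 2 * r / 4 ^ ν)

/-- CNB (80 lines, deps WIN). The expected number of bad pieces.

PROOF. `m = sc ν r`, `t_j = tm m j`. If `t_j + 4^-ν ≤ 1`, the event `j ∈ badJ` is contained in the event
`S_j` of WIN (the window is contained in `[0, 4^{n_i})`, so the count is at most `hubN`); the others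
are at most `4^(m-ν)` indices (`j > 4^m - 4^(m-ν)`; `ν ≤ m`), put `S_j = univ`. `W = ∑_j` indicator
of `toMeasurable P S_j`. -/
def SpecCNB : Prop :=
  ∃ C : ℝ, 0 < C ∧
  ∀ (Ω : Type) [MeasurableSpace Ω] (P : Measure Ω) [IsProbabilityMeasure P] (B : ℝ → Ω → ℂ),
    IsPBM P B → ∀ (ν r a : ℕ), 1 ≤ ν → 1 ≤ a → ∃ W : Ω → ENNReal, Measurable W ∧
      ∫⁻ ω, W ω ∂P ≤
        ENNReal.ofReal (4 ^ sc ν r * ((C * a / ν) ^ r + (2 * r + 1) / 4 ^ ν)) ∧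
      ∀ ω, ((badJ (fun u => B u ω) ν r a).card : ENNReal) ≤ W ω

/-- The number of hubs we ask for. -/
noncomputable def aK (K ν : ℕ) : ℕ := ⌈(ν : ℝ) ^ (1 - 1 / (K : ℝ))⌉₊

/-- ASB (80 lines, deps CNB). The number of bad pieces, almost surely.

PROOF. `r = 20 K`, `1 ≤ a ≤ 2 ν^(1 - 1/K)`. `∑_ν ν^16 E W_ν / 4^(sc ν r) ≤
∑_ν ν^16 ((2 C)^r ν^-20 + (2 r + 1) 4^-ν) < ∞`, so the sum `∑_ν ν^16 W_ν / 4^(sc ν r)` is a.s. finite
(`lintegral_tsum`, `ae_lt_top'`) and bounds each term. -/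
def SpecASB : Prop :=
  ∀ K : ℕ, 1 ≤ K →
  ∀ (Ω : Type) [MeasurableSpace Ω] (P : Measure Ω) [IsProbabilityMeasure P] (B : ℝ → Ω → ℂ),
    IsPBM P B → ∀ᵐ ω ∂P, ∃ R : ℝ, 0 ≤ R ∧ ∀ ν : ℕ, 1 ≤ ν →
      ((badJ (fun u => B u ω) ν (20 * K) (aK K ν)).card : ℝ) * (ν : ℝ) ^ 16 ≤
        R * 4 ^ sc ν (20 * K)

/-! ## Modules: the deterministic inequality -/

/-- DE2 (250 lines, deps ROU ENC). The integral over the lines of the measure of the image of the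
slice of the trace.

PROOF. COPY of `QV/DET.lean` with other groups. `m = sc ν r`, `γ = f ∘ β`, `x_j = β (tm m j)`,
`D = 2ν + 1`. The pieces `β(I_j)`, `j < 4^m`, cover the trace. Fat: `2^m osc β m j > 2^D`. If `j` is
neither fat nor in `badJ`, there is `i < r` with `hubN β (sc ν i) c ≥ a` for `c = cp (sc ν i) x_j`; as
`osc β m j ≤ 2^(D - m) ≤ 2^-(sc ν i)`, the piece lies in `IB (sc ν i) c`. For a RICH cell `c` of scale
`n = sc ν i` (`hubN ≥ a`; finitely many: cells of some `x_j`) fix `z_c ∈ IB n c` (corner, `rel = 0`)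
and `d_c = a⁻¹ ∑_{k < 4^n, hub k} osc γ n k`: by ROU and ENC `dist (f z) (f z_c) ≤ osc γ n k` for all
`z ∈ IB n c` and EVERY hub `k`, so `≤ d_c` (average). Majorant:
`G(v) = ∑_{i<r} ∑_{c rich} 1{|v - h z_c| ≤ 5·2^-n} ofReal (2 d_c)
 + ∑_{j fat or bad} 1{|v - h x_j| ≤ osc β m j} ofReal (2 osc γ m j)`
(`diam IB ≤ 3 √2·2^-n ≤ 5·2^-n`). Integral: `∑_i ∑_c 10·2^-n 2 d_c ≤ ∑_i 20·2^-n a⁻¹ ∑_{k<4^n} osc γ n k`
(a hub `k` belongs to one cell) `≤ ∑_i (20/a) √(QS γ n)` (`∑ osc ≤ 2^n √QS`), and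
`4 ∑_{fat or bad} osc β osc γ`: for the bad ones `∑ osc β² = 4^-m ∑ (2^m osc β)² ≤
4^-m √(#bad · FS β 2 m)`, for the fat ones `∑ osc β² ≤ 4^-m 4^-D FS β 2 m`. -/
def SpecDE2 : Prop :=
  ∀ (β : ℝ → ℂ) (f : ℂ ≃ₜ ℂ) (g h : ℂ → ℝ) (ν r a : ℕ), Continuous β → 1 ≤ a →
    (∀ z w, |g z - g w| ≤ ‖z - w‖) → (∀ z w, |h z - h w| ≤ ‖z - w‖) →
    ∃ G : ℝ → ENNReal, Measurable G ∧
      (∀ v, volume ((fun z => g (f z)) '' {z | z ∈ trace β ∧ h z = v}) ≤ G v) ∧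
      ∫⁻ v, G v ≤ ENNReal.ofReal
        (∑ i ∈ Finset.range r, 20 / (a : ℝ) * Real.sqrt (QS (⇑f ∘ β) (sc ν i)) +
          4 * Real.sqrt (QS (⇑f ∘ β) (sc ν r)) *
            (Real.sqrt (Real.sqrt (((badJ β ν r a).card : ℝ) / 4 ^ sc ν r *
              (FS β 2 (sc ν r) / 4 ^ sc ν r))) +
            Real.sqrt (FS β 2 (sc ν r) / 4 ^ sc ν r) / 2 ^ (2 * ν + 1)))

/-- ASE (120 lines, deps DE2). Deterministic: the slices are null.

PROOF. `r = 20 K`, `a = aK K ν ≥ ν^(1 - 1/K)`, `ν → ∞`; `sc ν i + 1 ≤ c₀ ν` with `c₀ = 3 (r + 1) + 1`. The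
bound of DE2 is at most `r·20 ν^-(1 - 1/K) √C (c₀ ν)^(γ/2) +
4 √C (c₀ ν) ((R ν^-16 C (c₀ ν)²)^(1/4) + √C c₀ ν/2^(2ν+1))` (`γ/2 ≤ 1`), which tends to `0` because
`γ/2 < 1 - 1/K`. So `∫⁻` of suitable majorants tends to `0` and the function `v ↦ vol(...)` vanishes
a.e. (as in `QV/ASD.lean`). -/
def SpecASE : Prop :=
  ∀ (K : ℕ) (γ : ℝ) (β : ℝ → ℂ) (f : ℂ ≃ₜ ℂ) (R C : ℝ), 1 ≤ K → 0 ≤ γ →
    γ < 2 * (1 - 1 / (K : ℝ)) → Continuous β → 0 ≤ R → 0 ≤ C →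
    (∀ ν : ℕ, 1 ≤ ν → ((badJ β ν (20 * K) (aK K ν)).card : ℝ) * (ν : ℝ) ^ 16 ≤
      R * 4 ^ sc ν (20 * K)) →
    (∀ n : ℕ, FS β 2 n ≤ C * (n + 1) ^ 2 * 4 ^ n) →
    (∀ n : ℕ, QS (⇑f ∘ β) n ≤ C * ((n : ℝ) + 1) ^ γ) →
    ∀ g h : ℂ → ℝ, (∀ z w, |g z - g w| ≤ ‖z - w‖) → (∀ z w, |h z - h w| ≤ ‖z - w‖) →
      ∀ᵐ v : ℝ, volume ((fun z => g (f z)) '' {z | z ∈ trace β ∧ h z = v}) = 0

end Pool.Agent.Lib.MP_8b264c_pr.QV2
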