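import Pool.Agent.Lib.MP_8b264c_pr.QV.DET
import Pool.Agent.Lib.MP_8b264c_pr.QV2.Spec

/-!
# Module DE2: the deterministic inequality (hubs)
-/

set_option autoImplicit false

open MeasureTheory Set ProbabilityTheory Filter Topology

namespace Pool.Agent.Lib.MP_8b264c_pr.QV2

open Pool.Agent.BMR Pool.Agent.Lib.MP_8b264c_pr.QV

namespace DE2M

/-- the corner of a cell -/
noncomputable def zc (n : ℕ) (c : ℤ × ℤ) : ℂ := ⟨(c.1 : ℝ) / 2 ^ n, (c.2 : ℝ) / 2 ^ n⟩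

theorem rel_re (n : ℕ) (c : ℤ × ℤ) (z : ℂ) : (rel n c z).re = 2 ^ n * z.re - c.1 := rfl

theorem rel_im (n : ℕ) (c : ℤ × ℤ) (z : ℂ) : (rel n c z).im = 2 ^ n * z.im - c.2 := rfl

theorem zc_re (n : ℕ) (c : ℤ × ℤ) : (rel n c (zc n c)).re = 0 := by
  have h2n : (0 : ℝ) < 2 ^ n := by positivity
  rw [rel_re]
  show 2 ^ n * ((c.1 : ℝ) / 2 ^ n) - c.1 = 0
  rw [mul_div_cancel₀ _ h2n.ne', sub_self]

theorem zc_im (n : ℕ) (c : ℤ × ℤ) : (rel n c (zc n c)).im = 0 := by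
  have h2n : (0 : ℝ) < 2 ^ n := by positivity
  rw [rel_im]
  show 2 ^ n * ((c.2 : ℝ) / 2 ^ n) - c.2 = 0
  rw [mul_div_cancel₀ _ h2n.ne', sub_self]

theorem zc_mem (n : ℕ) (c : ℤ × ℤ) : zc n c ∈ IB n c := by
  show -1 ≤ (rel n c (zc n c)).re ∧ (rel n c (zc n c)).re ≤ 2 ∧ -1 ≤ (rel n c (zc n c)).im ∧
    (rel n c (zc n c)).im ≤ 2
  rw [zc_re, zc_im]
  norm_num

theorem IB_dist {n : ℕ} {c : ℤ × ℤ} {z : ℂ} (hz : z ∈ IB n c) : ‖z - zc n c‖ ≤ 5 / 2 ^ n := by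
  have h2n : (0 : ℝ) < 2 ^ n := by positivity
  obtain ⟨h1, h2, h3, h4⟩ := hz
  have e1 : 2 ^ n * (z - zc n c).re = (rel n c z).re := by
    have := zc_re n c
    rw [rel_re] at this ⊢
    rw [Complex.sub_re, mul_sub]
    linarith
  have e2 : 2 ^ n * (z - zc n c).im = (rel n c z).im := by
    have := zc_im n c
    rw [rel_im] at this ⊢
    rw [Complex.sub_im, mul_sub]
    linarith
  have hab : ∀ x : ℝ, 2 ^ n * |x| = |2 ^ n * x| := fun x => by
    rw [abs_mul, abs_of_pos h2n]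
  have d1 : |(z - zc n c).re| ≤ 2 / 2 ^ n := by
    rw [le_div_iff₀ h2n, mul_comm, hab, e1]
    exact abs_le.2 ⟨by linarith, h2⟩
  have d2 : |(z - zc n c).im| ≤ 2 / 2 ^ n := by
    rw [le_div_iff₀ h2n, mul_comm, hab, e2]
    exact abs_le.2 ⟨by linarith, h4⟩
  calc ‖z - zc n c‖ ≤ |(z - zc n c).re| + |(z - zc n c).im| := Complex.norm_le_abs_re_add_abs_im _
    _ ≤ 2 / 2 ^ n + 2 / 2 ^ n := add_le_add d1 d2
    _ = 4 / 2 ^ n := by ring
    _ ≤ 5 / 2 ^ n := div_le_div_of_nonneg_right (by norm_num) h2n.le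

theorem piece_IB {n : ℕ} {z x : ℂ} (h : ‖z - x‖ ≤ 1 / 2 ^ n) : z ∈ IB n (cp n x) := by
  have h2n : (0 : ℝ) < 2 ^ n := by positivity
  have e1 : |2 ^ n * z.re - 2 ^ n * x.re| ≤ 1 := by
    rw [← mul_sub, abs_mul, abs_of_pos h2n, ← Complex.sub_re]
    calc 2 ^ n * |(z - x).re| ≤ 2 ^ n * (1 / 2 ^ n) :=
          mul_le_mul_of_nonneg_left ((Complex.abs_re_le_norm _).trans h) h2n.le
      _ = 1 := mul_one_div_cancel h2n.ne'
  have e2 : |2 ^ n * z.im - 2 ^ n * x.im| ≤ 1 := by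
    rw [← mul_sub, abs_mul, abs_of_pos h2n, ← Complex.sub_im]
    calc 2 ^ n * |(z - x).im| ≤ 2 ^ n * (1 / 2 ^ n) :=
          mul_le_mul_of_nonneg_left ((Complex.abs_im_le_norm _).trans h) h2n.le
      _ = 1 := mul_one_div_cancel h2n.ne'
  have f1 := Int.floor_le (2 ^ n * x.re)
  have f2 := Int.lt_floor_add_one (2 ^ n * x.re)
  have f3 := Int.floor_le (2 ^ n * x.im)
  have f4 := Int.lt_floor_add_one (2 ^ n * x.im)
  rw [abs_le] at e1 e2
  refine ⟨?_, ?_, ?_, ?_⟩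
  · rw [rel_re]
    show -1 ≤ 2 ^ n * z.re - (⌊2 ^ n * x.re⌋ : ℝ)
    linarith [e1.1]
  · rw [rel_re]
    show 2 ^ n * z.re - (⌊2 ^ n * x.re⌋ : ℝ) ≤ 2
    linarith [e1.2]
  · rw [rel_im]
    show -1 ≤ 2 ^ n * z.im - (⌊2 ^ n * x.im⌋ : ℝ)
    linarith [e2.1]
  · rw [rel_im]
    show 2 ^ n * z.im - (⌊2 ^ n * x.im⌋ : ℝ) ≤ 2
    linarith [e2.2]

open Classical in
/-- the hubs of a cell -/
noncomputable def hs (β : ℝ → ℂ) (n : ℕ) (c : ℤ × ℤ) : Finset ℕ :=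
  (Finset.Ico 0 (0 + 4 ^ n)).filter (fun k => hub (rat β) n c k)

theorem mem_hs {β : ℝ → ℂ} {n : ℕ} {c : ℤ × ℤ} {k : ℕ} :
    k ∈ hs β n c ↔ k < 4 ^ n ∧ hub (rat β) n c k := by
  classical
  unfold hs
  rw [Finset.mem_filter, Finset.mem_Ico]
  constructor
  · rintro ⟨⟨-, h1⟩, h2⟩
    exact ⟨by omega, h2⟩
  · rintro ⟨h1, h2⟩
    exact ⟨⟨Nat.zero_le _, by omega⟩, h2⟩

theorem card_hs (β : ℝ → ℂ) (n : ℕ) (c : ℤ × ℤ) : (hs β n c).card = hubN β n c := rfl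

theorem rich (hROU : SpecROU) (hENC : SpecENC) {β : ℝ → ℂ} (f : ℂ ≃ₜ ℂ) (hβ : Continuous β)
    {n a : ℕ} {c : ℤ × ℤ} (ha : 1 ≤ a) (hc : a ≤ hubN β n c) {z : ℂ} (hz : z ∈ IB n c) :
    dist (f z) (f (zc n c)) ≤ (∑ k ∈ hs β n c, osc (⇑f ∘ β) n k) / a := by
  have ha0 : (0 : ℝ) < a := by exact_mod_cast ha
  rw [le_div_iff₀ ha0]
  have h1 : ∀ k ∈ hs β n c, dist (f z) (f (zc n c)) ≤ osc (⇑f ∘ β) n k := by
    intro k hk
    have h2 := hROU β n c k hβ (mem_hs.1 hk).2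
    have h3 := hENC f _ n c (isCompact_Icc.image hβ) h2 z hz _ (zc_mem n c)
    unfold osc
    rw [Set.image_comp]
    exact h3
  have h2 := Finset.card_nsmul_le_sum _ _ _ h1
  rw [nsmul_eq_mul, card_hs] at h2
  have h3 : (a : ℝ) ≤ (hubN β n c : ℝ) := by exact_mod_cast hc
  calc dist (f z) (f (zc n c)) * a ≤ dist (f z) (f (zc n c)) * (hubN β n c : ℝ) :=
        mul_le_mul_of_nonneg_left h3 dist_nonneg
    _ = (hubN β n c : ℝ) * dist (f z) (f (zc n c)) := mul_comm _ _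
    _ ≤ _ := h2

theorem hs_disj {β : ℝ → ℂ} {n : ℕ} {c c' : ℤ × ℤ} (h : c ≠ c') :
    Disjoint (hs β n c) (hs β n c') := by
  rw [Finset.disjoint_left]
  intro k h1 h2
  exact h (((mem_hs.1 h1).2.1).symm.trans (mem_hs.1 h2).2.1)

theorem sum_hs (β γ : ℝ → ℂ) (n : ℕ) (R : Finset (ℤ × ℤ)) :
    ∑ c ∈ R, ∑ k ∈ hs β n c, osc γ n k ≤ ∑ k ∈ Finset.range (4 ^ n), osc γ n k := by
  classical
  rw [← Finset.sum_biUnion fun c _ c' _ h => hs_disj h]
  refine Finset.sum_le_sum_of_subset_of_nonneg ?_ fun k _ _ => DETM.osc_nonneg _ _ _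
  intro k hk
  obtain ⟨c, -, hc⟩ := Finset.mem_biUnion.1 hk
  exact Finset.mem_range.2 (mem_hs.1 hc).1

theorem sum_osc (γ : ℝ → ℂ) (n : ℕ) :
    ∑ k ∈ Finset.range (4 ^ n), osc γ n k ≤ 2 ^ n * Real.sqrt (QS γ n) := by
  have h := DETM.sum_le_sqrt (Finset.range (4 ^ n)) (osc γ n)
  rw [Finset.card_range] at h
  have h4n : ((4 ^ n : ℕ) : ℝ) = 2 ^ n * 2 ^ n := by
    rw [← mul_pow]
    push_cast
    norm_num
  rw [h4n, Real.sqrt_mul_self (by positivity)] at h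
  exact h

theorem sc_add {ν i r : ℕ} (h : i < r) : sc ν i + (2 * ν + 1) ≤ sc ν r := by
  unfold sc
  have h1 : (i + 1 + 1) * (2 * ν + 1) ≤ (r + 1) * (2 * ν + 1) :=
    Nat.mul_le_mul_right _ (by omega)
  calc (i + 1) * (2 * ν + 1) + (2 * ν + 1) = (i + 1 + 1) * (2 * ν + 1) := by ring
    _ ≤ _ := h1

theorem mem_badJ {β : ℝ → ℂ} {ν r a j : ℕ} :
    j ∈ badJ β ν r a ↔ j < 4 ^ sc ν r ∧
      ∀ i < r, hubN β (sc ν i) (cp (sc ν i) (β (tm (sc ν r) j))) < a := by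
  unfold badJ
  rw [Finset.mem_filter, Finset.mem_range]

end DE2M

open DETM DE2M in
theorem specDE2 (hROU : SpecROU) (hENC : SpecENC) : SpecDE2 := by
  classical
  intro β f g h ν r a hβ ha hg hh
  have hγ : Continuous (⇑f ∘ β) := f.continuous.comp hβ
  have ha0 : (0 : ℝ) < a := by exact_mod_cast ha
  -- notation
  obtain ⟨m, hm⟩ : ∃ m, m = sc ν r := ⟨_, rfl⟩
  obtain ⟨D, hD⟩ : ∃ D, D = 2 * ν + 1 := ⟨_, rfl⟩
  rw [← hm, ← hD]
  have h2m : (0 : ℝ) < 2 ^ m := by positivity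
  have h2D : (0 : ℝ) < 2 ^ D := by positivity
  have h4m : (4 : ℝ) ^ m = 2 ^ m * 2 ^ m := by
    rw [← mul_pow]
    norm_num
  let Fat : Finset ℕ := (Finset.range (4 ^ m)).filter (fun j => ¬ 2 ^ m * osc β m j ≤ 2 ^ D)
  let Rich : ℕ → Finset (ℤ × ℤ) := fun i =>
    ((Finset.range (4 ^ m)).image (fun j => cp (sc ν i) (β (tm m j)))).filter
      (fun c => a ≤ hubN β (sc ν i) c)
  let S : Finset (Σ _ : ℕ, ℤ × ℤ) := (Finset.range r).sigma Rich
  let ds : (Σ _ : ℕ, ℤ × ℤ) → ℝ := fun p =>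
    (∑ k ∈ hs β (sc ν p.1) p.2, osc (⇑f ∘ β) (sc ν p.1) k) / a
  have hds : ∀ p, 0 ≤ ds p := fun p =>
    div_nonneg (Finset.sum_nonneg fun _ _ => osc_nonneg _ _ _) ha0.le
  let Bad : Finset ℕ := badJ β ν r a
  -- the majorant
  let G1 : ℝ → ENNReal := fun v => ∑ p ∈ S,
    (Metric.closedBall (h (zc (sc ν p.1) p.2)) (5 / 2 ^ sc ν p.1)).indicator
      (fun _ => ENNReal.ofReal (2 * ds p)) v
  let G2 : ℝ → ENNReal := fun v => ∑ j ∈ Bad,
    (Metric.closedBall (h (β (tm m j))) (osc β m j)).indicator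
      (fun _ => ENNReal.ofReal (2 * osc (⇑f ∘ β) m j)) v
  let G3 : ℝ → ENNReal := fun v => ∑ j ∈ Fat,
    (Metric.closedBall (h (β (tm m j))) (osc β m j)).indicator
      (fun _ => ENNReal.ofReal (2 * osc (⇑f ∘ β) m j)) v
  have hG1 : Measurable G1 := meas S (fun p => h (zc (sc ν p.1) p.2)) (fun p => 5 / 2 ^ sc ν p.1)
    ds
  have hG2 : Measurable G2 := meas _ (fun j => h (β (tm m j))) (fun j => osc β m j)
    (fun j => osc (⇑f ∘ β) m j)
  have hG3 : Measurable G3 := meas _ (fun j => h (β (tm m j))) (fun j => osc β m j)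
    (fun j => osc (⇑f ∘ β) m j)
  refine ⟨fun v => G1 v + G2 v + G3 v, (hG1.add hG2).add hG3, ?_, ?_⟩
  · intro v
    let E1 : Set ℝ := {y | ∃ p ∈ S, |v - h (zc (sc ν p.1) p.2)| ≤ 5 / 2 ^ sc ν p.1 ∧
      |y - g (f (zc (sc ν p.1) p.2))| ≤ ds p}
    let E2 : Set ℝ := {y | ∃ j ∈ Bad, |v - h (β (tm m j))| ≤ osc β m j ∧
      |y - g (f (β (tm m j)))| ≤ osc (⇑f ∘ β) m j}
    let E3 : Set ℝ := {y | ∃ j ∈ Fat, |v - h (β (tm m j))| ≤ osc β m j ∧
      |y - g (f (β (tm m j)))| ≤ osc (⇑f ∘ β) m j}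
    have hsub : (fun z => g (f z)) '' {z | z ∈ trace β ∧ h z = v} ⊆ (E1 ∪ E2) ∪ E3 := by
      rintro _ ⟨z, ⟨⟨t, ht, rfl⟩, hv⟩, rfl⟩
      obtain ⟨j, hj, htj⟩ := piece m ht
      have e1 : ‖β t - β (tm m j)‖ ≤ osc β m j := by
        rw [← dist_eq_norm]
        exact dist_le_osc hβ m j htj (left_mem m j)
      have e2 : dist (f (β t)) (f (β (tm m j))) ≤ osc (⇑f ∘ β) m j :=
        dist_le_osc hγ m j htj (left_mem m j)
      have e3 : |v - h (β (tm m j))| ≤ osc β m j := by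
        rw [← hv]
        exact (hh _ _).trans e1
      have e4 : |g (f (β t)) - g (f (β (tm m j)))| ≤ osc (⇑f ∘ β) m j := by
        refine (hg _ _).trans ?_
        rw [← dist_eq_norm]
        exact e2
      by_cases hF : 2 ^ m * osc β m j ≤ 2 ^ D
      · by_cases hB : j ∈ Bad
        · exact Or.inl (Or.inr ⟨j, hB, e3, e4⟩)
        · refine Or.inl (Or.inl ?_)
          have hB' : ¬ (j < 4 ^ sc ν r ∧
              ∀ i < r, hubN β (sc ν i) (cp (sc ν i) (β (tm (sc ν r) j))) < a) :=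
            fun hcon => hB (mem_badJ.2 hcon)
          rw [← hm] at hB'
          push Not at hB'
          obtain ⟨i, hi, hi2⟩ := hB' hj
          have hnD : sc ν i + D ≤ m := by
            rw [hm, hD]
            exact sc_add hi
          have h2n : (0 : ℝ) < 2 ^ sc ν i := by positivity
          have q1 : osc β m j ≤ 1 / 2 ^ sc ν i := by
            rw [le_div_iff₀ h2n]
            have q2 : (2 : ℝ) ^ sc ν i * 2 ^ D ≤ 2 ^ m := by
              rw [← pow_add]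
              exact pow_le_pow_right₀ (by norm_num) hnD
            have q3 : 0 ≤ osc β m j := osc_nonneg _ _ _
            have q4 : (2 ^ sc ν i * 2 ^ D) * osc β m j ≤ 2 ^ D :=
              (mul_le_mul_of_nonneg_right q2 q3).trans hF
            have q5 : (osc β m j * 2 ^ sc ν i) * 2 ^ D ≤ 1 * 2 ^ D := by
              calc (osc β m j * 2 ^ sc ν i) * 2 ^ D = (2 ^ sc ν i * 2 ^ D) * osc β m j := by ring
                _ ≤ 2 ^ D := q4
                _ = 1 * 2 ^ D := (one_mul _).symm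
            exact le_of_mul_le_mul_right q5 h2D
          have hIB : β t ∈ IB (sc ν i) (cp (sc ν i) (β (tm m j))) := piece_IB (e1.trans q1)
          refine ⟨⟨i, cp (sc ν i) (β (tm m j))⟩, ?_, ?_, ?_⟩
          · refine Finset.mem_sigma.2 ⟨Finset.mem_range.2 hi, Finset.mem_filter.2 ⟨?_, hi2⟩⟩
            exact Finset.mem_image_of_mem _ (Finset.mem_range.2 hj)
          · rw [← hv]
            exact (hh _ _).trans (IB_dist hIB)
          · refine (hg _ _).trans ?_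
            rw [← dist_eq_norm]
            exact rich hROU hENC f hβ ha hi2 hIB
      · exact Or.inr ⟨j, Finset.mem_filter.2 ⟨Finset.mem_range.2 hj, hF⟩, e3, e4⟩
    refine (measure_mono hsub).trans ((measure_union_le _ _).trans (add_le_add
      ((measure_union_le _ _).trans (add_le_add ?_ ?_)) ?_))
    · exact cover S (fun p => h (zc (sc ν p.1) p.2)) (fun p => 5 / 2 ^ sc ν p.1)
        (fun p => g (f (zc (sc ν p.1) p.2))) ds v E1 fun y hy => hy
    · exact cover _ (fun j => h (β (tm m j))) (fun j => osc β m j)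
        (fun j => g (f (β (tm m j)))) (fun j => osc (⇑f ∘ β) m j) v E2 fun y hy => hy
    · exact cover _ (fun j => h (β (tm m j))) (fun j => osc β m j)
        (fun j => g (f (β (tm m j)))) (fun j => osc (⇑f ∘ β) m j) v E3 fun y hy => hy
  · have J1 : ∫⁻ v, G1 v = ENNReal.ofReal (∑ p ∈ S, 4 * (5 / 2 ^ sc ν p.1) * ds p) :=
      DETM.integral S (fun p => h (zc (sc ν p.1) p.2)) (fun p => 5 / 2 ^ sc ν p.1) ds
        (fun _ _ => by positivity) (fun p _ => hds p)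
    have J2 : ∫⁻ v, G2 v = ENNReal.ofReal (∑ j ∈ Bad, 4 * osc β m j * osc (⇑f ∘ β) m j) :=
      DETM.integral _ (fun j => h (β (tm m j))) (fun j => osc β m j)
        (fun j => osc (⇑f ∘ β) m j) (fun j _ => osc_nonneg _ _ _) (fun j _ => osc_nonneg _ _ _)
    have J3 : ∫⁻ v, G3 v = ENNReal.ofReal (∑ j ∈ Fat, 4 * osc β m j * osc (⇑f ∘ β) m j) :=
      DETM.integral _ (fun j => h (β (tm m j))) (fun j => osc β m j)
        (fun j => osc (⇑f ∘ β) m j) (fun j _ => osc_nonneg _ _ _) (fun j _ => osc_nonneg _ _ _)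
    have P1 : 0 ≤ ∑ p ∈ S, 4 * (5 / 2 ^ sc ν p.1) * ds p :=
      Finset.sum_nonneg fun p _ => mul_nonneg (by positivity) (hds p)
    have P0 : ∀ T : Finset ℕ, 0 ≤ ∑ j ∈ T, 4 * osc β m j * osc (⇑f ∘ β) m j := fun T =>
      Finset.sum_nonneg fun j _ => mul_nonneg (mul_nonneg (by norm_num) (osc_nonneg _ _ _))
        (osc_nonneg _ _ _)
    have hadd : ∫⁻ v, (G1 v + G2 v + G3 v) = (∫⁻ v, G1 v) + (∫⁻ v, G2 v) + ∫⁻ v, G3 v := by
      rw [lintegral_add_left (show Measurable fun v => G1 v + G2 v from hG1.add hG2),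
        lintegral_add_left hG1]
    show ∫⁻ v, (G1 v + G2 v + G3 v) ≤ _
    rw [hadd, J1, J2, J3, ← ENNReal.ofReal_add P1 (P0 _),
      ← ENNReal.ofReal_add (add_nonneg P1 (P0 _)) (P0 _)]
    refine ENNReal.ofReal_le_ofReal ?_
    -- part 1
    have B1 : ∑ p ∈ S, 4 * (5 / 2 ^ sc ν p.1) * ds p ≤
        ∑ i ∈ Finset.range r, 20 / (a : ℝ) * Real.sqrt (QS (⇑f ∘ β) (sc ν i)) := by
      rw [Finset.sum_sigma]
      refine Finset.sum_le_sum fun i _ => ?_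
      have h2n : (0 : ℝ) < 2 ^ sc ν i := by positivity
      have h1 := (sum_hs β (⇑f ∘ β) (sc ν i) (Rich i)).trans (sum_osc (⇑f ∘ β) (sc ν i))
      calc ∑ c ∈ Rich i, 4 * (5 / 2 ^ sc ν i) *
            ((∑ k ∈ hs β (sc ν i) c, osc (⇑f ∘ β) (sc ν i) k) / a)
          = 20 / (a * 2 ^ sc ν i) * ∑ c ∈ Rich i, ∑ k ∈ hs β (sc ν i) c,
              osc (⇑f ∘ β) (sc ν i) k := by
            rw [Finset.mul_sum]
            refine Finset.sum_congr rfl fun c _ => ?_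
            field_simp
            ring
        _ ≤ 20 / (a * 2 ^ sc ν i) * (2 ^ sc ν i * Real.sqrt (QS (⇑f ∘ β) (sc ν i))) :=
            mul_le_mul_of_nonneg_left h1 (by positivity)
        _ = 20 / (a : ℝ) * Real.sqrt (QS (⇑f ∘ β) (sc ν i)) := by
            field_simp
    -- the two other parts
    have hsubsq : ∀ T : Finset ℕ, T ⊆ Finset.range (4 ^ m) →
        Real.sqrt (∑ j ∈ T, (osc (⇑f ∘ β) m j) ^ 2) ≤ Real.sqrt (QS (⇑f ∘ β) m) := fun T hT =>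
      Real.sqrt_le_sqrt (Finset.sum_le_sum_of_subset_of_nonneg hT fun _ _ _ => sq_nonneg _)
    have hFS : ∀ T : Finset ℕ, T ⊆ Finset.range (4 ^ m) →
        ∑ j ∈ T, (2 ^ m * osc β m j) ^ (2 * 2) ≤ FS β 2 m := fun T hT =>
      Finset.sum_le_sum_of_subset_of_nonneg hT fun j _ _ =>
        pow_nonneg (mul_nonneg h2m.le (osc_nonneg _ _ _)) _
    have hgen : ∀ T : Finset ℕ, T ⊆ Finset.range (4 ^ m) → ∀ X : ℝ,
        ∑ j ∈ T, (2 ^ m * osc β m j) ^ 2 ≤ 4 ^ m * X →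
        ∑ j ∈ T, 4 * osc β m j * osc (⇑f ∘ β) m j ≤
          4 * Real.sqrt (QS (⇑f ∘ β) m) * Real.sqrt X := by
      intro T hT X hX
      have h1 := Real.sum_mul_le_sqrt_mul_sqrt T (fun j => 2 ^ m * osc β m j)
        (fun j => osc (⇑f ∘ β) m j)
      have h2 : Real.sqrt (∑ j ∈ T, (2 ^ m * osc β m j) ^ 2) ≤ 2 ^ m * Real.sqrt X := by
        refine (Real.sqrt_le_sqrt hX).trans (le_of_eq ?_)
        rw [Real.sqrt_mul (by positivity), h4m, Real.sqrt_mul_self h2m.le]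
      have h3 : ∑ j ∈ T, 4 * osc β m j * osc (⇑f ∘ β) m j =
          4 / 2 ^ m * ∑ j ∈ T, (2 ^ m * osc β m j) * osc (⇑f ∘ β) m j := by
        rw [Finset.mul_sum]
        refine Finset.sum_congr rfl fun j _ => ?_
        field_simp
      rw [h3]
      calc 4 / 2 ^ m * ∑ j ∈ T, (2 ^ m * osc β m j) * osc (⇑f ∘ β) m j
          ≤ 4 / 2 ^ m * ((2 ^ m * Real.sqrt X) * Real.sqrt (QS (⇑f ∘ β) m)) :=
            mul_le_mul_of_nonneg_left (h1.trans (mul_le_mul h2 (hsubsq T hT) (Real.sqrt_nonneg _)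
              (by positivity))) (by positivity)
        _ = 4 * Real.sqrt (QS (⇑f ∘ β) m) * Real.sqrt X := by
            field_simp
    have hBad : Bad ⊆ Finset.range (4 ^ m) := by
      intro j hj
      have := (mem_badJ.1 hj).1
      rw [← hm] at this
      exact Finset.mem_range.2 this
    have hFat : Fat ⊆ Finset.range (4 ^ m) := Finset.filter_subset _ _
    have hFS0 : 0 ≤ FS β 2 m := Finset.sum_nonneg fun j _ =>
      pow_nonneg (mul_nonneg h2m.le (osc_nonneg _ _ _)) _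
    -- part 2
    have B2 : ∑ j ∈ Bad, 4 * osc β m j * osc (⇑f ∘ β) m j ≤
        4 * Real.sqrt (QS (⇑f ∘ β) m) * Real.sqrt (Real.sqrt (((badJ β ν r a).card : ℝ) / 4 ^ m *
              (FS β 2 m / 4 ^ m))) := by
      refine hgen Bad hBad _ ?_
      have h1 := sum_le_sqrt Bad (fun j => (2 ^ m * osc β m j) ^ 2)
      have h2 : ∑ j ∈ Bad, ((2 ^ m * osc β m j) ^ 2) ^ 2 ≤ FS β 2 m := by
        refine le_trans (le_of_eq ?_) (hFS Bad hBad)
        refine Finset.sum_congr rfl fun j _ => ?_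
        rw [← pow_mul]
      calc ∑ j ∈ Bad, (2 ^ m * osc β m j) ^ 2
          ≤ Real.sqrt (Bad.card : ℝ) * Real.sqrt (FS β 2 m) :=
            h1.trans (mul_le_mul_of_nonneg_left (Real.sqrt_le_sqrt h2) (Real.sqrt_nonneg _))
        _ = 4 ^ m * Real.sqrt (((badJ β ν r a).card : ℝ) / 4 ^ m * (FS β 2 m / 4 ^ m)) := by
            have e : ((badJ β ν r a).card : ℝ) / 4 ^ m * (FS β 2 m / 4 ^ m) =
                (((badJ β ν r a).card : ℝ) * FS β 2 m) / (4 ^ m * 4 ^ m) := by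
              field_simp
            rw [e, Real.sqrt_div' _ (by positivity), Real.sqrt_mul_self (by positivity),
              Real.sqrt_mul (Nat.cast_nonneg _)]
            field_simp
            exact mul_comm _ _
    -- part 3
    have B3 : ∑ j ∈ Fat, 4 * osc β m j * osc (⇑f ∘ β) m j ≤
        4 * Real.sqrt (QS (⇑f ∘ β) m) * (Real.sqrt (FS β 2 m / 4 ^ m) / 2 ^ D) := by
      have h1 : ∑ j ∈ Fat, (2 ^ m * osc β m j) ^ 2 ≤
          4 ^ m * (FS β 2 m / 4 ^ m / (2 ^ D * 2 ^ D)) := by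
        have e : (4 : ℝ) ^ m * (FS β 2 m / 4 ^ m / (2 ^ D * 2 ^ D)) =
            FS β 2 m / (2 ^ D * 2 ^ D) := by
          field_simp
        rw [e, le_div_iff₀ (by positivity), Finset.sum_mul]
        refine (Finset.sum_le_sum fun j hj => ?_).trans (hFS Fat hFat)
        have h3 : 2 ^ D < 2 ^ m * osc β m j := not_le.1 (Finset.mem_filter.1 hj).2
        have h4 : (2 : ℝ) ^ D * 2 ^ D ≤ (2 ^ m * osc β m j) ^ 2 := by
          rw [← pow_two]
          exact pow_le_pow_left₀ h2D.le h3.le 2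
        calc (2 ^ m * osc β m j) ^ 2 * (2 ^ D * 2 ^ D)
            ≤ (2 ^ m * osc β m j) ^ 2 * (2 ^ m * osc β m j) ^ 2 :=
              mul_le_mul_of_nonneg_left h4 (sq_nonneg _)
          _ = (2 ^ m * osc β m j) ^ (2 * 2) := by ring
      refine (hgen Fat hFat _ h1).trans (le_of_eq ?_)
      rw [Real.sqrt_div' (FS β 2 m / 4 ^ m) (by positivity), Real.sqrt_mul_self h2D.le]
    rw [mul_add, ← add_assoc]
    exact add_le_add (add_le_add B1 B2) B3

end Pool.Agent.Lib.MP_8b264c_pr.QV2
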