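import Pool.Agent.Lib.MP_8b264c_pr.QV2.Spec

/-!
# MP_8b264c_pr, QV2, ENC: the image of the inner block (helper94)
-/

set_option autoImplicit false

open MeasureTheory Set ProbabilityTheory Filter Topology

namespace Pool.Agent.Lib.MP_8b264c_pr.QV2

open Pool.Agent.BMR Pool.Agent.Lib.MP_8b264c_pr.QV

namespace ENCM

lemma bs_subset (n : ℕ) (c : ℤ × ℤ) : BS n c ⊆
    (Icc ((c.1 - 5 / 2) / 2 ^ n) ((c.1 + 7 / 2) / 2 ^ n) ×ℂ
      Icc ((c.2 - 5 / 2) / 2 ^ n) ((c.2 + 7 / 2) / 2 ^ n)) := by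
  rintro z ⟨h1, h2, h3, h4⟩
  have hp : (0 : ℝ) < 2 ^ n := by positivity
  simp only [rel] at h1 h2 h3 h4
  rw [Complex.mem_reProdIm]
  refine ⟨⟨?_, ?_⟩, ⟨?_, ?_⟩⟩
  · rw [div_le_iff₀ hp]; linarith
  · rw [le_div_iff₀ hp]; linarith
  · rw [div_le_iff₀ hp]; linarith
  · rw [le_div_iff₀ hp]; linarith

lemma mem_hull (f : ℂ ≃ₜ ℂ) (H : Set ℂ) (n : ℕ) (c : ℤ × ℤ)
    (hC : Circ H n c) (z : ℂ) (hz : z ∈ IB n c) : f z ∈ closure (convexHull ℝ (⇑f '' H)) := by
  by_contra hcon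
  obtain ⟨L, u, hL1, hL2⟩ := geometric_hahn_banach_closed_point
    (convex_convexHull ℝ (⇑f '' H)).closure isClosed_closure hcon
  obtain ⟨v, hv1, hv2⟩ : ∃ v : ℂ, ‖v‖ = 1 ∧ 0 ≤ L v := by
    rcases le_total 0 (L 1) with h | h
    · exact ⟨1, by simp, h⟩
    · exact ⟨-1, by simp, by rw [map_neg]; linarith⟩
  have hfα : ∀ t : ℝ, f (f.symm (f z + (t : ℂ) * v)) = f z + (t : ℂ) * v := fun t =>
    f.apply_symm_apply _
  have hcont : Continuous fun t : ℝ => f.symm (f z + (t : ℂ) * v) :=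
    f.symm.continuous.comp (continuous_const.add (Complex.continuous_ofReal.mul continuous_const))
  obtain ⟨t, ht0, ht⟩ := hC (fun t : ℝ => f.symm (f z + (t : ℂ) * v)) hcont (by simpa using hz) (by
    have hK : IsCompact (⇑f '' (Icc ((c.1 - 5 / 2 : ℝ) / 2 ^ n) ((c.1 + 7 / 2) / 2 ^ n) ×ℂ
      Icc ((c.2 - 5 / 2 : ℝ) / 2 ^ n) ((c.2 + 7 / 2) / 2 ^ n))) :=
      (isCompact_Icc.reProdIm isCompact_Icc).image f.continuous
    obtain ⟨R, hR⟩ := hK.isBounded.exists_norm_le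
    refine ⟨|R| + ‖f z‖ + 1, by positivity, fun hmem => ?_⟩
    have h1 := hR _ (mem_image_of_mem f (bs_subset n c hmem))
    rw [hfα] at h1
    have h2 : ‖((|R| + ‖f z‖ + 1 : ℝ) : ℂ) * v‖ = |R| + ‖f z‖ + 1 := by
      rw [norm_mul, hv1, mul_one, Complex.norm_real, Real.norm_of_nonneg (by positivity)]
    have h3 := norm_sub_norm_le (((|R| + ‖f z‖ + 1 : ℝ) : ℂ) * v) (-f z)
    rw [sub_neg_eq_add, norm_neg, h2, add_comm _ (f z)] at h3
    have h4 := le_abs_self R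
    linarith)
  have h5 := hL1 _ (subset_closure (subset_convexHull ℝ _ (mem_image_of_mem f ht)))
  rw [hfα, map_add] at h5
  have h6 : L ((t : ℂ) * v) = t * L v := by
    rw [← Complex.real_smul, map_smul, smul_eq_mul]
  rw [h6] at h5
  have := mul_nonneg ht0 hv2
  linarith

end ENCM

theorem specENC : SpecENC := by
  intro f H n c hH hC z hz w hw
  have hb : Bornology.IsBounded (closure (convexHull ℝ (⇑f '' H))) :=
    (isBounded_convexHull.2 (hH.image f.continuous).isBounded).closure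
  rw [← convexHull_diam, ← Metric.diam_closure]
  exact Metric.dist_le_diam_of_mem hb (ENCM.mem_hull f H n c hC z hz)
    (ENCM.mem_hull f H n c hC w hw)

end Pool.Agent.Lib.MP_8b264c_pr.QV2
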