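import Pool.Agent.Lib.MP_8b264c_pr.QV2.Spec

set_option autoImplicit false

open MeasureTheory Set ProbabilityTheory Filter Topology

namespace Pool.Agent.Lib.MP_8b264c_pr.QV2

open Pool.Agent.BMR Pool.Agent.Lib.MP_8b264c_pr.QV

theorem specFE1 : SpecFE1 := by
  classical
  intro ξ n c k₀ L a S hS h
  rcases S.eq_empty_or_nonempty with h0 | h0
  · rw [h0]; simp
  set k₁ := S.min' h0 with hk
  have hk1 : k₁ ∈ S := S.min'_mem h0
  have hmin : ∀ i ∈ S, k₁ ≤ i := fun i hi => S.min'_le i hi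
  have hk0 : k₀ ≤ k₁ := (Finset.mem_Ico.1 (hS hk1)).1
  have hsub : S ⊆ Finset.Ico k₁ (k₁ + 9) ∪
      (Finset.Ico (k₁ + 9) (k₁ + 9 + L)).filter (fun i => hub ξ n c i) := by
    intro i hi
    rw [Finset.mem_union, Finset.mem_filter, Finset.mem_Ico, Finset.mem_Ico]
    by_cases h9 : i < k₁ + 9
    · exact Or.inl ⟨hmin i hi, h9⟩
    · right
      have := (Finset.mem_Ico.1 (hS hi)).2
      exact ⟨⟨by omega, by omega⟩, (h i hi).1⟩
  have hc := (h k₁ hk1).2
  have hcard := (Finset.card_le_card hsub).trans (Finset.card_union_le _ _)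
  rw [Nat.card_Ico] at hcard
  have hcc : ((Finset.Ico (k₁ + 9) (k₁ + 9 + L)).filter (fun i => hub ξ n c i)).card < a := by
    unfold cnt at hc
    convert hc
  omega

end Pool.Agent.Lib.MP_8b264c_pr.QV2
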