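import Pool.Agent.Lib.MP_8b264c_pr.QV2.Spec

/-!
# FE2: one term of the renewal inequality
-/

set_option autoImplicit false

open MeasureTheory Set ProbabilityTheory Filter Topology

namespace Pool.Agent.Lib.MP_8b264c_pr.QV2

open Pool.Agent.BMR Pool.Agent.Lib.MP_8b264c_pr.QV

namespace FE2M

lemma prob_eq {Ω E : Type} [MeasurableSpace Ω] [MeasurableSpace E] (P : Measure Ω) {g : Ω → E}
    (hg : AEMeasurable g P) {S : Set E} (hS : MeasurableSet S) :
    P {ω | g ω ∈ S} = ∫⁻ ω, S.indicator (fun _ => (1 : ENNReal)) (g ω) ∂P := by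
  have h : NullMeasurableSet (g ⁻¹' S) P := hg.nullMeasurable hS
  have h1 : (fun ω => S.indicator (fun _ => (1 : ENNReal)) (g ω)) = (g ⁻¹' S).indicator 1 := by
    funext ω
    by_cases hω : g ω ∈ S
    · rw [Set.indicator_of_mem hω, Set.indicator_of_mem (show ω ∈ g ⁻¹' S from hω)]
      rfl
    · rw [Set.indicator_of_notMem hω, Set.indicator_of_notMem (show ω ∉ g ⁻¹' S from hω)]
  rw [h1, lintegral_indicator_one₀ h]
  rfl

lemma pst_eq {Ω : Type} (B : ℝ → Ω → ℂ) {s : ℝ} (ω : Ω) {q : ℚ} (h0 : 0 ≤ (q : ℝ))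
    (h1 : (q : ℝ) ≤ s) : pst B s ω q = B (q : ℝ) ω := by
  unfold pst
  rw [min_eq_left h1, max_eq_right h0]

lemma fut_eq {Ω : Type} (B : ℝ → Ω → ℂ) {s : ℝ} (ω : Ω) {q : ℚ} (h0 : s ≤ (q : ℝ))
    (h1 : (q : ℝ) ≤ 1) : fut B s ω q = B (q : ℝ) ω - B s ω := by
  unfold fut
  rw [min_eq_left h1, max_eq_right h0]

/-- the rational grid time -/
def qt (n k : ℕ) : ℚ := (k : ℚ) / 4 ^ n

lemma qt_cast (n k : ℕ) : ((qt n k : ℚ) : ℝ) = tm n k := by
  unfold qt tm
  push_cast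
  rfl

lemma tm_nonneg (n k : ℕ) : 0 ≤ tm n k := by
  unfold tm
  positivity

lemma tm_mono {n j k : ℕ} (h : j ≤ k) : tm n j ≤ tm n k := by
  unfold tm
  have : (j : ℝ) ≤ (k : ℝ) := by exact_mod_cast h
  gcongr

lemma tm_le_one {n k : ℕ} (h : k ≤ 4 ^ n) : tm n k ≤ 1 := by
  unfold tm
  rw [div_le_one (by positivity)]
  exact_mod_cast h

/-- bounds for the times in `cnt_congr` -/
lemma cast_bounds {n k L : ℕ} {q : ℚ} (h1 : (k : ℚ) / 4 ^ n ≤ q) (h2 : q ≤ ((k : ℚ) + L) / 4 ^ n) :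
    tm n k ≤ (q : ℝ) ∧ (q : ℝ) ≤ tm n (k + L) := by
  constructor
  · have h3 : (((k : ℚ) / 4 ^ n : ℚ) : ℝ) ≤ (q : ℝ) := by exact_mod_cast h1
    push_cast at h3
    exact h3
  · have h3 : (q : ℝ) ≤ ((((k : ℚ) + L) / 4 ^ n : ℚ) : ℝ) := by exact_mod_cast h2
    push_cast at h3
    unfold tm
    push_cast
    exact h3

section

variable {Ω : Type} [MeasurableSpace Ω] (P : Measure Ω) (B : ℝ → Ω → ℂ)

/-- the probability of few hubs after the time `s`, starting at `w` -/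
noncomputable def Psi (s : ℝ) (n : ℕ) (c : ℤ × ℤ) (k L a : ℕ) (w : ℂ) : ENNReal :=
  P {ω | cnt (fun q => w + fut B s ω q) n c k L < a}

variable {P B}

lemma add_meas : Measurable (fun p : ℂ × (ℚ → ℂ) => (fun q => p.1 + p.2 q : ℚ → ℂ)) :=
  measurable_pi_lambda _ fun q =>
    measurable_fst.add ((measurable_pi_apply q).comp measurable_snd)

/-- the indicator of few hubs for the path `w + η` -/
noncomputable def FI (n : ℕ) (c : ℤ × ℤ) (k L a : ℕ) (p : ℂ × (ℚ → ℂ)) : ENNReal :=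
  ({ξ : ℚ → ℂ | cnt ξ n c k L < a}).indicator (fun _ => (1 : ENNReal)) (fun q => p.1 + p.2 q)

lemma FI_meas (hMSR : SpecMSR) (n : ℕ) (c : ℤ × ℤ) (k L a : ℕ) :
    Measurable (FI n c k L a) :=
  Measurable.comp (measurable_const.indicator (hMSR.2.2 n c k L a)) add_meas

lemma Psi_meas [IsProbabilityMeasure P] (hMSR : SpecMSR) {s : ℝ}
    (hf : AEMeasurable (fut B s) P) (n : ℕ) (c : ℤ × ℤ) (k L a : ℕ) :
    Measurable (Psi P B s n c k L a) := by
  have hF := FI_meas hMSR n c k L a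
  have h1 : ∀ w, Psi P B s n c k L a w = ∫⁻ η, FI n c k L a (w, η) ∂(P.map (fut B s)) := by
    intro w
    have h2 : Measurable (fun η : ℚ → ℂ => FI n c k L a (w, η)) :=
      hF.comp measurable_prodMk_left
    rw [lintegral_map' h2.aemeasurable hf]
    have h3 : AEMeasurable (fun ω => (fun q => w + fut B s ω q : ℚ → ℂ)) P :=
      (add_meas.comp measurable_prodMk_left).comp_aemeasurable hf
    exact prob_eq P h3 (hMSR.2.2 n c k L a)
  rw [funext h1]
  exact hF.lintegral_prod_right'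

/-- the Markov property for events -/
lemma mkv_set [IsProbabilityMeasure P] (hMKV : SpecMKV) (hB : IsPBM P B) {s : ℝ}
    (hs : s ∈ Icc (0 : ℝ) 1) (S : Set ((ℚ → ℂ) × (ℚ → ℂ))) (hS : MeasurableSet S) :
    P {ω | (pst B s ω, fut B s ω) ∈ S} = ∫⁻ ω, P {ω' | (pst B s ω, fut B s ω') ∈ S} ∂P := by
  obtain ⟨⟨hp, hf⟩, hM⟩ := hMKV Ω P B hB s hs
  have h1 := hM (fun p η => S.indicator (fun _ => (1 : ENNReal)) (p, η))
    (measurable_const.indicator hS)
  rw [prob_eq P (g := fun ω => (pst B s ω, fut B s ω)) (hp.prodMk hf) hS, h1]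
  refine lintegral_congr fun ω => ?_
  exact (prob_eq P (g := fun ω' => (pst B s ω, fut B s ω')) (aemeasurable_const.prodMk hf)
    hS).symm

/-- Markov property at the beginning of the window -/
lemma start_eq [IsProbabilityMeasure P] (hMSR : SpecMSR) (hMKV : SpecMKV) (hSTA : SpecSTA)
    (hB : IsPBM P B) (n k L a k₀ : ℕ) (c : ℤ × ℤ) (x : ℂ) (s : ℚ) (h9 : k + 9 + L ≤ 4 ^ n)
    (hs0 : 0 ≤ s) (hk0 : k₀ + L ≤ 4 ^ n) (hs : (s : ℝ) ≤ tm n k₀) :
    P {ω | cnt (fun q : ℚ => x + (B (q : ℝ) ω - B (s : ℝ) ω)) n c k₀ L < a} =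
      ∫⁻ ω, Psi P B (tm n (k + 9)) n c (k + 9) L a (x + (B (tm n k₀) ω - B (s : ℝ) ω)) ∂P := by
  have hs0' : (0 : ℝ) ≤ (s : ℝ) := by exact_mod_cast hs0
  have hI : tm n k₀ ∈ Icc (0 : ℝ) 1 := ⟨tm_nonneg _ _, tm_le_one (by omega)⟩
  have e1 : ∀ ω, ∀ q : ℚ, (k₀ : ℚ) / 4 ^ n ≤ q → q ≤ ((k₀ : ℚ) + L) / 4 ^ n →
      x + (B (q : ℝ) ω - B (s : ℝ) ω) =
        (x + (pst B (tm n k₀) ω (qt n k₀) - pst B (tm n k₀) ω s)) + fut B (tm n k₀) ω q := by
    intro ω q h1 h2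
    obtain ⟨h3, h4⟩ := cast_bounds h1 h2
    rw [pst_eq B ω (by rw [qt_cast]; exact hI.1) (by rw [qt_cast]), pst_eq B ω hs0' hs,
      fut_eq B ω h3 (h4.trans (tm_le_one hk0)), qt_cast]
    ring
  let S : Set ((ℚ → ℂ) × (ℚ → ℂ)) :=
    {p | cnt (fun q => (x + (p.1 (qt n k₀) - p.1 s)) + p.2 q) n c k₀ L < a}
  have hS : MeasurableSet S := by
    have hm : Measurable (fun p : (ℚ → ℂ) × (ℚ → ℂ) =>
        (fun q => (x + (p.1 (qt n k₀) - p.1 s)) + p.2 q : ℚ → ℂ)) := by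
      refine measurable_pi_lambda _ fun q => ?_
      have m1 : Measurable fun p : (ℚ → ℂ) × (ℚ → ℂ) => p.1 (qt n k₀) :=
        (measurable_pi_apply _).comp measurable_fst
      have m2 : Measurable fun p : (ℚ → ℂ) × (ℚ → ℂ) => p.1 s :=
        (measurable_pi_apply _).comp measurable_fst
      have m3 : Measurable fun p : (ℚ → ℂ) × (ℚ → ℂ) => p.2 q :=
        (measurable_pi_apply _).comp measurable_snd
      exact ((m1.sub m2).const_add x).add m3
    exact hm (hMSR.2.2 n c k₀ L a)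
  have e2 : {ω | cnt (fun q : ℚ => x + (B (q : ℝ) ω - B (s : ℝ) ω)) n c k₀ L < a} =
      {ω | (pst B (tm n k₀) ω, fut B (tm n k₀) ω) ∈ S} := by
    ext ω
    show _ < a ↔ _ < a
    rw [cnt_congr (e1 ω)]
  rw [e2, mkv_set hMKV hB hI S hS]
  refine lintegral_congr fun ω => ?_
  have e3 : pst B (tm n k₀) ω (qt n k₀) = B (tm n k₀) ω := by
    rw [pst_eq B ω (by rw [qt_cast]; exact hI.1) (by rw [qt_cast]), qt_cast]
  have e4 : pst B (tm n k₀) ω s = B (s : ℝ) ω := pst_eq B ω hs0' hs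
  have e5 := hSTA Ω P B hB n c L a k₀ (k + 9) (x + (B (tm n k₀) ω - B (s : ℝ) ω)) hk0 h9
  have e6 : ∀ (k' : ℕ) (w : ℂ), k' + L ≤ 4 ^ n →
      {ω' | cnt (fun q => w + fut B (tm n k') ω' q) n c k' L < a} =
      {ω' | cnt (fun q : ℚ => w + (B (q : ℝ) ω' - B (tm n k') ω')) n c k' L < a} := by
    intro k' w hk'
    ext ω'
    show _ < a ↔ _ < a
    rw [cnt_congr (ξ := fun q => w + fut B (tm n k') ω' q)
      (ξ' := fun q : ℚ => w + (B (q : ℝ) ω' - B (tm n k') ω'))]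
    intro q h1 h2
    obtain ⟨h3, h4⟩ := cast_bounds h1 h2
    rw [fut_eq B ω' h3 (h4.trans (tm_le_one hk'))]
  show P {ω' | cnt (fun q => (x + (pst B (tm n k₀) ω (qt n k₀) - pst B (tm n k₀) ω s)) +
    fut B (tm n k₀) ω' q) n c k₀ L < a} = _
  rw [e3, e4, e6 k₀ _ hk0, e5]
  unfold Psi
  rw [e6 (k + 9) _ h9]

/-- the indicator of a hub for the path `w + η` -/
noncomputable def HI (n : ℕ) (c : ℤ × ℤ) (k : ℕ) (p : ℂ × (ℚ → ℂ)) : ENNReal :=
  ({ξ : ℚ → ℂ | hub ξ n c k}).indicator (fun _ => (1 : ENNReal)) (fun q => p.1 + p.2 q)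

lemma HI_meas (hMSR : SpecMSR) (n : ℕ) (c : ℤ × ℤ) (k : ℕ) : Measurable (HI n c k) :=
  Measurable.comp (measurable_const.indicator (hMSR.2.1 n c k)) add_meas

lemma HI_of {n : ℕ} {c : ℤ × ℤ} {k : ℕ} {w : ℂ} {η : ℚ → ℂ}
    (h : hub (fun q => w + η q) n c k) : HI n c k (w, η) = 1 :=
  Set.indicator_of_mem (s := {ξ : ℚ → ℂ | hub ξ n c k}) h _

lemma HI_of_not {n : ℕ} {c : ℤ × ℤ} {k : ℕ} {w : ℂ} {η : ℚ → ℂ}
    (h : ¬ hub (fun q => w + η q) n c k) : HI n c k (w, η) = 0 :=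
  Set.indicator_of_notMem (s := {ξ : ℚ → ℂ | hub ξ n c k}) h _

lemma HI_ne_top {n : ℕ} {c : ℤ × ℤ} {k : ℕ} (w : ℂ) (η : ℚ → ℂ) : HI n c k (w, η) ≠ ⊤ := by
  by_cases h : hub (fun q => w + η q) n c k
  · rw [HI_of h]
    exact ENNReal.one_ne_top
  · rw [HI_of_not h]
    exact ENNReal.zero_ne_top

lemma hub_pst (n k j : ℕ) (c : ℤ × ℤ) (y : ℂ) (ω : Ω) (hj : k + 1 ≤ j) :
    hub (fun q : ℚ => y + B (q : ℝ) ω) n c k ↔ hub (fun q => y + pst B (tm n j) ω q) n c k := by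
  refine hub_congr fun q h1 h2 => ?_
  have h2' : q ≤ ((k : ℚ) + (1 : ℕ)) / 4 ^ n := by push_cast; exact h2
  obtain ⟨h3, h4⟩ := cast_bounds (L := 1) h1 h2'
  rw [pst_eq B ω ((tm_nonneg n k).trans h3) (h4.trans (tm_mono hj))]

/-- Markov property for the event on the right -/
lemma right_eq [IsProbabilityMeasure P] (hMSR : SpecMSR) (hMKV : SpecMKV)
    (hB : IsPBM P B) (n k L a : ℕ) (c : ℤ × ℤ) (y : ℂ) (h9 : k + 9 + L ≤ 4 ^ n) :
    P {ω | hub (fun q : ℚ => y + B (q : ℝ) ω) n c k ∧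
      cnt (fun q : ℚ => y + B (q : ℝ) ω) n c (k + 9) L < a} =
    ∫⁻ ω, HI n c k (y, pst B (tm n (k + 1)) ω) *
      ∫⁻ ω', Psi P B (tm n (k + 9)) n c (k + 9) L a
        ((y + B (tm n (k + 1)) ω) + (B (tm n (k + 9)) ω' - B (tm n (k + 1)) ω')) ∂P ∂P := by
  have hI9 : tm n (k + 9) ∈ Icc (0 : ℝ) 1 := ⟨tm_nonneg _ _, tm_le_one (by omega)⟩
  have hI1 : tm n (k + 1) ∈ Icc (0 : ℝ) 1 := ⟨tm_nonneg _ _, tm_le_one (by omega)⟩
  have h19 : tm n (k + 1) ≤ tm n (k + 9) := tm_mono (by omega)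
  have p9 : ∀ ω, pst B (tm n (k + 9)) ω (qt n (k + 9)) = B (tm n (k + 9)) ω := by
    intro ω
    rw [pst_eq B ω (by rw [qt_cast]; exact hI9.1) (by rw [qt_cast]), qt_cast]
  have p1 : ∀ ω, pst B (tm n (k + 1)) ω (qt n (k + 1)) = B (tm n (k + 1)) ω := by
    intro ω
    rw [pst_eq B ω (by rw [qt_cast]; exact hI1.1) (by rw [qt_cast]), qt_cast]
  have f9 : ∀ ω, fut B (tm n (k + 1)) ω (qt n (k + 9)) =
      B (tm n (k + 9)) ω - B (tm n (k + 1)) ω := by
    intro ω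
    rw [fut_eq B ω (by rw [qt_cast]; exact h19) (by rw [qt_cast]; exact hI9.2), qt_cast]
  have hf9 := (hMKV Ω P B hB _ hI9).1.2
  have hPm := Psi_meas hMSR hf9 n c (k + 9) L a
  -- the first step
  let S : Set ((ℚ → ℂ) × (ℚ → ℂ)) :=
    {p | hub (fun q => y + p.1 q) n c k ∧
      cnt (fun q => (y + p.1 (qt n (k + 9))) + p.2 q) n c (k + 9) L < a}
  have hS : MeasurableSet S := by
    have m1 : Measurable fun p : (ℚ → ℂ) × (ℚ → ℂ) => (fun q => y + p.1 q : ℚ → ℂ) := by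
      refine measurable_pi_lambda _ fun q => ?_
      have m3 : Measurable fun p : (ℚ → ℂ) × (ℚ → ℂ) => p.1 q :=
        (measurable_pi_apply _).comp measurable_fst
      exact m3.const_add y
    have m2 : Measurable fun p : (ℚ → ℂ) × (ℚ → ℂ) =>
        (fun q => (y + p.1 (qt n (k + 9))) + p.2 q : ℚ → ℂ) := by
      refine measurable_pi_lambda _ fun q => ?_
      have m3 : Measurable fun p : (ℚ → ℂ) × (ℚ → ℂ) => p.1 (qt n (k + 9)) :=
        (measurable_pi_apply _).comp measurable_fst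
      have m4 : Measurable fun p : (ℚ → ℂ) × (ℚ → ℂ) => p.2 q :=
        (measurable_pi_apply _).comp measurable_snd
      exact (m3.const_add y).add m4
    exact (m1 (hMSR.2.1 n c k)).inter (m2 (hMSR.2.2 n c (k + 9) L a))
  have e1 : {ω | hub (fun q : ℚ => y + B (q : ℝ) ω) n c k ∧
      cnt (fun q : ℚ => y + B (q : ℝ) ω) n c (k + 9) L < a} =
      {ω | (pst B (tm n (k + 9)) ω, fut B (tm n (k + 9)) ω) ∈ S} := by
    ext ω
    have h1 := hub_pst (B := B) n k (k + 9) c y ω (by omega)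
    have h2 : cnt (fun q : ℚ => y + B (q : ℝ) ω) n c (k + 9) L =
        cnt (fun q => (y + pst B (tm n (k + 9)) ω (qt n (k + 9))) +
          fut B (tm n (k + 9)) ω q) n c (k + 9) L := by
      refine cnt_congr fun q h1 h2 => ?_
      obtain ⟨h3, h4⟩ := cast_bounds h1 h2
      rw [p9, fut_eq B ω h3 (h4.trans (tm_le_one h9))]
      ring
    show _ ∧ _ ↔ _ ∧ _
    rw [h1, h2]
  rw [e1, mkv_set hMKV hB hI9 S hS]
  have e2 : ∀ ω, P {ω' | (pst B (tm n (k + 9)) ω, fut B (tm n (k + 9)) ω') ∈ S} =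
      HI n c k (y, pst B (tm n (k + 1)) ω) *
        Psi P B (tm n (k + 9)) n c (k + 9) L a (y + pst B (tm n (k + 1)) ω (qt n (k + 1)) +
          fut B (tm n (k + 1)) ω (qt n (k + 9))) := by
    intro ω
    have h1 := hub_pst (B := B) n k (k + 9) c y ω (by omega)
    have h2 := hub_pst (B := B) n k (k + 1) c y ω le_rfl
    have h3 : y + pst B (tm n (k + 1)) ω (qt n (k + 1)) + fut B (tm n (k + 1)) ω (qt n (k + 9)) =
        y + pst B (tm n (k + 9)) ω (qt n (k + 9)) := by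
      rw [p1, f9, p9]
      ring
    rw [h3]
    by_cases h : hub (fun q => y + pst B (tm n (k + 1)) ω q) n c k
    · rw [HI_of h, one_mul]
      unfold Psi
      congr 1
      ext ω'
      exact ⟨fun h4 => h4.2, fun h4 => ⟨h1.1 (h2.2 h), h4⟩⟩
    · rw [HI_of_not h, zero_mul]
      have h4 : {ω' | (pst B (tm n (k + 9)) ω, fut B (tm n (k + 9)) ω') ∈ S} = ∅ := by
        ext ω'
        refine ⟨fun h5 => h (h2.1 (h1.2 h5.1)), fun h5 => h5.elim⟩
      rw [h4, measure_empty]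
  rw [lintegral_congr e2]
  -- the second step
  have hG : Measurable (Function.uncurry fun (p η : ℚ → ℂ) =>
      HI n c k (y, p) * Psi P B (tm n (k + 9)) n c (k + 9) L a
        (y + p (qt n (k + 1)) + η (qt n (k + 9)))) := by
    refine Measurable.mul ?_ ?_
    · exact (HI_meas hMSR n c k).comp (measurable_prodMk_left.comp measurable_fst)
    · refine hPm.comp ?_
      have m3 : Measurable fun p : (ℚ → ℂ) × (ℚ → ℂ) => p.1 (qt n (k + 1)) :=
        (measurable_pi_apply _).comp measurable_fst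
      have m4 : Measurable fun p : (ℚ → ℂ) × (ℚ → ℂ) => p.2 (qt n (k + 9)) :=
        (measurable_pi_apply _).comp measurable_snd
      exact (m3.const_add y).add m4
  rw [(hMKV Ω P B hB _ hI1).2 _ hG]
  refine lintegral_congr fun ω => ?_
  rw [lintegral_const_mul' _ _ (HI_ne_top _ _), p1]
  congr 1
  refine lintegral_congr fun ω' => ?_
  rw [f9]

end

lemma route_one (z : ℂ) : route z 1 = ⟨-3, -2⟩ := by
  unfold route
  have h1 : ∀ k ∈ Finset.range 8, ((cl (8 * 1 - (k : ℝ)) : ℝ) : ℂ) * (way z (k + 1) - way z k) =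
      way z (k + 1) - way z k := by
    intro k hk
    have h2 : (k : ℝ) ≤ 7 := by
      have := Finset.mem_range.1 hk
      have h3 : k ≤ 7 := by omega
      exact_mod_cast h3
    have h3 : cl (8 * 1 - (k : ℝ)) = 1 := by
      unfold cl
      rw [min_eq_left (by linarith)]
      norm_num
    rw [h3, Complex.ofReal_one, one_mul]
  rw [Finset.sum_congr rfl h1, Finset.sum_range_sub (way z) 8]
  show z + (⟨-3, -2⟩ - z) = _
  ring

end FE2M

open FE2M in
theorem specFE2 (hMSR : SpecMSR) (hMKV : SpecMKV) (hSTA : SpecSTA) (hCMP : SpecCMP)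
    (hHUB : SpecHUB) : SpecFE2 := by
  obtain ⟨C, hC, hCMP⟩ := hCMP
  obtain ⟨κ, hκ, hHUB⟩ := hHUB
  refine ⟨κ * (1 / C), by positivity, ?_⟩
  intro Ω _ P _ B hB n k L a k₀ c x y s hk h9 hy1 hy2 hx1 hx2 hs0 hk0 hsl hsu
  have p4 : (0 : ℝ) < 4 ^ n := by positivity
  have p2 : (0 : ℝ) < 2 ^ n := by positivity
  have hs0' : (0 : ℝ) ≤ (s : ℝ) := by exact_mod_cast hs0
  have hss : (s : ℝ) ≤ tm n k₀ := by
    have : (0 : ℝ) < 1 / 4 ^ n := by positivity
    linarith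
  rw [start_eq hMSR hMKV hSTA hB n k L a k₀ c x s h9 hs0 hk0 hss,
    right_eq hMSR hMKV hB n k L a c y h9]
  have hI9 : tm n (k + 9) ∈ Icc (0 : ℝ) 1 := ⟨tm_nonneg _ _, tm_le_one (by omega)⟩
  have hf9 := (hMKV Ω P B hB _ hI9).1.2
  have hPm := Psi_meas hMSR hf9 n c (k + 9) L a
  have hI1 : tm n (k + 1) ∈ Icc (0 : ℝ) 1 := ⟨tm_nonneg _ _, tm_le_one (by omega)⟩
  have hp1 := (hMKV Ω P B hB _ hI1).1.1
  set D := ∫⁻ ω, Psi P B (tm n (k + 9)) n c (k + 9) L a (x + (B (tm n k₀) ω - B (s : ℝ) ω)) ∂P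
    with hD
  have hsqrt : Real.sqrt (1 / 4 ^ n) = 1 / 2 ^ n := by
    have : (1 : ℝ) / 4 ^ n = (1 / 2 ^ n) ^ 2 := by
      rw [div_pow, one_pow, ← pow_mul, mul_comm n 2, pow_mul]
      norm_num
    rw [this, Real.sqrt_sq (by positivity)]
  have key : ∀ ω, HI n c k (y, pst B (tm n (k + 1)) ω) * (ENNReal.ofReal (1 / C) * D) ≤
      HI n c k (y, pst B (tm n (k + 1)) ω) *
      ∫⁻ ω', Psi P B (tm n (k + 9)) n c (k + 9) L a
        ((y + B (tm n (k + 1)) ω) + (B (tm n (k + 9)) ω' - B (tm n (k + 1)) ω')) ∂P := by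
    intro ω
    by_cases h : hub (fun q => y + pst B (tm n (k + 1)) ω q) n c k
    · refine mul_le_mul_right ?_ _
      have h1 := (hub_pst (B := B) n k (k + 1) c y ω le_rfl).2 h
      have h2 := h1.2 1 zero_le_one le_rfl
      have hc : ((((k : ℚ) + 1) / 4 ^ n : ℚ) : ℝ) = tm n (k + 1) := by
        unfold tm
        push_cast
        rfl
      simp only [Rat.cast_one, route_one] at h2
      rw [hc] at h2
      obtain ⟨h3, h4⟩ := h2
      have r1 : (rel n c (y + B (tm n (k + 1)) ω)).re =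
          2 ^ n * (y + B (tm n (k + 1)) ω).re - c.1 := rfl
      have r2 : (rel n c (y + B (tm n (k + 1)) ω)).im =
          2 ^ n * (y + B (tm n (k + 1)) ω).im - c.2 := rfl
      have r3 : (rel n c x).re = 2 ^ n * x.re - c.1 := rfl
      have r4 : (rel n c x).im = 2 ^ n * x.im - c.2 := rfl
      rw [r1] at h3
      rw [r2] at h4
      rw [r3] at hx1
      rw [r4] at hx2
      simp only at h3 h4
      rw [abs_le] at h3 h4 hx1 hx2
      have g1 : |(y + B (tm n (k + 1)) ω).re - x.re| ≤ 10 * Real.sqrt (1 / 4 ^ n) := by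
        rw [hsqrt, mul_one_div, le_div_iff₀ p2, ← abs_of_pos p2, ← abs_mul, abs_le]
        constructor <;> nlinarith [h3.1, h3.2, hx1.1, hx1.2]
      have g2 : |(y + B (tm n (k + 1)) ω).im - x.im| ≤ 10 * Real.sqrt (1 / 4 ^ n) := by
        rw [hsqrt, mul_one_div, le_div_iff₀ p2, ← abs_of_pos p2, ← abs_mul, abs_le]
        constructor <;> nlinarith [h4.1, h4.2, hx2.1, hx2.2]
      have h8 : tm n (k + 9) - tm n (k + 1) = 8 * (1 / 4 ^ n) := by
        unfold tm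
        push_cast
        field_simp
        ring
      have h5 := hCMP Ω P B hB (1 / 4 ^ n) s (tm n k₀) (tm n (k + 1)) (tm n (k + 9))
        (y + B (tm n (k + 1)) ω) x (by positivity) hs0' (tm_le_one (by omega)) hsl
        (by rw [mul_one_div]; exact hsu) hI1.1 hI9.2 h8 g1 g2 _ hPm
      calc ENNReal.ofReal (1 / C) * D
          ≤ ENNReal.ofReal (1 / C) * (ENNReal.ofReal C * ∫⁻ ω',
            Psi P B (tm n (k + 9)) n c (k + 9) L a
              ((y + B (tm n (k + 1)) ω) + (B (tm n (k + 9)) ω' - B (tm n (k + 1)) ω')) ∂P) := by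
            gcongr
        _ = _ := by
            rw [← mul_assoc, ← ENNReal.ofReal_mul (by positivity), one_div_mul_cancel hC.ne',
              ENNReal.ofReal_one, one_mul]
    · rw [HI_of_not h, zero_mul, zero_mul]
  refine le_trans ?_ (lintegral_mono key)
  have hm : AEMeasurable (fun ω => HI n c k (y, pst B (tm n (k + 1)) ω)) P :=
    ((HI_meas hMSR n c k).comp measurable_prodMk_left).comp_aemeasurable hp1
  rw [lintegral_mul_const'' _ hm, ← mul_assoc]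
  have hhub : ∫⁻ ω, HI n c k (y, pst B (tm n (k + 1)) ω) ∂P =
      P {ω | hub (fun q : ℚ => y + B (q : ℝ) ω) n c k} := by
    have h1 : AEMeasurable (fun ω => (fun q => y + pst B (tm n (k + 1)) ω q : ℚ → ℂ)) P :=
      (add_meas.comp measurable_prodMk_left).comp_aemeasurable hp1
    have h2 := prob_eq P h1 (hMSR.2.1 n c k)
    have h3 : {ω | hub (fun q : ℚ => y + B (q : ℝ) ω) n c k} =
        {ω | (fun q => y + pst B (tm n (k + 1)) ω q) ∈ {ξ : ℚ → ℂ | hub ξ n c k}} := by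
      ext ω
      exact hub_pst (B := B) n k (k + 1) c y ω le_rfl
    rw [h3]
    exact h2.symm
  rw [hhub, mul_div_right_comm, ENNReal.ofReal_mul (by positivity)]
  refine mul_le_mul_left (mul_le_mul_left ?_ _) _
  exact hHUB Ω P B hB n k c y hk (by omega) hy1 hy2


end Pool.Agent.Lib.MP_8b264c_pr.QV2
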