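import Pool.Agent.Lib.MP_8b264c_pr.QV2.Spec

/-!
# MP_8b264c_pr, module FEW: few hubs with small probability
-/

set_option autoImplicit false

open MeasureTheory Set ProbabilityTheory Filter Topology

namespace Pool.Agent.Lib.MP_8b264c_pr.QV2

open Pool.Agent.BMR Pool.Agent.Lib.MP_8b264c_pr.QV

namespace FEWM

theorem harmIco (ν : ℕ) : (ν : ℝ) ≤ ∑ k ∈ Finset.Ico (1 : ℕ) (1 + 4 ^ ν), (1 : ℝ) / (k : ℝ) := by
  have h1 := log_add_one_le_harmonic (4 ^ ν)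
  have h2 : ((harmonic (4 ^ ν) : ℚ) : ℝ) = ∑ k ∈ Finset.Ico (1 : ℕ) (1 + 4 ^ ν), (1 : ℝ) / (k : ℝ) := by
    rw [harmonic, Rat.cast_sum, Finset.sum_Ico_eq_sum_range]
    have : 1 + 4 ^ ν - 1 = 4 ^ ν := Nat.add_sub_cancel_left _ _
    rw [this]
    refine Finset.sum_congr rfl fun i _ => ?_
    push_cast
    rw [add_comm, one_div]
  rw [← h2]
  refine le_trans ?_ h1
  have h3 : Real.log ((4 : ℝ) ^ ν) ≤ Real.log (((4 ^ ν + 1 : ℕ)) : ℝ) := by
    apply Real.log_le_log (by positivity)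
    push_cast
    linarith
  refine le_trans ?_ h3
  rw [Real.log_pow]
  have h4 : (1 : ℝ) ≤ Real.log 4 := by
    rw [Real.le_log_iff_exp_le (by norm_num)]
    have := Real.exp_one_lt_d9
    linarith
  have h5 : (0 : ℝ) ≤ ν := Nat.cast_nonneg _
  nlinarith

theorem pow_bound (ν n k : ℕ) (hν : 1 ≤ ν) (hn : 2 * ν + 1 ≤ n) (hk : k ≤ 4 ^ ν) :
    k + 9 + 4 ^ ν ≤ 4 ^ n := by
  have h1 : 4 ^ (2 * ν + 1) ≤ 4 ^ n := Nat.pow_le_pow_right (by norm_num) hn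
  have h2 : 4 ^ (2 * ν + 1) = 4 * (4 ^ ν * 4 ^ ν) := by
    rw [pow_succ, two_mul, pow_add]
    ring
  have h3 : 4 ≤ 4 ^ ν := by
    calc 4 = 4 ^ 1 := by norm_num
      _ ≤ 4 ^ ν := Nat.pow_le_pow_right (by norm_num) hν
  have h4 : 4 * 4 ^ ν ≤ 4 ^ ν * 4 ^ ν := Nat.mul_le_mul_right _ h3
  omega

/-- the event -/
def ev {Ω : Type} (B : ℝ → Ω → ℂ) (n : ℕ) (c : ℤ × ℤ) (x : ℂ) (L a k : ℕ) : Set Ω :=
  {ω | hub (fun q : ℚ => x + B (q : ℝ) ω) n c k ∧ cnt (fun q : ℚ => x + B (q : ℝ) ω) n c (k + 9) L < a}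

theorem ev_null (hMSR : SpecMSR) (hMKV : SpecMKV) {Ω : Type} [MeasurableSpace Ω] (P : Measure Ω)
    [IsProbabilityMeasure P] (B : ℝ → Ω → ℂ) (hB : IsPBM P B) (n : ℕ) (c : ℤ × ℤ) (x : ℂ) (L a k : ℕ)
    (hk : k + 9 + L ≤ 4 ^ n) : NullMeasurableSet (ev B n c x L a k) P := by
  have hp : AEMeasurable (pst B 1) P := ((hMKV Ω P B hB 1 ⟨zero_le_one, le_rfl⟩).1).1
  let φ : (ℚ → ℂ) → (ℚ → ℂ) := fun ξ q => x + ξ q
  have hφ : Measurable φ := by
    apply measurable_pi_lambda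
    intro q
    exact (measurable_pi_apply (X := fun _ : ℚ => ℂ) q).const_add x
  have hc : AEMeasurable (fun ω => φ (pst B 1 ω)) P := hφ.comp_aemeasurable hp
  let S : Set (ℚ → ℂ) := {ξ | hub ξ n c k} ∩ {ξ | cnt ξ n c (k + 9) L < a}
  have hS : MeasurableSet S := (hMSR.2.1 n c k).inter (hMSR.2.2 n c (k + 9) L a)
  have hE : ev B n c x L a k = (fun ω => φ (pst B 1 ω)) ⁻¹' S := by
    ext ω
    have p4 : (0 : ℚ) < 4 ^ n := by positivity
    have hval : ∀ q : ℚ, 0 ≤ q → q ≤ 1 → x + B (q : ℝ) ω = φ (pst B 1 ω) q := by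
      intro q h0 h1
      have h0' : (0 : ℝ) ≤ (q : ℝ) := by exact_mod_cast h0
      have h1' : (q : ℝ) ≤ 1 := by exact_mod_cast h1
      show x + B (q : ℝ) ω = x + B (max 0 (min (q : ℝ) 1)) ω
      rw [min_eq_left h1', max_eq_right h0']
    have hkq : ((k : ℚ) + 9 + L) ≤ 4 ^ n := by exact_mod_cast hk
    have hk0 : (0 : ℚ) ≤ k := Nat.cast_nonneg _
    have hL0 : (0 : ℚ) ≤ L := Nat.cast_nonneg _
    have e1 : hub (fun q : ℚ => x + B (q : ℝ) ω) n c k ↔ hub (φ (pst B 1 ω)) n c k := by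
      apply hub_congr
      intro q ha hb
      refine hval q ((div_nonneg hk0 p4.le).trans ha) (hb.trans ?_)
      rw [div_le_one p4]
      linarith
    have e2 : cnt (fun q : ℚ => x + B (q : ℝ) ω) n c (k + 9) L = cnt (φ (pst B 1 ω)) n c (k + 9) L := by
      apply cnt_congr
      intro q ha hb
      refine hval q ((div_nonneg (Nat.cast_nonneg _) p4.le).trans ha) (hb.trans ?_)
      rw [div_le_one p4]
      push_cast
      linarith
    show (hub (fun q : ℚ => x + B (q : ℝ) ω) n c k ∧ cnt (fun q : ℚ => x + B (q : ℝ) ω) n c (k + 9) L < a) ↔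
      (hub (φ (pst B 1 ω)) n c k ∧ cnt (φ (pst B 1 ω)) n c (k + 9) L < a)
    rw [e1, e2]
  rw [hE]
  exact hc.nullMeasurable hS

theorem sum_le (hMSR : SpecMSR) (hMKV : SpecMKV) (hFE1 : SpecFE1) {Ω : Type} [MeasurableSpace Ω] (P : Measure Ω)
    [IsProbabilityMeasure P] (B : ℝ → Ω → ℂ) (hB : IsPBM P B) (n : ℕ) (c : ℤ × ℤ) (x : ℂ) (L a : ℕ)
    (hk : ∀ k ≤ L, k + 9 + L ≤ 4 ^ n) :
    ∑ k ∈ Finset.Ico 1 (1 + L), P (ev B n c x L a k) ≤ ((a + 9 : ℕ) : ENNReal) := by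
  classical
  have hn : ∀ k ∈ Finset.Ico 1 (1 + L), NullMeasurableSet (ev B n c x L a k) P := by
    intro k hkI
    rw [Finset.mem_Ico] at hkI
    exact ev_null hMSR hMKV P B hB n c x L a k (hk k (by omega))
  have h1 : ∑ k ∈ Finset.Ico 1 (1 + L), P (ev B n c x L a k) =
      ∫⁻ ω, ∑ k ∈ Finset.Ico 1 (1 + L), (ev B n c x L a k).indicator (1 : Ω → ENNReal) ω ∂P := by
    rw [lintegral_finsetSum']
    · refine Finset.sum_congr rfl fun k hkI => ?_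
      rw [lintegral_indicator_one₀ (hn k hkI)]
    · intro k hkI
      exact aemeasurable_one.indicator₀ (hn k hkI)
  rw [h1]
  have h2 : ∀ ω, ∑ k ∈ Finset.Ico 1 (1 + L), (ev B n c x L a k).indicator (1 : Ω → ENNReal) ω ≤
      ((a + 9 : ℕ) : ENNReal) := by
    intro ω
    have h3 := hFE1 (fun q : ℚ => x + B (q : ℝ) ω) n c 1 L a
      ((Finset.Ico 1 (1 + L)).filter (fun k => ω ∈ ev B n c x L a k)) (Finset.filter_subset _ _) (by
        intro i hi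
        exact (Finset.mem_filter.1 hi).2)
    have h4 : ∑ k ∈ Finset.Ico 1 (1 + L), (ev B n c x L a k).indicator (1 : Ω → ENNReal) ω =
        (((Finset.Ico 1 (1 + L)).filter (fun k => ω ∈ ev B n c x L a k)).card : ENNReal) := by
      rw [Finset.card_filter]
      push_cast
      refine Finset.sum_congr rfl fun k _ => ?_
      rw [indicator_apply]
      rfl
    rw [h4]
    exact_mod_cast h3
  calc ∫⁻ ω, ∑ k ∈ Finset.Ico 1 (1 + L), (ev B n c x L a k).indicator (1 : Ω → ENNReal) ω ∂P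
      ≤ ∫⁻ _ω, ((a + 9 : ℕ) : ENNReal) ∂P := lintegral_mono h2
    _ = ((a + 9 : ℕ) : ENNReal) := by
        rw [lintegral_const, measure_univ, mul_one]

end FEWM

open FEWM in
theorem specFEW (hMSR : SpecMSR) (hMKV : SpecMKV) (hFE1 : SpecFE1) (hFE2 : SpecFE2) : SpecFEW := by
  obtain ⟨κ, hκ, hF⟩ := hFE2
  refine ⟨10 / κ, by positivity, ?_⟩
  intro Ω _ P _ B hB n ν a k₀ c x s hν ha hn hx1 hx2 hs hk₀ hd1 hd2
  set p := P {ω | cnt (fun q : ℚ => x + (B (q : ℝ) ω - B (s : ℝ) ω)) n c k₀ (4 ^ ν) < a} with hp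
  have hsum : ∑ k ∈ Finset.Ico (1 : ℕ) (1 + 4 ^ ν), ENNReal.ofReal (κ / (k : ℝ)) * p ≤ ((a + 9 : ℕ) : ENNReal) := by
    refine le_trans (Finset.sum_le_sum fun k hk => ?_)
      (sum_le hMSR hMKV hFE1 P B hB n c x (4 ^ ν) a (fun k hk => pow_bound ν n k hν hn hk))
    rw [Finset.mem_Ico] at hk
    exact hF Ω P B hB n k (4 ^ ν) a k₀ c x x s hk.1 (pow_bound ν n k hν hn (by omega)) hx1 hx2 hx1 hx2 hs hk₀ hd1 hd2
  rw [← Finset.sum_mul, ← ENNReal.ofReal_sum_of_nonneg (fun k _ => by positivity)] at hsum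
  have hlow : κ * ν ≤ ∑ k ∈ Finset.Ico (1 : ℕ) (1 + 4 ^ ν), κ / (k : ℝ) := by
    have h1 := FEWM.harmIco ν
    have h2 : ∑ k ∈ Finset.Ico (1 : ℕ) (1 + 4 ^ ν), κ / (k : ℝ) = κ * ∑ k ∈ Finset.Ico (1 : ℕ) (1 + 4 ^ ν), (1 : ℝ) / (k : ℝ) := by
      rw [Finset.mul_sum]
      refine Finset.sum_congr rfl fun k _ => ?_
      rw [mul_one_div]
    rw [h2]
    exact mul_le_mul_of_nonneg_left h1 hκ.le
  have hνp : (0 : ℝ) < ν := by exact_mod_cast hν
  have h3 : ENNReal.ofReal (κ * ν) * p ≤ ENNReal.ofReal (10 * a) := by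
    refine le_trans (mul_le_mul_left (ENNReal.ofReal_le_ofReal hlow) p) (hsum.trans ?_)
    rw [show ((a + 9 : ℕ) : ENNReal) = ENNReal.ofReal ((a + 9 : ℕ) : ℝ) from (ENNReal.ofReal_natCast _).symm]
    apply ENNReal.ofReal_le_ofReal
    have : (1 : ℝ) ≤ a := by exact_mod_cast ha
    push_cast
    linarith
  have hpos : 0 < κ * ν := by positivity
  have h4 : p ≤ ENNReal.ofReal (10 * a) / ENNReal.ofReal (κ * ν) := by
    rw [ENNReal.le_div_iff_mul_le (Or.inl (by positivity)) (Or.inl ENNReal.ofReal_ne_top), mul_comm]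
    exact h3
  rw [← ENNReal.ofReal_div_of_pos hpos] at h4
  refine h4.trans (le_of_eq ?_)
  congr 1
  field_simp

end Pool.Agent.Lib.MP_8b264c_pr.QV2
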