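import Pool.Agent.Lib.MP_8b264c_pr.QV2.Spec

/-! # Module HUB: the probability that `k` is a hub -/

set_option autoImplicit false

open MeasureTheory Set ProbabilityTheory Filter Topology

namespace Pool.Agent.Lib.MP_8b264c_pr.QV2

open Pool.Agent.BMR Pool.Agent.Lib.MP_8b264c_pr.QV

namespace HUBM

lemma rel_re (n : ℕ) (c : ℤ × ℤ) (z : ℂ) : (rel n c z).re = 2 ^ n * z.re - c.1 := rfl

lemma rel_im (n : ℕ) (c : ℤ × ℤ) (z : ℂ) : (rel n c z).im = 2 ^ n * z.im - c.2 := rfl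

lemma cp_of_near {n : ℕ} {c : ℤ × ℤ} {z : ℂ} (h1 : |(rel n c z).re - 1 / 2| ≤ 1 / 4)
    (h2 : |(rel n c z).im - 1 / 2| ≤ 1 / 4) : cp n z = c := by
  rw [abs_le] at h1 h2
  rw [rel_re] at h1
  rw [rel_im] at h2
  have a1 : ⌊2 ^ n * z.re⌋ = c.1 := by
    rw [Int.floor_eq_iff]; constructor <;> linarith [h1.1, h1.2]
  have a2 : ⌊2 ^ n * z.im⌋ = c.2 := by
    rw [Int.floor_eq_iff]; constructor <;> linarith [h2.1, h2.2]
  exact Prod.ext a1 a2

lemma rel_of_cp {n : ℕ} {c : ℤ × ℤ} {z : ℂ} (h : cp n z = c) :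
    (0 ≤ (rel n c z).re ∧ (rel n c z).re ≤ 1) ∧ (0 ≤ (rel n c z).im ∧ (rel n c z).im ≤ 1) := by
  have a1 : ⌊2 ^ n * z.re⌋ = c.1 := congrArg Prod.fst h
  have a2 : ⌊2 ^ n * z.im⌋ = c.2 := congrArg Prod.snd h
  rw [Int.floor_eq_iff] at a1 a2
  rw [rel_re, rel_im]
  refine ⟨⟨?_, ?_⟩, ?_, ?_⟩ <;> linarith [a1.1, a1.2, a2.1, a2.2]

lemma rel_add (n : ℕ) (c : ℤ × ℤ) (w v : ℂ) :
    rel n c (w + v) = rel n c w + ((2 ^ n : ℝ) : ℂ) * v := by
  apply Complex.ext
  · rw [Complex.add_re, Complex.re_ofReal_mul, rel_re, rel_re, Complex.add_re]; ring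
  · rw [Complex.add_im, Complex.im_ofReal_mul, rel_im, rel_im, Complex.add_im]; ring

end HUBM

open HUBM in
theorem specHUB (hMSR : SpecMSR) (hMKV : SpecMKV) (hLOW : SpecLOW) (hTUB : SpecTUB) :
    SpecHUB := by
  obtain ⟨c₀, hc₀, hlow⟩ := hLOW 4 (by norm_num)
  obtain ⟨ρ, hρ, htub⟩ := hTUB
  refine ⟨c₀ / 16 * ρ, by positivity, ?_⟩
  intro Ω _ P _ B hB n k c y hk hk4 hy1 hy2
  have p4 : (0 : ℝ) < 4 ^ n := by positivity
  have p2 : (0 : ℝ) < 2 ^ n := by positivity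
  have e42 : (4 : ℝ) ^ n = 2 ^ n * 2 ^ n := by rw [← mul_pow]; norm_num
  have k1 : (1 : ℝ) ≤ k := by exact_mod_cast hk
  have k4 : (k : ℝ) + 1 ≤ 4 ^ n := by exact_mod_cast hk4
  have kpos : (0 : ℝ) < k := by linarith
  have s0 : 0 < tm n k := by unfold tm; positivity
  have et : tm n (k + 1) = tm n k + 1 / 4 ^ n := by
    unfold tm; push_cast; ring
  have st : tm n k < tm n (k + 1) := by
    rw [et]; linarith [show (0 : ℝ) < 1 / 4 ^ n by positivity]
  have t1 : tm n (k + 1) ≤ 1 := by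
    unfold tm; rw [div_le_one p4]; push_cast; exact k4
  have dts : tm n (k + 1) - tm n k = 1 / 4 ^ n := by rw [et]; ring
  have sqrt4 : Real.sqrt (1 / 4 ^ n) = 1 / 2 ^ n := by
    rw [Real.sqrt_eq_iff_mul_self_eq (by positivity) (by positivity), e42]
    field_simp
  obtain ⟨⟨hpst, hfut⟩, hM⟩ := hMKV Ω P B hB (tm n k) ⟨s0.le, (st.trans_le t1).le⟩
  obtain ⟨sq, hsq⟩ : ∃ sq : ℚ, sq = (k : ℚ) / 4 ^ n := ⟨_, rfl⟩
  have csq : ((sq : ℚ) : ℝ) = tm n k := by rw [hsq]; unfold tm; push_cast; rfl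
  let H : Set (ℚ → ℂ) := {ξ | hub ξ n c k}
  have hH : MeasurableSet H := hMSR.2.1 n c k
  let Gl : (ℚ → ℂ) × (ℚ → ℂ) → (ℚ → ℂ) := fun p q => y + (p.1 sq + p.2 q)
  have hGl : Measurable Gl := by
    refine measurable_pi_lambda _ fun q => ?_
    exact measurable_const.add (((measurable_pi_apply sq).comp measurable_fst).add
      ((measurable_pi_apply q).comp measurable_snd))
  have hA : MeasurableSet (Gl ⁻¹' H) := hGl hH
  let F : (ℚ → ℂ) → (ℚ → ℂ) → ENNReal := fun ξ η => (Gl ⁻¹' H).indicator 1 (ξ, η)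
  have hF : Measurable (Function.uncurry F) := measurable_one.indicator hA
  have key := hM F hF
  have vp : ∀ ω, pst B (tm n k) ω sq = B (tm n k) ω := by
    intro ω; unfold pst; rw [csq, min_self, max_eq_right s0.le]
  have vf : ∀ ω (q : ℚ), tm n k ≤ (q : ℝ) → (q : ℝ) ≤ tm n (k + 1) →
      fut B (tm n k) ω q = B (q : ℝ) ω - B (tm n k) ω := by
    intro ω q h1 h2; unfold fut; rw [min_eq_left (h2.trans t1), max_eq_right h1]
  -- left side
  have hL : ∫⁻ ω, F (pst B (tm n k) ω) (fut B (tm n k) ω) ∂P ≤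
      P {ω | hub (fun q : ℚ => y + B (q : ℝ) ω) n c k} := by
    have e : ∀ ω, F (pst B (tm n k) ω) (fut B (tm n k) ω) ≤
        ({ω | hub (fun q : ℚ => y + B (q : ℝ) ω) n c k} : Set Ω).indicator 1 ω := by
      intro ω
      by_cases h : (pst B (tm n k) ω, fut B (tm n k) ω) ∈ Gl ⁻¹' H
      · have h' : hub (fun q : ℚ => y + B (q : ℝ) ω) n c k := by
          have h1 : hub (Gl (pst B (tm n k) ω, fut B (tm n k) ω)) n c k := h
          refine (hub_congr fun q a b => ?_).mp h1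
          have a' : tm n k ≤ (q : ℝ) := by
            have : (((k : ℚ) / 4 ^ n : ℚ) : ℝ) ≤ (q : ℝ) := by exact_mod_cast a
            unfold tm; push_cast at this; exact this
          have b' : (q : ℝ) ≤ tm n (k + 1) := by
            have : (q : ℝ) ≤ ((((k : ℚ) + 1) / 4 ^ n : ℚ) : ℝ) := by exact_mod_cast b
            unfold tm; push_cast at this; push_cast; exact this
          show y + (pst B (tm n k) ω sq + fut B (tm n k) ω q) = y + B (q : ℝ) ω
          rw [vp, vf ω q a' b']; ring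
        have m : ω ∈ ({ω | hub (fun q : ℚ => y + B (q : ℝ) ω) n c k} : Set Ω) := h'
        rw [Set.indicator_of_mem m]
        exact (Set.indicator_of_mem h _).le
      · have : F (pst B (tm n k) ω) (fut B (tm n k) ω) = 0 := Set.indicator_of_notMem h _
        rw [this]; exact zero_le
    exact (lintegral_mono e).trans (lintegral_indicator_one_le _)
  -- the event E
  let E : Set Ω := {ω | cp n (y + B (tm n k) ω) = c}
  have hBs : AEMeasurable (B (tm n k)) P := by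
    have h1 : AEMeasurable (fun ω => pst B (tm n k) ω sq) P :=
      (measurable_pi_apply sq).comp_aemeasurable hpst
    have h2 : (fun ω => pst B (tm n k) ω sq) = B (tm n k) := funext vp
    rwa [h2] at h1
  have hE : NullMeasurableSet E P := by
    have h1 : AEMeasurable (fun ω => cp n (y + B (tm n k) ω)) P :=
      (hMSR.1 n).comp_aemeasurable (aemeasurable_const.add hBs)
    exact h1.nullMeasurable (measurableSet_singleton c)
  -- inner bound
  have hIn : ∀ ω, E.indicator (fun _ => ENNReal.ofReal ρ) ω ≤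
      ∫⁻ ω', F (pst B (tm n k) ω) (fut B (tm n k) ω') ∂P := by
    intro ω
    by_cases hω : ω ∈ E
    swap
    · rw [Set.indicator_of_notMem hω]; exact zero_le
    rw [Set.indicator_of_mem hω]
    have hc : cp n (y + B (tm n k) ω) = c := hω
    have hrel := rel_of_cp hc
    have h1 := htub Ω P (seg B (tm n k) (tm n (k + 1))) (hB.isPBM_seg s0.le st t1)
      (rel n c (y + B (tm n k) ω)) hrel.1.1 hrel.1.2 hrel.2.1 hrel.2.2
    let S' : Set Ω := fut B (tm n k) ⁻¹' (Prod.mk (pst B (tm n k) ω) ⁻¹' (Gl ⁻¹' H))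
    have hS' : NullMeasurableSet S' P :=
      hfut.nullMeasurable (measurable_prodMk_left hA)
    have e1 : ∫⁻ ω', F (pst B (tm n k) ω) (fut B (tm n k) ω') ∂P = P S' := by
      rw [← lintegral_indicator_one₀ hS']
      rfl
    rw [e1]
    refine h1.trans (measure_mono fun ω' hω' => ?_)
    have hω'' : ∀ q : ℚ, 0 ≤ q → q ≤ 1 →
        Near (rel n c (y + B (tm n k) ω) + seg B (tm n k) (tm n (k + 1)) (q : ℝ) ω')
          (route (rel n c (y + B (tm n k) ω)) (q : ℝ)) (1 / 2) := hω'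
    show hub (Gl (pst B (tm n k) ω, fut B (tm n k) ω')) n c k
    have g0 : Gl (pst B (tm n k) ω, fut B (tm n k) ω') ((k : ℚ) / 4 ^ n) =
        y + B (tm n k) ω := by
      show y + (pst B (tm n k) ω sq + fut B (tm n k) ω' ((k : ℚ) / 4 ^ n)) = _
      rw [← hsq, vp, vf ω' sq csq.ge (csq.le.trans st.le), csq]
      ring
    refine ⟨by rw [g0]; exact hc, fun q q0 q1 => ?_⟩
    rw [g0]
    have r0 : (0 : ℝ) ≤ (q : ℝ) := by exact_mod_cast q0
    have r1 : (q : ℝ) ≤ 1 := by exact_mod_cast q1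
    have cast1 : ((((k : ℚ) + q) / 4 ^ n : ℚ) : ℝ) = tm n k + (q : ℝ) * (1 / 4 ^ n) := by
      unfold tm; push_cast; ring
    have g1 : Gl (pst B (tm n k) ω, fut B (tm n k) ω') (((k : ℚ) + q) / 4 ^ n) =
        (y + B (tm n k) ω) + (B (tm n k + (q : ℝ) * (1 / 4 ^ n)) ω' - B (tm n k) ω') := by
      show y + (pst B (tm n k) ω sq + fut B (tm n k) ω' (((k : ℚ) + q) / 4 ^ n)) = _
      rw [vp, vf ω' _ (by rw [cast1]; nlinarith [show (0 : ℝ) < 1 / 4 ^ n by positivity])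
        (by rw [cast1, et]; nlinarith [show (0 : ℝ) < 1 / 4 ^ n by positivity]), cast1]
      ring
    have g2 : rel n c (Gl (pst B (tm n k) ω, fut B (tm n k) ω') (((k : ℚ) + q) / 4 ^ n)) =
        rel n c (y + B (tm n k) ω) + seg B (tm n k) (tm n (k + 1)) (q : ℝ) ω' := by
      rw [g1, rel_add]
      unfold seg
      rw [dts, sqrt4, show ((1 : ℝ) / 2 ^ n)⁻¹ = 2 ^ n by rw [one_div, inv_inv]]
    rw [g2]
    exact hω'' q q0 q1
  -- the measure of E
  let zc : ℂ := ⟨(1 / 2 + c.1) / 2 ^ n - y.re, (1 / 2 + c.2) / 2 ^ n - y.im⟩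
  have hsq1 : 1 / 2 ^ n ≤ Real.sqrt (tm n k - 0) := by
    apply Real.le_sqrt_of_sq_le
    rw [sub_zero]
    unfold tm
    rw [e42, div_pow, one_pow, pow_two]
    exact div_le_div_of_nonneg_right k1 (by positivity)
  have hzr : |zc.re| ≤ 4 * Real.sqrt (tm n k - 0) := by
    have h1 : zc.re = (1 / 2 - (rel n c y).re) * (1 / 2 ^ n) := by
      rw [rel_re]; show (1 / 2 + (c.1 : ℝ)) / 2 ^ n - y.re = _; field_simp; ring
    rw [h1, abs_mul, abs_of_pos (show (0 : ℝ) < 1 / 2 ^ n by positivity)]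
    have h2 : |1 / 2 - (rel n c y).re| ≤ 4 := by
      rw [abs_le] at hy1 ⊢; constructor <;> linarith [hy1.1, hy1.2]
    exact mul_le_mul h2 hsq1 (by positivity) (by norm_num)
  have hzi : |zc.im| ≤ 4 * Real.sqrt (tm n k - 0) := by
    have h1 : zc.im = (1 / 2 - (rel n c y).im) * (1 / 2 ^ n) := by
      rw [rel_im]; show (1 / 2 + (c.2 : ℝ)) / 2 ^ n - y.im = _; field_simp; ring
    rw [h1, abs_mul, abs_of_pos (show (0 : ℝ) < 1 / 2 ^ n by positivity)]
    have h2 : |1 / 2 - (rel n c y).im| ≤ 4 := by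
      rw [abs_le] at hy2 ⊢; constructor <;> linarith [hy2.1, hy2.2]
    exact mul_le_mul h2 hsq1 (by positivity) (by norm_num)
  have hρ2 : (1 / 2 ^ n / 4 : ℝ) ^ 2 ≤ tm n k - 0 := by
    rw [sub_zero]; unfold tm; rw [e42]
    rw [show (1 / 2 ^ n / 4 : ℝ) ^ 2 = (1 / 16) / (2 ^ n * 2 ^ n) by field_simp; norm_num]
    exact div_le_div_of_nonneg_right (by linarith) (by positivity)
  have hPE : ENNReal.ofReal (c₀ / 16 / k) ≤ P E := by
    have h1 := hlow Ω P B hB 0 (tm n k) (1 / 2 ^ n / 4) zc le_rfl s0 (st.trans_le t1).le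
      (by positivity) hρ2 hzr hzi
    have e1 : c₀ * (1 / 2 ^ n / 4) ^ 2 / (tm n k - 0) = c₀ / 16 / k := by
      rw [sub_zero]; unfold tm; rw [e42]; field_simp; norm_num
    rw [e1] at h1
    refine h1.trans (measure_mono fun ω hω => ?_)
    obtain ⟨a1, a2⟩ : Near (B (tm n k) ω - B 0 ω) zc (1 / 2 ^ n / 4) := hω
    rw [hB.zero ω, sub_zero] at a1 a2
    show cp n (y + B (tm n k) ω) = c
    apply cp_of_near
    · have e2 : (rel n c (y + B (tm n k) ω)).re - 1 / 2 =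
          2 ^ n * ((B (tm n k) ω).re - zc.re) := by
        rw [rel_re, Complex.add_re]
        show _ = 2 ^ n * ((B (tm n k) ω).re - ((1 / 2 + (c.1 : ℝ)) / 2 ^ n - y.re))
        field_simp; ring
      rw [e2, abs_mul, abs_of_pos p2]
      calc 2 ^ n * |(B (tm n k) ω).re - zc.re| ≤ 2 ^ n * (1 / 2 ^ n / 4) :=
            mul_le_mul_of_nonneg_left a1 p2.le
        _ = 1 / 4 := by field_simp
    · have e2 : (rel n c (y + B (tm n k) ω)).im - 1 / 2 =
          2 ^ n * ((B (tm n k) ω).im - zc.im) := by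
        rw [rel_im, Complex.add_im]
        show _ = 2 ^ n * ((B (tm n k) ω).im - ((1 / 2 + (c.2 : ℝ)) / 2 ^ n - y.im))
        field_simp; ring
      rw [e2, abs_mul, abs_of_pos p2]
      calc 2 ^ n * |(B (tm n k) ω).im - zc.im| ≤ 2 ^ n * (1 / 2 ^ n / 4) :=
            mul_le_mul_of_nonneg_left a2 p2.le
        _ = 1 / 4 := by field_simp
  calc ENNReal.ofReal (c₀ / 16 * ρ / k) = ENNReal.ofReal ρ * ENNReal.ofReal (c₀ / 16 / k) := by
        rw [← ENNReal.ofReal_mul hρ.le]; congr 1; ring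
    _ ≤ ENNReal.ofReal ρ * P E := mul_le_mul_right hPE _
    _ = ∫⁻ ω, E.indicator (fun _ => ENNReal.ofReal ρ) ω ∂P :=
        (lintegral_indicator_const₀ hE _).symm
    _ ≤ ∫⁻ ω, (∫⁻ ω', F (pst B (tm n k) ω) (fut B (tm n k) ω') ∂P) ∂P := lintegral_mono hIn
    _ = ∫⁻ ω, F (pst B (tm n k) ω) (fut B (tm n k) ω) ∂P := key.symm
    _ ≤ P {ω | hub (fun q : ℚ => y + B (q : ℝ) ω) n c k} := hL

end Pool.Agent.Lib.MP_8b264c_pr.QV2
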