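import Pool.Agent.Lib.MP_8b264c_pr.QV2.SG2
import Pool.Agent.Lib.MP_8b264c_pr.QV.LOC

/-!
# LO2: the local form of the theorem, every exponent `γ < 2`, with an exceptional set of times
-/

set_option autoImplicit false

open MeasureTheory Set ProbabilityTheory Filter Topology

namespace Pool.Agent.Lib.MP_8b264c_pr.QV2

open Pool.Agent.BMR Pool.Agent.Lib.MP_8b264c_pr.QV

/-- Part A, local form. -/
def SpecLA2 : Prop :=
  ∀ (Ω : Type) [MeasurableSpace Ω] (P : Measure Ω) [IsProbabilityMeasure P] (B : ℝ → Ω → ℂ),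
    IsPBM P B → ∀ᵐ ω ∂P, ∀ (f : ℂ ≃ₜ ℂ) (T : Set ℝ) (S : ℕ → Set ℂ),
      DifferentiableOn ℂ (⇑f) ((fun t => B t ω) '' Icc (0 : ℝ) 1)ᶜ →
      (∀ j, Measure.hausdorffMeasure 1 (S j) ≠ ⊤) →
      (fun t => B t ω) '' (T ∩ Icc (0 : ℝ) 1) ⊆ ⋃ j, S j →
      (∀ r ∈ Icc (0 : ℝ) 1, r ∉ T → ∃ ε > 0, ∃ γ < (2 : ℝ), ∃ C : ℝ, ∀ n : ℕ,
        ∑ j ∈ (Finset.range (4 ^ n)).filter (fun j : ℕ => |(j : ℝ) / 4 ^ n - r| ≤ ε),
          (Metric.diam ((fun t => f (B t ω)) ''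
            Icc ((j : ℝ) / 4 ^ n) (((j : ℝ) + 1) / 4 ^ n))) ^ 2 ≤ C * ((n : ℝ) + 1) ^ γ) →
      Differentiable ℂ (⇑f)

theorem specLA2 (hSEG : SpecSEG) (hSG2 : SpecSG2) (hCRI : SpecCRI) : SpecLA2 := by
  intro Ω _ P _ B hB
  obtain ⟨_, _, hS0⟩ := hSEG
  have h0 := (hS0 Ω P B hB).1
  have hS := hSG2 Ω P B hB
  have hall : ∀ᵐ ω ∂P, ∀ m p : ℕ, p < 4 ^ m → ∀ (f : ℂ ≃ₜ ℂ) (γ : ℝ), γ < 2 →
      (∃ C : ℝ, ∀ n : ℕ, ∑ j ∈ Finset.range (4 ^ n),
        (osc (⇑f ∘ fun t => B t ω) (m + n) (p * 4 ^ n + j)) ^ 2 ≤ C * ((n : ℝ) + 1) ^ γ) →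
      ∀ g h : ℂ → ℝ, (∀ z w, |g z - g w| ≤ ‖z - w‖) → (∀ z w, |h z - h w| ≤ ‖z - w‖) →
        ∀ᵐ v : ℝ, volume ((fun z => g (f z)) '' {z | z ∈ pc (fun t => B t ω) m p ∧ h z = v}) = 0 := by
    refine ae_all_iff.mpr fun m => ae_all_iff.mpr fun p => ?_
    by_cases hp : p < 4 ^ m
    · filter_upwards [hS m p hp] with ω hω _
      exact hω
    · exact Eventually.of_forall fun ω hp' => absurd hp' hp
  filter_upwards [h0, hall] with ω hω0 hω
  intro f T S hf hSf hTS hloc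
  have hβ : Continuous (fun t => B t ω) := hB.cont ω
  have hclosed : IsClosed (trace fun t => B t ω) := (isCompact_Icc.image hβ).isClosed
  -- good pieces
  let good : ℕ × ℕ → Prop := fun q => q.2 < 4 ^ q.1 ∧ ∃ γ : ℝ, γ < 2 ∧ ∃ C : ℝ, ∀ n : ℕ,
    ∑ j ∈ Finset.range (4 ^ n),
      (osc (⇑f ∘ fun t => B t ω) (q.1 + n) (q.2 * 4 ^ n + j)) ^ 2 ≤ C * ((n : ℝ) + 1) ^ γ
  have hcover : ∀ r ∈ Icc (0 : ℝ) 1, r ∉ T → ∃ q : ℕ × ℕ, good q ∧
      B r ω ∈ pc (fun t => B t ω) q.1 q.2 := by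
    intro r hr hrT
    obtain ⟨ε, hε, γ, hγ, C, hC0⟩ := hloc r hr hrT
    set c : ℝ := max γ 0 with hc
    have c0 : 0 ≤ c := le_max_right _ _
    have c2 : c < 2 := max_lt hγ two_pos
    have hC : ∀ n : ℕ,
        ∑ j ∈ (Finset.range (4 ^ n)).filter (fun j : ℕ => |(j : ℝ) / 4 ^ n - r| ≤ ε),
          (Metric.diam ((fun t => f (B t ω)) ''
            Icc ((j : ℝ) / 4 ^ n) (((j : ℝ) + 1) / 4 ^ n))) ^ 2 ≤ |C| * ((n : ℝ) + 1) ^ c := by
      intro n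
      have hn1 : (1 : ℝ) ≤ (n : ℝ) + 1 := by
        have : (0 : ℝ) ≤ n := Nat.cast_nonneg n
        linarith
      calc _ ≤ C * ((n : ℝ) + 1) ^ γ := hC0 n
        _ ≤ |C| * ((n : ℝ) + 1) ^ γ :=
            mul_le_mul_of_nonneg_right (le_abs_self C) (by positivity)
        _ ≤ |C| * ((n : ℝ) + 1) ^ c :=
            mul_le_mul_of_nonneg_left (Real.rpow_le_rpow_of_exponent_le hn1 (le_max_left _ _))
              (abs_nonneg C)
    obtain ⟨m, p, hp, hrp, hm⟩ := LOCM.exists_piece hr hε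
    have p4 : (0 : ℝ) < 4 ^ m := by positivity
    refine ⟨(m, p), ⟨hp, c, c2, |C| * ((m : ℝ) + 1) ^ c, fun n => ?_⟩, ⟨r, hrp, rfl⟩⟩
    have hlen : tm m (p + 1) = tm m p + 1 / 4 ^ m := by
      unfold tm
      push_cast
      ring
    have h1 : ∑ j ∈ Finset.range (4 ^ n),
        (osc (⇑f ∘ fun t => B t ω) (m + n) (p * 4 ^ n + j)) ^ 2 ≤
        ∑ j ∈ (Finset.range (4 ^ (m + n))).filter
          (fun j : ℕ => |(j : ℝ) / 4 ^ (m + n) - r| ≤ ε),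
          (Metric.diam ((fun t => f (B t ω)) ''
            Icc ((j : ℝ) / 4 ^ (m + n)) (((j : ℝ) + 1) / 4 ^ (m + n)))) ^ 2 := by
      have h2 : ∑ j ∈ Finset.range (4 ^ n),
          (osc (⇑f ∘ fun t => B t ω) (m + n) (p * 4 ^ n + j)) ^ 2 =
          ∑ i ∈ (Finset.range (4 ^ n)).map (addLeftEmbedding (p * 4 ^ n)),
            (osc (⇑f ∘ fun t => B t ω) (m + n) i) ^ 2 := by
        rw [Finset.sum_map]
        rfl
      rw [h2]
      have h3 : ∀ i : ℕ, (Metric.diam ((fun t => f (B t ω)) ''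
            Icc ((i : ℝ) / 4 ^ (m + n)) (((i : ℝ) + 1) / 4 ^ (m + n)))) ^ 2 =
            (osc (⇑f ∘ fun t => B t ω) (m + n) i) ^ 2 := by
        intro i
        rw [FINM.osc_eq]
        rfl
      rw [Finset.sum_congr rfl fun i _ => h3 i]
      refine Finset.sum_le_sum_of_subset_of_nonneg ?_ fun i _ _ => sq_nonneg _
      intro i hi
      rw [Finset.mem_map] at hi
      obtain ⟨j, hj, rfl⟩ := hi
      rw [Finset.mem_range] at hj
      rw [Finset.mem_filter, Finset.mem_range]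
      change p * 4 ^ n + j < 4 ^ (m + n) ∧ |((p * 4 ^ n + j : ℕ) : ℝ) / 4 ^ (m + n) - r| ≤ ε
      refine ⟨LOCM.index_lt hp hj, ?_⟩
      have e1 := LOCM.tm_add' m n p j
      have e2 : ((p * 4 ^ n + j : ℕ) : ℝ) / 4 ^ (m + n) = tm (m + n) (p * 4 ^ n + j) := rfl
      rw [e2, e1]
      have e3 : 0 ≤ tm n j / 4 ^ m := by
        unfold tm
        positivity
      have e4 : tm n j / 4 ^ m ≤ 1 / 4 ^ m := by
        have : tm n j ≤ 1 := by
          unfold tm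
          rw [div_le_one (by positivity)]
          exact_mod_cast hj.le
        gcongr
      rw [abs_le]
      constructor <;> linarith [hrp.1, hrp.2]
    refine h1.trans ((hC (m + n)).trans ?_)
    have h4 : (((m + n : ℕ) : ℝ) + 1) ^ c ≤ (((m : ℝ) + 1) * ((n : ℝ) + 1)) ^ c := by
      refine Real.rpow_le_rpow (by positivity) ?_ c0
      push_cast
      have a1 : (0 : ℝ) ≤ m := Nat.cast_nonneg m
      have a2 : (0 : ℝ) ≤ n := Nat.cast_nonneg n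
      nlinarith [mul_nonneg a1 a2]
    calc |C| * (((m + n : ℕ) : ℝ) + 1) ^ c ≤ |C| * (((m : ℝ) + 1) * ((n : ℝ) + 1)) ^ c :=
          mul_le_mul_of_nonneg_left h4 (abs_nonneg C)
      _ = |C| * ((m : ℝ) + 1) ^ c * ((n : ℝ) + 1) ^ c := by
          rw [Real.mul_rpow (by positivity) (by positivity), mul_assoc]
  -- slices of the whole trace
  have slices : ∀ g h : ℂ → ℝ, (∀ z w, |g z - g w| ≤ ‖z - w‖) → (∀ z w, |h z - h w| ≤ ‖z - w‖) →
      ∀ᵐ v : ℝ, volume ((fun z => g (f z)) '' {z | z ∈ trace (fun t => B t ω) ∧ h z = v}) = 0 := by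
    intro g h hg hh
    have a1 : ∀ᵐ v : ℝ, ∀ q : ℕ × ℕ, good q → volume ((fun z => g (f z)) ''
        {z | z ∈ pc (fun t => B t ω) q.1 q.2 ∧ h z = v}) = 0 := by
      refine ae_all_iff.mpr fun q => ?_
      by_cases hq : good q
      · obtain ⟨hq1, γ, hγ, hq2⟩ := hq
        filter_upwards [hω q.1 q.2 hq1 f γ hγ hq2 g h hg hh] with v hv _
        exact hv
      · exact Eventually.of_forall fun v hq' => absurd hq' hq
    have a2 : ∀ᵐ v : ℝ, ∀ j, (S j ∩ h ⁻¹' {v}).Finite :=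
      ae_all_iff.mpr fun j => finite_fiber h hh (hSf j)
    filter_upwards [a1, a2] with v hv1 hv2
    have hsub : (fun z => g (f z)) '' {z | z ∈ trace (fun t => B t ω) ∧ h z = v} ⊆
        (⋃ q : {q : ℕ × ℕ // good q}, (fun z => g (f z)) ''
          {z | z ∈ pc (fun t => B t ω) q.1.1 q.1.2 ∧ h z = v}) ∪
        ((fun z => g (f z)) '' ⋃ j, S j ∩ h ⁻¹' {v}) := by
      rintro _ ⟨z, ⟨⟨r, hr, rfl⟩, hz⟩, rfl⟩
      by_cases hrT : r ∈ T
      · right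
        have h5 : B r ω ∈ ⋃ j, S j := hTS ⟨r, ⟨hrT, hr⟩, rfl⟩
        obtain ⟨j, hj⟩ := mem_iUnion.mp h5
        exact ⟨B r ω, mem_iUnion.mpr ⟨j, hj, hz⟩, rfl⟩
      · left
        obtain ⟨q, hq, hq2⟩ := hcover r hr hrT
        exact mem_iUnion.mpr ⟨⟨q, hq⟩, B r ω, ⟨hq2, hz⟩, rfl⟩
    refine measure_mono_null hsub (measure_union_null ?_ ?_)
    · exact measure_iUnion_null fun q => hv1 q.1 q.2
    · have hc : (⋃ j, S j ∩ h ⁻¹' {v}).Countable := countable_iUnion fun j => (hv2 j).countable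
      exact (hc.image _).measure_zero volume
  exact hCRI (trace fun t => B t ω) f hclosed hf hω0
    (slices Complex.re Complex.im FINM.hre FINM.him)
    (slices Complex.im Complex.im FINM.him FINM.him)
    (slices Complex.re Complex.re FINM.hre FINM.hre)
    (slices Complex.im Complex.re FINM.him FINM.hre)


end Pool.Agent.Lib.MP_8b264c_pr.QV2
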