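import Pool.Agent.Lib.MP_8b264c_pr.QV2.LO2

/-!
# MC2: paths with a modulus of continuity `√δ (1 + log 1/δ)^b`, `b < 1`; time changes
-/

set_option autoImplicit false

open MeasureTheory Set ProbabilityTheory Filter Topology

namespace Pool.Agent.Lib.MP_8b264c_pr.QV2

open Pool.Agent.BMR Pool.Agent.Lib.MP_8b264c_pr.QV

/-- Modulus of continuity, local form. -/
def SpecMC2 : Prop :=
  ∀ (Ω : Type) [MeasurableSpace Ω] (P : Measure Ω) [IsProbabilityMeasure P] (B : ℝ → Ω → ℂ),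
    IsPBM P B → ∀ᵐ ω ∂P, ∀ (f : ℂ ≃ₜ ℂ) (T : Set ℝ) (S : ℕ → Set ℂ),
      DifferentiableOn ℂ (⇑f) ((fun t => B t ω) '' Icc (0 : ℝ) 1)ᶜ →
      (∀ j, Measure.hausdorffMeasure 1 (S j) ≠ ⊤) →
      (fun t => B t ω) '' (T ∩ Icc (0 : ℝ) 1) ⊆ ⋃ j, S j →
      (∀ r ∈ Icc (0 : ℝ) 1, r ∉ T → ∃ ε > 0, ∃ b < (1 : ℝ), ∃ C : ℝ,
        ∀ s ∈ Icc (0 : ℝ) 1 ∩ Icc (r - ε) (r + ε), ∀ t ∈ Icc (0 : ℝ) 1 ∩ Icc (r - ε) (r + ε),
          s < t → ‖f (B t ω) - f (B s ω)‖ ≤
            C * Real.sqrt (t - s) * (1 + Real.log (1 / (t - s))) ^ b) →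
      Differentiable ℂ (⇑f)

namespace MC2M

lemma mono {x h b : ℝ} (hx : 0 < x) (hxh : x ≤ h) (hh : h ≤ 1) (hb0 : 0 ≤ b) (hb1 : b ≤ 1) :
    Real.sqrt x * (1 + Real.log (1 / x)) ^ b ≤
      2 * (Real.sqrt h * (1 + Real.log (1 / h)) ^ b) := by
  have h0 : 0 < h := hx.trans_le hxh
  have l1 : 0 ≤ Real.log (1 / h) := Real.log_nonneg (by rw [le_div_iff₀ h0]; linarith)
  have hy : 1 ≤ h / x := by rw [le_div_iff₀ hx]; linarith
  have l2 : 0 ≤ Real.log (h / x) := Real.log_nonneg hy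
  have e1 : Real.log (1 / x) = Real.log (1 / h) + Real.log (h / x) := by
    rw [← Real.log_mul (by positivity) (by positivity)]
    congr 1
    field_simp
  have h2 : (1 + Real.log (1 / x)) ^ b ≤
      (1 + Real.log (1 / h)) ^ b * (1 + Real.log (h / x)) := by
    calc (1 + Real.log (1 / x)) ^ b ≤
        ((1 + Real.log (1 / h)) * (1 + Real.log (h / x))) ^ b := by
          refine Real.rpow_le_rpow (by rw [e1]; linarith) ?_ hb0
          rw [e1]
          nlinarith [mul_nonneg l1 l2]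
      _ = (1 + Real.log (1 / h)) ^ b * (1 + Real.log (h / x)) ^ b :=
          Real.mul_rpow (by linarith) (by linarith)
      _ ≤ (1 + Real.log (1 / h)) ^ b * (1 + Real.log (h / x)) ^ (1 : ℝ) := by
          refine mul_le_mul_of_nonneg_left ?_ (by positivity)
          exact Real.rpow_le_rpow_of_exponent_le (by linarith) hb1
      _ = _ := by rw [Real.rpow_one]
  have h3 : 1 + Real.log (h / x) ≤ 2 * Real.sqrt (h / x) := by
    have a1 : 0 < Real.sqrt (h / x) := Real.sqrt_pos.mpr (by positivity)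
    have a2 := Real.log_le_sub_one_of_pos a1
    have a3 : Real.log (h / x) = 2 * Real.log (Real.sqrt (h / x)) := by
      rw [Real.log_sqrt (by positivity)]
      ring
    rw [a3]
    linarith
  have h4 : Real.sqrt x * Real.sqrt (h / x) = Real.sqrt h := by
    rw [← Real.sqrt_mul hx.le]
    congr 1
    field_simp
  calc Real.sqrt x * (1 + Real.log (1 / x)) ^ b ≤
      Real.sqrt x * ((1 + Real.log (1 / h)) ^ b * (2 * Real.sqrt (h / x))) := by
        refine mul_le_mul_of_nonneg_left (h2.trans ?_) (Real.sqrt_nonneg _)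
        exact mul_le_mul_of_nonneg_left h3 (by positivity)
    _ = 2 * ((Real.sqrt x * Real.sqrt (h / x)) * (1 + Real.log (1 / h)) ^ b) := by ring
    _ = _ := by rw [h4]

lemma log_four_pow (n : ℕ) : 1 + Real.log (1 / (1 / (4 : ℝ) ^ n)) ≤ 2 * ((n : ℝ) + 1) := by
  have h1 : Real.log 4 ≤ 2 := by
    have : Real.log 4 = 2 * Real.log 2 := by
      rw [show (4 : ℝ) = 2 ^ 2 by norm_num, Real.log_pow]
      norm_num
    rw [this]
    have := Real.log_two_lt_d9
    linarith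
  rw [one_div_one_div, Real.log_pow]
  have : (0 : ℝ) ≤ n := Nat.cast_nonneg n
  nlinarith

end MC2M

theorem specMC2 (hLA : SpecLA2) : SpecMC2 := by
  intro Ω _ P _ B hB
  filter_upwards [hLA Ω P B hB] with ω h1
  intro f T S hf hSf hTS hloc
  refine h1 f T S hf hSf hTS fun r hr hrT => ?_
  obtain ⟨ε, hε, b, hb, C, hC⟩ := hloc r hr hrT
  set b' : ℝ := max b 0 with hb'
  have b0 : 0 ≤ b' := le_max_right _ _
  have b1 : b' < 1 := max_lt hb one_pos
  obtain ⟨n₀, hn₀⟩ := exists_pow_lt_of_lt_one (show 0 < ε / 2 by positivity)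
    (show (1 / 4 : ℝ) < 1 by norm_num)
  set Δ : ℝ := Metric.diam ((fun t => f (B t ω)) '' Icc (0 : ℝ) 1) with hΔ
  have hcont : Continuous fun t => f (B t ω) := f.continuous.comp (hB.cont ω)
  have hbdd : Bornology.IsBounded ((fun t => f (B t ω)) '' Icc (0 : ℝ) 1) :=
    (isCompact_Icc.image hcont).isBounded
  refine ⟨ε / 2, by positivity, 2 * b', by linarith,
    4 * C ^ 2 * 2 ^ (2 * b') + 4 ^ n₀ * Δ ^ 2, fun n => ?_⟩
  have p4 : (0 : ℝ) < 4 ^ n := by positivity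
  have n0 : (0 : ℝ) ≤ n := Nat.cast_nonneg n
  have hn1 : (1 : ℝ) ≤ ((n : ℝ) + 1) ^ (2 * b') :=
    Real.one_le_rpow (by linarith) (by positivity)
  have g1 : ∀ i : ℕ, i ≤ 4 ^ n → (i : ℝ) / 4 ^ n ∈ Icc (0 : ℝ) 1 := by
    intro i hi
    refine ⟨by positivity, ?_⟩
    rw [div_le_one p4]
    exact_mod_cast hi
  have g2 : ∀ i : ℕ, i < 4 ^ n → ((i : ℝ) + 1) / 4 ^ n ∈ Icc (0 : ℝ) 1 := by
    intro i hi
    have := g1 (i + 1) hi
    push_cast at this
    exact this
  have hcard : (((Finset.range (4 ^ n)).filter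
      (fun j : ℕ => |(j : ℝ) / 4 ^ n - r| ≤ ε / 2)).card : ℝ) ≤ 4 ^ n := by
    have h3 := Finset.card_filter_le (Finset.range (4 ^ n))
      (fun j : ℕ => |(j : ℝ) / 4 ^ n - r| ≤ ε / 2)
    rw [Finset.card_range] at h3
    exact_mod_cast h3
  rcases lt_or_ge n n₀ with hlt | hge
  · -- small `n`
    have hsum : ∑ j ∈ (Finset.range (4 ^ n)).filter
        (fun j : ℕ => |(j : ℝ) / 4 ^ n - r| ≤ ε / 2), (Metric.diam ((fun t => f (B t ω)) ''
            Icc ((j : ℝ) / 4 ^ n) (((j : ℝ) + 1) / 4 ^ n))) ^ 2 ≤ 4 ^ n₀ * Δ ^ 2 := by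
      calc _ ≤ ∑ j ∈ (Finset.range (4 ^ n)).filter
            (fun j : ℕ => |(j : ℝ) / 4 ^ n - r| ≤ ε / 2), Δ ^ 2 := by
            refine Finset.sum_le_sum fun j hj => ?_
            rw [Finset.mem_filter, Finset.mem_range] at hj
            refine pow_le_pow_left₀ Metric.diam_nonneg (Metric.diam_mono (image_mono ?_) hbdd) 2
            exact Icc_subset_Icc (g1 j hj.1.le).1 (g2 j hj.1).2
        _ = (((Finset.range (4 ^ n)).filter
            (fun j : ℕ => |(j : ℝ) / 4 ^ n - r| ≤ ε / 2)).card : ℝ) * Δ ^ 2 := by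
            rw [Finset.sum_const, nsmul_eq_mul]
        _ ≤ 4 ^ n₀ * Δ ^ 2 := by
            refine mul_le_mul_of_nonneg_right (hcard.trans ?_) (sq_nonneg _)
            exact pow_le_pow_right₀ (by norm_num) hlt.le
    have hpos : 0 ≤ 4 ^ n₀ * Δ ^ 2 := by positivity
    have hpos' : 0 ≤ 4 * C ^ 2 * (2 : ℝ) ^ (2 * b') := by positivity
    nlinarith
  · -- large `n`
    have hsmall : (1 : ℝ) / 4 ^ n ≤ ε / 2 := by
      rw [← one_div_pow]
      exact (pow_le_pow_of_le_one (by norm_num) (by norm_num) hge).trans hn₀.le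
    have hh1 : (1 : ℝ) / 4 ^ n ≤ 1 := by
      rw [div_le_one p4]
      exact one_le_pow₀ (by norm_num)
    have hsq : Real.sqrt ((1 : ℝ) / 4 ^ n) = 1 / 2 ^ n := by
      rw [show (1 : ℝ) / 4 ^ n = (1 / 2 ^ n) ^ 2 by
        rw [div_pow, one_pow, ← pow_mul, mul_comm n 2, pow_mul]; norm_num]
      exact Real.sqrt_sq (by positivity)
    set W : ℝ := 2 * |C| * (1 / 2 ^ n) * (2 * ((n : ℝ) + 1)) ^ b' with hW
    have hW0 : 0 ≤ W := by positivity
    have hin : ∀ j : ℕ, j < 4 ^ n → |(j : ℝ) / 4 ^ n - r| ≤ ε / 2 →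
        Icc ((j : ℝ) / 4 ^ n) (((j : ℝ) + 1) / 4 ^ n) ⊆ Icc (0 : ℝ) 1 ∩ Icc (r - ε) (r + ε) := by
      intro j hj habs t ht
      rw [abs_le] at habs
      have e : ((j : ℝ) + 1) / 4 ^ n = (j : ℝ) / 4 ^ n + 1 / 4 ^ n := by rw [add_div]
      refine ⟨⟨(g1 j hj.le).1.trans ht.1, ht.2.trans (g2 j hj).2⟩, ?_, ?_⟩
      · linarith [ht.1]
      · linarith [ht.2]
    have hpair : ∀ s ∈ Icc (0 : ℝ) 1 ∩ Icc (r - ε) (r + ε),
        ∀ t ∈ Icc (0 : ℝ) 1 ∩ Icc (r - ε) (r + ε), s < t → t - s ≤ 1 / 4 ^ n →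
        ‖f (B t ω) - f (B s ω)‖ ≤ W := by
      intro s hs t ht hst hd
      have hx : 0 < t - s := by linarith
      have hL : 1 ≤ 1 + Real.log (1 / (t - s)) := by
        have : 0 ≤ Real.log (1 / (t - s)) :=
          Real.log_nonneg (by rw [le_div_iff₀ hx]; linarith)
        linarith
      have hC1 := hC s hs t ht hst
      have hsq0 := Real.sqrt_nonneg (t - s)
      calc ‖f (B t ω) - f (B s ω)‖ ≤
          C * Real.sqrt (t - s) * (1 + Real.log (1 / (t - s))) ^ b := hC1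
        _ ≤ |C| * Real.sqrt (t - s) * (1 + Real.log (1 / (t - s))) ^ b := by
            refine mul_le_mul_of_nonneg_right (mul_le_mul_of_nonneg_right (le_abs_self C) hsq0) ?_
            exact Real.rpow_nonneg (by linarith) _
        _ ≤ |C| * Real.sqrt (t - s) * (1 + Real.log (1 / (t - s))) ^ b' := by
            refine mul_le_mul_of_nonneg_left ?_ (by positivity)
            exact Real.rpow_le_rpow_of_exponent_le hL (le_max_left _ _)
        _ = |C| * (Real.sqrt (t - s) * (1 + Real.log (1 / (t - s))) ^ b') := by ring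
        _ ≤ |C| * (2 * (Real.sqrt (1 / 4 ^ n) * (1 + Real.log (1 / (1 / 4 ^ n))) ^ b')) :=
            mul_le_mul_of_nonneg_left (MC2M.mono hx hd hh1 b0 b1.le) (abs_nonneg C)
        _ ≤ |C| * (2 * (Real.sqrt (1 / 4 ^ n) * (2 * ((n : ℝ) + 1)) ^ b')) := by
            have h5 : 0 ≤ 1 + Real.log (1 / (1 / (4 : ℝ) ^ n)) := by
              rw [one_div_one_div]
              have : 0 ≤ Real.log ((4 : ℝ) ^ n) := Real.log_nonneg (one_le_pow₀ (by norm_num))
              linarith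
            have h6 := Real.rpow_le_rpow h5 (MC2M.log_four_pow n) b0
            gcongr
        _ = W := by
            rw [hsq, hW]
            ring
    have hdiam : ∀ j : ℕ, j < 4 ^ n → |(j : ℝ) / 4 ^ n - r| ≤ ε / 2 →
        Metric.diam ((fun t => f (B t ω)) ''
          Icc ((j : ℝ) / 4 ^ n) (((j : ℝ) + 1) / 4 ^ n)) ≤ W := by
      intro j hj habs
      refine Metric.diam_le_of_forall_dist_le hW0 ?_
      rintro _ ⟨s, hs, rfl⟩ _ ⟨t, ht, rfl⟩
      have e : ((j : ℝ) + 1) / 4 ^ n = (j : ℝ) / 4 ^ n + 1 / 4 ^ n := by rw [add_div]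
      rcases lt_trichotomy s t with h | h | h
      · rw [dist_comm, dist_eq_norm]
        exact hpair s (hin j hj habs hs) t (hin j hj habs ht) h (by linarith [hs.1, ht.2])
      · rw [h]
        simpa using hW0
      · rw [dist_eq_norm]
        exact hpair t (hin j hj habs ht) s (hin j hj habs hs) h (by linarith [hs.2, ht.1])
    have hW2 : 4 ^ n * W ^ 2 = 4 * C ^ 2 * 2 ^ (2 * b') * ((n : ℝ) + 1) ^ (2 * b') := by
      have e1 : ((2 * ((n : ℝ) + 1)) ^ b') ^ 2 = 2 ^ (2 * b') * ((n : ℝ) + 1) ^ (2 * b') := by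
        rw [← Real.rpow_natCast, ← Real.rpow_mul (by positivity),
          show b' * ((2 : ℕ) : ℝ) = 2 * b' by push_cast; ring,
          Real.mul_rpow (by norm_num) (by positivity)]
      have e2 : (4 : ℝ) ^ n * (1 / 2 ^ n) ^ 2 = 1 := by
        rw [div_pow, one_pow, ← pow_mul, mul_comm n 2, pow_mul]
        norm_num
      calc 4 ^ n * W ^ 2 = (4 ^ n * (1 / 2 ^ n) ^ 2) * (4 * |C| ^ 2) *
          ((2 * ((n : ℝ) + 1)) ^ b') ^ 2 := by rw [hW]; ring
        _ = _ := by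
            rw [e2, e1, sq_abs]
            ring
    calc _ ≤ ∑ i ∈ (Finset.range (4 ^ n)).filter (fun j : ℕ => |(j : ℝ) / 4 ^ n - r| ≤ ε / 2),
          W ^ 2 := by
          refine Finset.sum_le_sum fun i hi => ?_
          rw [Finset.mem_filter, Finset.mem_range] at hi
          exact pow_le_pow_left₀ Metric.diam_nonneg (hdiam i hi.1 hi.2) 2
      _ = (((Finset.range (4 ^ n)).filter
            (fun j : ℕ => |(j : ℝ) / 4 ^ n - r| ≤ ε / 2)).card : ℝ) * W ^ 2 := by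
          rw [Finset.sum_const, nsmul_eq_mul]
      _ ≤ 4 ^ n * W ^ 2 := mul_le_mul_of_nonneg_right hcard (sq_nonneg _)
      _ = 4 * C ^ 2 * 2 ^ (2 * b') * ((n : ℝ) + 1) ^ (2 * b') := hW2
      _ ≤ _ := by
          refine mul_le_mul_of_nonneg_right ?_ (by positivity)
          have : 0 ≤ 4 ^ n₀ * Δ ^ 2 := by positivity
          linarith

/-- The exponent `1` in the sense of the old form. -/
theorem specLA_of (hLA : SpecLA2) : SpecLA := by
  refine ⟨1, one_pos, ?_⟩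
  intro Ω _ P _ B hB
  filter_upwards [hLA Ω P B hB] with ω h1
  intro f T S hf hSf hTS hloc
  refine h1 f T S hf hSf hTS fun r hr hrT => ?_
  obtain ⟨ε, hε, C, hC⟩ := hloc r hr hrT
  exact ⟨ε, hε, 1, by norm_num, C, hC⟩

end Pool.Agent.Lib.MP_8b264c_pr.QV2
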