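import Pool.Agent.Lib.MP_8b264c_pr.QV2.MC2
import Pool.Agent.Lib.MP_8b264c_pr.QV.VAD

/-!
# MC3: time changes of paths with a modulus of continuity `√δ (1 + log 1/δ)^b`, `b < 1`
-/

set_option autoImplicit false

open MeasureTheory Set ProbabilityTheory Filter Topology

namespace Pool.Agent.Lib.MP_8b264c_pr.QV2

open Pool.Agent.BMR Pool.Agent.Lib.MP_8b264c_pr.QV

/-- Time changes of paths with a modulus of continuity, local form. -/
def SpecMC3 : Prop :=
  ∀ (Ω : Type) [MeasurableSpace Ω] (P : Measure Ω) [IsProbabilityMeasure P] (B : ℝ → Ω → ℂ),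
    IsPBM P B → ∀ᵐ ω ∂P, ∀ (f : ℂ ≃ₜ ℂ) (T : Set ℝ) (S : ℕ → Set ℂ),
      DifferentiableOn ℂ (⇑f) ((fun t => B t ω) '' Icc (0 : ℝ) 1)ᶜ →
      (∀ j, Measure.hausdorffMeasure 1 (S j) ≠ ⊤) →
      (fun t => B t ω) '' (T ∩ Icc (0 : ℝ) 1) ⊆ ⋃ j, S j →
      (∀ r ∈ Icc (0 : ℝ) 1, r ∉ T → ∃ ε > 0, ∃ b < (1 : ℝ), ∃ C : ℝ,
        ∃ (y : ℝ → ℂ) (τ : ℝ → ℝ),
          (∀ s ∈ Icc (0 : ℝ) 1, ∀ t ∈ Icc (0 : ℝ) 1, s < t →
            ‖y t - y s‖ ≤ C * Real.sqrt (t - s) * (1 + Real.log (1 / (t - s))) ^ b) ∧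
          (∀ t ∈ Icc (0 : ℝ) 1 ∩ Icc (r - ε) (r + ε), τ t ∈ Icc (0 : ℝ) 1 ∧ f (B t ω) = y (τ t)) ∧
          (MonotoneOn τ (Icc (0 : ℝ) 1 ∩ Icc (r - ε) (r + ε)) ∨
            AntitoneOn τ (Icc (0 : ℝ) 1 ∩ Icc (r - ε) (r + ε)))) →
      Differentiable ℂ (⇑f)

namespace MC3M

lemma small {x : ℝ} (hx : 0 < x) (hx1 : x ≤ 1) :
    x * (1 + Real.log (1 / x)) ^ (2 : ℝ) ≤ 16 * Real.sqrt x := by
  have h1 : 0 < Real.sqrt x := Real.sqrt_pos.mpr hx
  have h2 : 0 < Real.sqrt (Real.sqrt x) := Real.sqrt_pos.mpr h1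
  set w : ℝ := Real.sqrt (Real.sqrt x) with hw
  have hw2 : w ^ 2 = Real.sqrt x := Real.sq_sqrt h1.le
  have hw4 : w ^ 4 = x := by
    rw [show (4 : ℕ) = 2 * 2 by norm_num, pow_mul, hw2, Real.sq_sqrt hx.le]
  have hlog : Real.log (1 / x) = 4 * Real.log (1 / w) := by
    rw [← hw4, one_div, one_div, Real.log_inv, Real.log_inv, Real.log_pow]
    push_cast
    ring
  have h3 : Real.log (1 / w) ≤ 1 / w - 1 := Real.log_le_sub_one_of_pos (by positivity)
  have h4 : 1 + Real.log (1 / x) ≤ 4 / w := by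
    rw [hlog]
    have : 4 / w = 4 * (1 / w) := by ring
    rw [this]
    linarith
  have h5 : 0 ≤ 1 + Real.log (1 / x) := by
    have : 0 ≤ Real.log (1 / x) := Real.log_nonneg (by rw [le_div_iff₀ hx]; linarith)
    linarith
  have h6 : (1 + Real.log (1 / x)) ^ (2 : ℝ) ≤ (4 / w) ^ 2 := by
    rw [show (2 : ℝ) = ((2 : ℕ) : ℝ) by norm_num, Real.rpow_natCast]
    exact pow_le_pow_left₀ h5 h4 2
  calc x * (1 + Real.log (1 / x)) ^ (2 : ℝ) ≤ x * (4 / w) ^ 2 :=
        mul_le_mul_of_nonneg_left h6 hx.le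
    _ = 16 * w ^ 2 := by
        rw [← hw4]
        field_simp
        ring
    _ = 16 * Real.sqrt x := by rw [hw2]

/-- The sum over disjoint intervals. -/
lemma sum_mod {y : ℝ → ℂ} {C b : ℝ} (hb0 : 0 ≤ b) (hb1 : b ≤ 1) (n : ℕ) (u v : ℕ → ℝ)
    (h01 : ∀ i < 4 ^ n, 0 ≤ u i ∧ u i ≤ v i ∧ v i ≤ 1)
    (hd : ∀ i < 4 ^ n, ∀ j < 4 ^ n, i < j → v i ≤ u j ∨ v j ≤ u i)
    (hy : ∀ s ∈ Icc (0 : ℝ) 1, ∀ t ∈ Icc (0 : ℝ) 1, s < t →
      ‖y t - y s‖ ≤ |C| * (Real.sqrt (t - s) * (1 + Real.log (1 / (t - s))) ^ b)) :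
    ∑ i ∈ Finset.range (4 ^ n), (Metric.diam (y '' Icc (u i) (v i))) ^ 2 ≤
      100 * C ^ 2 * ((n : ℝ) + 1) ^ (2 * b) := by
  have n0 : (0 : ℝ) ≤ n := Nat.cast_nonneg n
  have hn1 : (1 : ℝ) ≤ ((n : ℝ) + 1) ^ (2 * b) :=
    Real.one_le_rpow (by linarith) (by positivity)
  have hsum : ∑ i ∈ Finset.range (4 ^ n), (v i - u i) ≤ 1 := by
    have := VADM.sum_len (Finset.range (4 ^ n)) u v 0 1 zero_le_one
      (fun i hi => h01 i (Finset.mem_range.mp hi)) (fun i hi j hj hij => by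
        rw [Finset.mem_range] at hi hj
        rcases lt_or_gt_of_ne hij with h | h
        · exact hd i hi j hj h
        · rcases hd j hj i hi h with h' | h'
          · exact Or.inr h'
          · exact Or.inl h')
    linarith
  have key : ∀ i ∈ Finset.range (4 ^ n), (Metric.diam (y '' Icc (u i) (v i))) ^ 2 ≤
      4 * C ^ 2 * (9 * ((n : ℝ) + 1) ^ (2 * b) * (v i - u i) + 16 / 4 ^ n) := by
    intro i hi
    rw [Finset.mem_range] at hi
    obtain ⟨a0, a1, a2⟩ := h01 i hi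
    rcases eq_or_lt_of_le a1 with h | h
    · have e1 : Metric.diam (y '' Icc (u i) (v i)) = 0 := by
        rw [← h, Icc_self, image_singleton, Metric.diam_singleton]
      rw [e1, ← h]
      have : (0 : ℝ) ≤ 4 * C ^ 2 * (9 * ((n : ℝ) + 1) ^ (2 * b) * (u i - u i) + 16 / 4 ^ n) := by
        rw [sub_self]
        positivity
      simpa using this
    set x : ℝ := v i - u i with hx
    have hx0 : 0 < x := by rw [hx]; linarith
    have hx1 : x ≤ 1 := by rw [hx]; linarith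
    have hL : 1 ≤ 1 + Real.log (1 / x) := by
      have : 0 ≤ Real.log (1 / x) := Real.log_nonneg (by rw [le_div_iff₀ hx0]; linarith)
      linarith
    have hdiam : Metric.diam (y '' Icc (u i) (v i)) ≤
        2 * |C| * (Real.sqrt x * (1 + Real.log (1 / x)) ^ b) := by
      refine Metric.diam_le_of_forall_dist_le (by positivity) ?_
      have hpair : ∀ s ∈ Icc (u i) (v i), ∀ t ∈ Icc (u i) (v i), s < t →
          ‖y t - y s‖ ≤ 2 * |C| * (Real.sqrt x * (1 + Real.log (1 / x)) ^ b) := by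
        intro s hs t ht hst
        have h3 := hy s ⟨a0.trans hs.1, hs.2.trans a2⟩ t ⟨a0.trans ht.1, ht.2.trans a2⟩ hst
        have h4 := MC2M.mono (b := b) (show 0 < t - s by linarith)
          (show t - s ≤ x by rw [hx]; linarith [hs.1, ht.2]) hx1 hb0 hb1
        calc ‖y t - y s‖ ≤ |C| * (Real.sqrt (t - s) * (1 + Real.log (1 / (t - s))) ^ b) := h3
          _ ≤ |C| * (2 * (Real.sqrt x * (1 + Real.log (1 / x)) ^ b)) :=
              mul_le_mul_of_nonneg_left h4 (abs_nonneg C)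
          _ = _ := by ring
      rintro _ ⟨s, hs, rfl⟩ _ ⟨t, ht, rfl⟩
      rcases lt_trichotomy s t with h' | h' | h'
      · rw [dist_comm, dist_eq_norm]
        exact hpair s hs t ht h'
      · rw [h', dist_self]
        positivity
      · rw [dist_eq_norm]
        exact hpair t ht s hs h'
    have hLb : ((1 + Real.log (1 / x)) ^ b) ^ 2 = (1 + Real.log (1 / x)) ^ (2 * b) := by
      rw [← Real.rpow_natCast, ← Real.rpow_mul (by linarith)]
      congr 1
      push_cast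
      ring
    have h5 : (Metric.diam (y '' Icc (u i) (v i))) ^ 2 ≤
        4 * C ^ 2 * (x * (1 + Real.log (1 / x)) ^ (2 * b)) := by
      calc (Metric.diam (y '' Icc (u i) (v i))) ^ 2 ≤
          (2 * |C| * (Real.sqrt x * (1 + Real.log (1 / x)) ^ b)) ^ 2 :=
            pow_le_pow_left₀ Metric.diam_nonneg hdiam 2
        _ = 4 * |C| ^ 2 * (Real.sqrt x ^ 2 * ((1 + Real.log (1 / x)) ^ b) ^ 2) := by ring
        _ = _ := by rw [sq_abs, Real.sq_sqrt hx0.le, hLb]
    refine h5.trans (mul_le_mul_of_nonneg_left ?_ (by positivity))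
    rcases le_or_gt (1 / 16 ^ n) x with hc | hc
    · -- not too short
      have h6 : 1 + Real.log (1 / x) ≤ 3 * ((n : ℝ) + 1) := by
        have h7 : Real.log (1 / x) ≤ Real.log (16 ^ n) := by
          refine Real.log_le_log (by positivity) ?_
          rw [div_le_iff₀ hx0]
          rw [div_le_iff₀ (by positivity)] at hc
          linarith
        rw [Real.log_pow] at h7
        have h8 : Real.log 16 ≤ 3 := by
          have : Real.log 16 = 4 * Real.log 2 := by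
            rw [show (16 : ℝ) = 2 ^ 4 by norm_num, Real.log_pow]
            norm_num
          rw [this]
          have := Real.log_two_lt_d9
          linarith
        nlinarith
      have h9 : (1 + Real.log (1 / x)) ^ (2 * b) ≤ 9 * ((n : ℝ) + 1) ^ (2 * b) := by
        calc (1 + Real.log (1 / x)) ^ (2 * b) ≤ (3 * ((n : ℝ) + 1)) ^ (2 * b) :=
              Real.rpow_le_rpow (by linarith) h6 (by positivity)
          _ = 3 ^ (2 * b) * ((n : ℝ) + 1) ^ (2 * b) := Real.mul_rpow (by norm_num) (by positivity)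
          _ ≤ 3 ^ (2 : ℝ) * ((n : ℝ) + 1) ^ (2 * b) := by
              refine mul_le_mul_of_nonneg_right ?_ (by positivity)
              exact Real.rpow_le_rpow_of_exponent_le (by norm_num) (by linarith)
          _ = 9 * ((n : ℝ) + 1) ^ (2 * b) := by norm_num
      have h10 : (0 : ℝ) ≤ 16 / 4 ^ n := by positivity
      calc x * (1 + Real.log (1 / x)) ^ (2 * b) ≤ x * (9 * ((n : ℝ) + 1) ^ (2 * b)) :=
            mul_le_mul_of_nonneg_left h9 hx0.le
        _ ≤ _ := by linarith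
    · -- very short
      have h6 : (1 + Real.log (1 / x)) ^ (2 * b) ≤ (1 + Real.log (1 / x)) ^ (2 : ℝ) :=
        Real.rpow_le_rpow_of_exponent_le hL (by linarith)
      have h7 : Real.sqrt x ≤ 1 / 4 ^ n := by
        rw [show (1 : ℝ) / 4 ^ n = Real.sqrt ((1 / 4 ^ n) ^ 2) from
          (Real.sqrt_sq (by positivity)).symm]
        refine Real.sqrt_le_sqrt (hc.le.trans (le_of_eq ?_))
        rw [div_pow, one_pow, ← pow_mul, mul_comm n 2, pow_mul]
        norm_num
      have h8 : 0 ≤ 9 * ((n : ℝ) + 1) ^ (2 * b) * x := by positivity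
      calc x * (1 + Real.log (1 / x)) ^ (2 * b) ≤ x * (1 + Real.log (1 / x)) ^ (2 : ℝ) :=
            mul_le_mul_of_nonneg_left h6 hx0.le
        _ ≤ 16 * Real.sqrt x := small hx0 hx1
        _ ≤ 16 * (1 / 4 ^ n) := mul_le_mul_of_nonneg_left h7 (by norm_num)
        _ = 16 / 4 ^ n := by ring
        _ ≤ _ := by linarith
  calc _ ≤ ∑ i ∈ Finset.range (4 ^ n),
        4 * C ^ 2 * (9 * ((n : ℝ) + 1) ^ (2 * b) * (v i - u i) + 16 / 4 ^ n) :=
        Finset.sum_le_sum key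
    _ = 4 * C ^ 2 * (9 * ((n : ℝ) + 1) ^ (2 * b) * ∑ i ∈ Finset.range (4 ^ n), (v i - u i) +
          16) := by
        rw [← Finset.mul_sum, Finset.sum_add_distrib, ← Finset.mul_sum, Finset.sum_const,
          Finset.card_range, nsmul_eq_mul]
        push_cast
        have : (4 : ℝ) ^ n ≠ 0 := by positivity
        field_simp
    _ ≤ 4 * C ^ 2 * (9 * ((n : ℝ) + 1) ^ (2 * b) * 1 + 16 * ((n : ℝ) + 1) ^ (2 * b)) := by
        refine mul_le_mul_of_nonneg_left ?_ (by positivity)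
        have h1 := mul_le_mul_of_nonneg_left hsum
          (show (0 : ℝ) ≤ 9 * ((n : ℝ) + 1) ^ (2 * b) by positivity)
        linarith
    _ = _ := by ring

end MC3M

theorem specMC3 (hLA : SpecLA2) : SpecMC3 := by
  intro Ω _ P _ B hB
  filter_upwards [hLA Ω P B hB] with ω h1
  intro f T S hf hSf hTS hloc
  refine h1 f T S hf hSf hTS fun r hr hrT => ?_
  obtain ⟨ε, hε, b, hb, C, y, τ, hmod, heq, hmon⟩ := hloc r hr hrT
  set b' : ℝ := max b 0 with hb'
  have b0 : 0 ≤ b' := le_max_right _ _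
  have b1 : b' < 1 := max_lt hb one_pos
  -- the modulus with `b'`
  have hmod' : ∀ s ∈ Icc (0 : ℝ) 1, ∀ t ∈ Icc (0 : ℝ) 1, s < t →
      ‖y t - y s‖ ≤ |C| * (Real.sqrt (t - s) * (1 + Real.log (1 / (t - s))) ^ b') := by
    intro s hs t ht hst
    have hx : 0 < t - s := by linarith
    have hL : 1 ≤ 1 + Real.log (1 / (t - s)) := by
      have : 0 ≤ Real.log (1 / (t - s)) :=
        Real.log_nonneg (by rw [le_div_iff₀ hx]; linarith [hs.1, ht.2])
      linarith
    calc ‖y t - y s‖ ≤ C * Real.sqrt (t - s) * (1 + Real.log (1 / (t - s))) ^ b :=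
          hmod s hs t ht hst
      _ ≤ |C| * Real.sqrt (t - s) * (1 + Real.log (1 / (t - s))) ^ b := by
          refine mul_le_mul_of_nonneg_right
            (mul_le_mul_of_nonneg_right (le_abs_self C) (Real.sqrt_nonneg _)) ?_
          exact Real.rpow_nonneg (by linarith) _
      _ ≤ |C| * Real.sqrt (t - s) * (1 + Real.log (1 / (t - s))) ^ b' := by
          refine mul_le_mul_of_nonneg_left ?_ (by positivity)
          exact Real.rpow_le_rpow_of_exponent_le hL (le_max_left _ _)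
      _ = _ := by ring
  -- boundedness of the images
  have hbd : ∀ a b : ℝ, 0 ≤ a → b ≤ 1 → Bornology.IsBounded (y '' Icc a b) := by
    intro a₁ b₁ ha hb₁
    refine Metric.isBounded_iff.mpr ⟨2 * |C|, ?_⟩
    have hpair : ∀ s ∈ Icc a₁ b₁, ∀ t ∈ Icc a₁ b₁, s < t → ‖y t - y s‖ ≤ 2 * |C| := by
      intro s hs t ht hst
      have h3 := hmod' s ⟨ha.trans hs.1, hs.2.trans hb₁⟩ t ⟨ha.trans ht.1, ht.2.trans hb₁⟩ hst
      have h4 := MC2M.mono (b := b') (show 0 < t - s by linarith)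
        (show t - s ≤ 1 by linarith [hs.1, ht.2]) le_rfl b0 b1.le
      have h5 : Real.sqrt 1 * (1 + Real.log (1 / 1)) ^ b' = 1 := by
        rw [Real.sqrt_one, div_one, Real.log_one, add_zero, Real.one_rpow, one_mul]
      rw [h5] at h4
      calc ‖y t - y s‖ ≤ |C| * (Real.sqrt (t - s) * (1 + Real.log (1 / (t - s))) ^ b') := h3
        _ ≤ |C| * (2 * 1) := mul_le_mul_of_nonneg_left h4 (abs_nonneg C)
        _ = _ := by ring
    rintro _ ⟨s, hs, rfl⟩ _ ⟨t, ht, rfl⟩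
    rcases lt_trichotomy s t with h' | h' | h'
    · rw [dist_comm, dist_eq_norm]
      exact hpair s hs t ht h'
    · rw [h', dist_self]
      positivity
    · rw [dist_eq_norm]
      exact hpair t ht s hs h'
  obtain ⟨n₀, hn₀⟩ := exists_pow_lt_of_lt_one (show 0 < ε / 2 by positivity)
    (show (1 / 4 : ℝ) < 1 by norm_num)
  set Δ : ℝ := Metric.diam ((fun t => f (B t ω)) '' Icc (0 : ℝ) 1) with hΔ
  have hcont : Continuous fun t => f (B t ω) := f.continuous.comp (hB.cont ω)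
  have hbdd : Bornology.IsBounded ((fun t => f (B t ω)) '' Icc (0 : ℝ) 1) :=
    (isCompact_Icc.image hcont).isBounded
  refine ⟨ε / 2, by positivity, 2 * b', by linarith,
    100 * C ^ 2 + 4 ^ n₀ * Δ ^ 2, fun n => ?_⟩
  have p4 : (0 : ℝ) < 4 ^ n := by positivity
  have n0 : (0 : ℝ) ≤ n := Nat.cast_nonneg n
  have hn1 : (1 : ℝ) ≤ ((n : ℝ) + 1) ^ (2 * b') :=
    Real.one_le_rpow (by linarith) (by positivity)
  have g1 : ∀ i : ℕ, i ≤ 4 ^ n → (i : ℝ) / 4 ^ n ∈ Icc (0 : ℝ) 1 := by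
    intro i hi
    refine ⟨by positivity, ?_⟩
    rw [div_le_one p4]
    exact_mod_cast hi
  have g2 : ∀ i : ℕ, i < 4 ^ n → ((i : ℝ) + 1) / 4 ^ n ∈ Icc (0 : ℝ) 1 := by
    intro i hi
    have := g1 (i + 1) hi
    push_cast at this
    exact this
  rcases lt_or_ge n n₀ with hlt | hge
  · -- small `n`
    have hsum : ∑ j ∈ (Finset.range (4 ^ n)).filter
        (fun j : ℕ => |(j : ℝ) / 4 ^ n - r| ≤ ε / 2), (Metric.diam ((fun t => f (B t ω)) ''
            Icc ((j : ℝ) / 4 ^ n) (((j : ℝ) + 1) / 4 ^ n))) ^ 2 ≤ 4 ^ n₀ * Δ ^ 2 := by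
      calc _ ≤ ∑ j ∈ (Finset.range (4 ^ n)).filter
            (fun j : ℕ => |(j : ℝ) / 4 ^ n - r| ≤ ε / 2), Δ ^ 2 := by
            refine Finset.sum_le_sum fun j hj => ?_
            rw [Finset.mem_filter, Finset.mem_range] at hj
            refine pow_le_pow_left₀ Metric.diam_nonneg (Metric.diam_mono (image_mono ?_) hbdd) 2
            exact Icc_subset_Icc (g1 j hj.1.le).1 (g2 j hj.1).2
        _ = (((Finset.range (4 ^ n)).filter
            (fun j : ℕ => |(j : ℝ) / 4 ^ n - r| ≤ ε / 2)).card : ℝ) * Δ ^ 2 := by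
            rw [Finset.sum_const, nsmul_eq_mul]
        _ ≤ 4 ^ n₀ * Δ ^ 2 := by
            refine mul_le_mul_of_nonneg_right ?_ (sq_nonneg _)
            have h3 := Finset.card_filter_le (Finset.range (4 ^ n))
              (fun j : ℕ => |(j : ℝ) / 4 ^ n - r| ≤ ε / 2)
            rw [Finset.card_range] at h3
            have h4 : 4 ^ n ≤ 4 ^ n₀ := Nat.pow_le_pow_right (by norm_num) hlt.le
            exact_mod_cast h3.trans h4
    have hpos : 0 ≤ 4 ^ n₀ * Δ ^ 2 := by positivity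
    have hpos' : 0 ≤ 100 * C ^ 2 := by positivity
    nlinarith
  · -- large `n`
    have hsmall : (1 : ℝ) / 4 ^ n ≤ ε / 2 := by
      rw [← one_div_pow]
      exact (pow_le_pow_of_le_one (by norm_num) (by norm_num) hge).trans hn₀.le
    have hin : ∀ j : ℕ, j < 4 ^ n → |(j : ℝ) / 4 ^ n - r| ≤ ε / 2 →
        Icc ((j : ℝ) / 4 ^ n) (((j : ℝ) + 1) / 4 ^ n) ⊆ Icc (0 : ℝ) 1 ∩ Icc (r - ε) (r + ε) := by
      intro j hj habs t ht
      rw [abs_le] at habs
      have e : ((j : ℝ) + 1) / 4 ^ n = (j : ℝ) / 4 ^ n + 1 / 4 ^ n := by rw [add_div]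
      refine ⟨⟨(g1 j hj.le).1.trans ht.1, ht.2.trans (g2 j hj).2⟩, ?_, ?_⟩
      · linarith [ht.1]
      · linarith [ht.2]
    have hstep : ∀ i : ℕ, (i : ℝ) / 4 ^ n ≤ ((i : ℝ) + 1) / 4 ^ n := fun i => by
      gcongr
      linarith
    have hlt : ∀ i j : ℕ, i < j → ((i : ℝ) + 1) / 4 ^ n ≤ (j : ℝ) / 4 ^ n := by
      intro i j hij
      have : ((i : ℝ) + 1) ≤ j := by exact_mod_cast hij
      gcongr
    have hL : ∀ j : ℕ, (j : ℝ) / 4 ^ n ∈ Icc ((j : ℝ) / 4 ^ n) (((j : ℝ) + 1) / 4 ^ n) :=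
      fun j => ⟨le_rfl, hstep j⟩
    have hR : ∀ j : ℕ, ((j : ℝ) + 1) / 4 ^ n ∈ Icc ((j : ℝ) / 4 ^ n) (((j : ℝ) + 1) / 4 ^ n) :=
      fun j => ⟨hstep j, le_rfl⟩
    classical
    have key : ∃ u v : ℕ → ℝ, (∀ i : ℕ, i < 4 ^ n → 0 ≤ u i ∧ u i ≤ v i ∧ v i ≤ 1) ∧
        (∀ i : ℕ, i < 4 ^ n → ∀ j : ℕ, j < 4 ^ n → i < j → v i ≤ u j ∨ v j ≤ u i) ∧
        ∀ i : ℕ, i < 4 ^ n → |(i : ℝ) / 4 ^ n - r| ≤ ε / 2 → (fun t => f (B t ω)) ''
          Icc ((i : ℝ) / 4 ^ n) (((i : ℝ) + 1) / 4 ^ n) ⊆ y '' Icc (u i) (v i) := by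
      rcases hmon with hm | hm
      · refine ⟨fun i => if |(i : ℝ) / 4 ^ n - r| ≤ ε / 2 then τ ((i : ℝ) / 4 ^ n) else 0,
          fun i => if |(i : ℝ) / 4 ^ n - r| ≤ ε / 2 then τ (((i : ℝ) + 1) / 4 ^ n) else 0,
          ?_, ?_, ?_⟩
        · intro i hi
          by_cases hc : |(i : ℝ) / 4 ^ n - r| ≤ ε / 2
          · simp only [hc, if_true]
            have hs := hin i hi hc
            exact ⟨(heq _ (hs (hL i))).1.1, hm (hs (hL i)) (hs (hR i)) (hstep i),
              (heq _ (hs (hR i))).1.2⟩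
          · simp only [hc, if_false]
            norm_num
        · intro i hi j hj hij
          by_cases hc : |(i : ℝ) / 4 ^ n - r| ≤ ε / 2
          · by_cases hc' : |(j : ℝ) / 4 ^ n - r| ≤ ε / 2
            · simp only [hc, hc', if_true]
              exact Or.inl (hm (hin i hi hc (hR i)) (hin j hj hc' (hL j)) (hlt i j hij))
            · simp only [hc, hc', if_true, if_false]
              exact Or.inr (heq _ (hin i hi hc (hL i))).1.1
          · by_cases hc' : |(j : ℝ) / 4 ^ n - r| ≤ ε / 2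
            · simp only [hc, hc', if_true, if_false]
              exact Or.inl (heq _ (hin j hj hc' (hL j))).1.1
            · simp only [hc, hc', if_false]
              exact Or.inl le_rfl
        · rintro i hi hc _ ⟨t, ht, rfl⟩
          simp only [hc, if_true]
          have hs := hin i hi hc
          exact ⟨τ t, ⟨hm (hs (hL i)) (hs ht) ht.1, hm (hs ht) (hs (hR i)) ht.2⟩,
            (heq t (hs ht)).2.symm⟩
      · refine ⟨fun i => if |(i : ℝ) / 4 ^ n - r| ≤ ε / 2 then τ (((i : ℝ) + 1) / 4 ^ n) else 0,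
          fun i => if |(i : ℝ) / 4 ^ n - r| ≤ ε / 2 then τ ((i : ℝ) / 4 ^ n) else 0,
          ?_, ?_, ?_⟩
        · intro i hi
          by_cases hc : |(i : ℝ) / 4 ^ n - r| ≤ ε / 2
          · simp only [hc, if_true]
            have hs := hin i hi hc
            exact ⟨(heq _ (hs (hR i))).1.1, hm (hs (hL i)) (hs (hR i)) (hstep i),
              (heq _ (hs (hL i))).1.2⟩
          · simp only [hc, if_false]
            norm_num
        · intro i hi j hj hij
          by_cases hc : |(i : ℝ) / 4 ^ n - r| ≤ ε / 2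
          · by_cases hc' : |(j : ℝ) / 4 ^ n - r| ≤ ε / 2
            · simp only [hc, hc', if_true]
              exact Or.inr (hm (hin i hi hc (hR i)) (hin j hj hc' (hL j)) (hlt i j hij))
            · simp only [hc, hc', if_true, if_false]
              exact Or.inr (heq _ (hin i hi hc (hR i))).1.1
          · by_cases hc' : |(j : ℝ) / 4 ^ n - r| ≤ ε / 2
            · simp only [hc, hc', if_true, if_false]
              exact Or.inl (heq _ (hin j hj hc' (hR j))).1.1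
            · simp only [hc, hc', if_false]
              exact Or.inl le_rfl
        · rintro i hi hc _ ⟨t, ht, rfl⟩
          simp only [hc, if_true]
          have hs := hin i hi hc
          exact ⟨τ t, ⟨hm (hs ht) (hs (hR i)) ht.2, hm (hs (hL i)) (hs ht) ht.1⟩,
            (heq t (hs ht)).2.symm⟩
    obtain ⟨u, v, k1, k2, k3⟩ := key
    calc _ ≤ ∑ i ∈ (Finset.range (4 ^ n)).filter (fun j : ℕ => |(j : ℝ) / 4 ^ n - r| ≤ ε / 2),
          (Metric.diam (y '' Icc (u i) (v i))) ^ 2 := by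
          refine Finset.sum_le_sum fun i hi => ?_
          rw [Finset.mem_filter, Finset.mem_range] at hi
          exact pow_le_pow_left₀ Metric.diam_nonneg (Metric.diam_mono (k3 i hi.1 hi.2)
            (hbd (u i) (v i) (k1 i hi.1).1 (k1 i hi.1).2.2)) 2
      _ ≤ ∑ i ∈ Finset.range (4 ^ n), (Metric.diam (y '' Icc (u i) (v i))) ^ 2 :=
          Finset.sum_le_sum_of_subset_of_nonneg (Finset.filter_subset _ _)
            fun i _ _ => sq_nonneg _
      _ ≤ 100 * C ^ 2 * ((n : ℝ) + 1) ^ (2 * b') :=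
          MC3M.sum_mod b0 b1.le n u v k1 k2 hmod'
      _ ≤ (100 * C ^ 2 + 4 ^ n₀ * Δ ^ 2) * ((n : ℝ) + 1) ^ (2 * b') := by
          refine mul_le_mul_of_nonneg_right ?_ (by positivity)
          have : 0 ≤ 4 ^ n₀ * Δ ^ 2 := by positivity
          linarith

end Pool.Agent.Lib.MP_8b264c_pr.QV2
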