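import Pool.Agent.Lib.MP_8b264c_pr.QV2.Spec

/-!
# MKV: the Markov property
-/

set_option autoImplicit false

open MeasureTheory Set ProbabilityTheory Filter Topology

namespace Pool.Agent.Lib.MP_8b264c_pr.QV2

open Pool.Agent.BMR Pool.Agent.Lib.MP_8b264c_pr.QV

theorem specMKV (hIND : SpecIND) (hFUB : SpecFUB) : SpecMKV := by
  intro Ω _ P _ B hB s hs
  obtain ⟨hmeas, hindep⟩ := hIND Ω P B hB
  have hv1 : ∀ q : ℚ, max 0 (min (q : ℝ) s) ∈ Icc (0 : ℝ) 1 := fun q =>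
    ⟨le_max_left _ _, max_le zero_le_one ((min_le_right _ _).trans hs.2)⟩
  have hv2 : ∀ q : ℚ, max s (min (q : ℝ) 1) ∈ Icc (0 : ℝ) 1 := fun q =>
    ⟨hs.1.trans (le_max_left _ _), max_le hs.2 (min_le_right _ _)⟩
  have hX : AEMeasurable (pst B s) P := by
    rw [aemeasurable_pi_iff]
    intro q
    exact hmeas _ (hv1 q)
  have hY : AEMeasurable (fut B s) P := by
    rw [aemeasurable_pi_iff]
    intro q
    exact (hmeas _ (hv2 q)).sub (hmeas _ hs)
  refine ⟨⟨hX, hY⟩, ?_⟩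
  have h := hindep ℚ ℚ (fun _ => 0) (fun q => max 0 (min (q : ℝ) s)) (fun _ => s)
    (fun q => max s (min (q : ℝ) 1)) (fun q => ⟨le_rfl, (hv1 q).1, (hv1 q).2⟩)
    (fun q => ⟨hs.1, le_max_left _ _, (hv2 q).2⟩)
    (fun i j => Or.inl (max_le hs.1 (min_le_right _ _)))
  have e1 : (fun ω (i : ℚ) => B (max 0 (min (i : ℝ) s)) ω - B 0 ω) = pst B s := by
    funext ω i
    simp only [pst, hB.zero ω, sub_zero]
  have e2 : (fun ω (j : ℚ) => B (max s (min (j : ℝ) 1)) ω - B s ω) = fut B s := by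
    funext ω j
    rfl
  rw [e1, e2] at h
  exact fun F hF => hFUB Ω P (ℚ → ℂ) (ℚ → ℂ) (pst B s) (fut B s) hX hY h F hF

end Pool.Agent.Lib.MP_8b264c_pr.QV2
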