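import Pool.Agent.Lib.MP_8b264c_pr.QV2.Spec

set_option autoImplicit false

open MeasureTheory Set ProbabilityTheory Filter Topology

namespace Pool.Agent.Lib.MP_8b264c_pr.QV2

open Pool.Agent.BMR Pool.Agent.Lib.MP_8b264c_pr.QV

namespace MSRM

lemma meas_cp (n : ℕ) : Measurable (cp n) := by
  unfold cp
  refine Measurable.prodMk ?_ ?_
  · exact Int.measurable_floor.comp (Complex.measurable_re.const_mul _)
  · exact Int.measurable_floor.comp (Complex.measurable_im.const_mul _)

lemma cont_rel (n : ℕ) (c : ℤ × ℤ) : Continuous (rel n c) := by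
  have h : rel n c = fun z : ℂ => ((2 ^ n * z.re - c.1 : ℝ) : ℂ) +
      ((2 ^ n * z.im - c.2 : ℝ) : ℂ) * Complex.I := by
    funext z
    simp only [rel, Complex.mk_eq_add_mul_I]
  rw [h]
  fun_prop

lemma cont_way (k : ℕ) : Continuous (fun z : ℂ => way z k) := by
  match k with
  | 0 => simp only [way]; exact continuous_id
  | 1 => simp only [way]; exact continuous_const
  | 2 => simp only [way]; exact continuous_const
  | 3 => simp only [way]; exact continuous_const
  | 4 => simp only [way]; exact continuous_const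
  | 5 => simp only [way]; exact continuous_const
  | 6 => simp only [way]; exact continuous_const
  | 7 => simp only [way]; exact continuous_const
  | (m + 8) => simp only [way]; exact continuous_const

lemma cont_route (t : ℝ) : Continuous (fun z : ℂ => route z t) := by
  unfold route
  refine continuous_id.add (continuous_finsetSum _ fun k _ => ?_)
  exact continuous_const.mul ((cont_way (k + 1)).sub (cont_way k))

lemma meas_near {α : Type} [MeasurableSpace α] {f g : α → ℂ} (hf : Measurable f)
    (hg : Measurable g) (r : ℝ) : MeasurableSet {x | Near (f x) (g x) r} := by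
  have h1 : Measurable fun x => |(f x).re - (g x).re| :=
    ((Complex.measurable_re.comp hf).sub (Complex.measurable_re.comp hg)).abs
  have h2 : Measurable fun x => |(f x).im - (g x).im| :=
    ((Complex.measurable_im.comp hf).sub (Complex.measurable_im.comp hg)).abs
  have : {x | Near (f x) (g x) r} =
      {x | |(f x).re - (g x).re| ≤ r} ∩ {x | |(f x).im - (g x).im| ≤ r} := by
    ext x
    simp [Near]
  rw [this]
  exact (measurableSet_le h1 measurable_const).inter (measurableSet_le h2 measurable_const)

lemma meas_hub (n : ℕ) (c : ℤ × ℤ) (k : ℕ) : MeasurableSet {ξ : ℚ → ℂ | hub ξ n c k} := by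
  have h : {ξ : ℚ → ℂ | hub ξ n c k} =
      {ξ : ℚ → ℂ | cp n (ξ ((k : ℚ) / 4 ^ n)) = c} ∩
      ⋂ q : ℚ, ⋂ (_ : 0 ≤ q), ⋂ (_ : q ≤ 1),
        {ξ : ℚ → ℂ | Near (rel n c (ξ (((k : ℚ) + q) / 4 ^ n)))
          (route (rel n c (ξ ((k : ℚ) / 4 ^ n))) (q : ℝ)) (1 / 2)} := by
    ext ξ
    simp only [hub, mem_ofPred_eq, mem_inter_iff, mem_iInter]
  rw [h]
  refine MeasurableSet.inter ?_ ?_
  · exact ((meas_cp n).comp (measurable_pi_apply _)) (measurableSet_singleton c)
  · refine MeasurableSet.iInter fun q => MeasurableSet.iInter fun _ => MeasurableSet.iInter fun _ => ?_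
    refine meas_near ?_ ?_ _
    · exact (cont_rel n c).measurable.comp (measurable_pi_apply _)
    · exact (cont_route (q : ℝ)).measurable.comp
        ((cont_rel n c).measurable.comp (measurable_pi_apply _))

lemma meas_cnt (n : ℕ) (c : ℤ × ℤ) (k L : ℕ) :
    Measurable (fun ξ : ℚ → ℂ => cnt ξ n c k L) := by
  classical
  have h : (fun ξ : ℚ → ℂ => cnt ξ n c k L) =
      fun ξ : ℚ → ℂ => ∑ i ∈ Finset.Ico k (k + L), if hub ξ n c i then 1 else 0 := by
    funext ξ
    unfold cnt
    rw [Finset.card_filter]
  rw [h]
  refine Finset.measurable_sum _ fun i _ => ?_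
  exact Measurable.ite (meas_hub n c i) measurable_const measurable_const

end MSRM

open MSRM in
theorem specMSR : SpecMSR := by
  refine ⟨meas_cp, meas_hub, fun n c k L a => ?_⟩
  exact measurableSet_lt (meas_cnt n c k L) measurable_const

end Pool.Agent.Lib.MP_8b264c_pr.QV2
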