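import Pool.Agent.Lib.MP_8b264c_pr.QV2.Spec
import Pool.Agent.Lib.MP_8b264c_pr.QV.MOM

/-!
# MP_8b264c_pr, QV2, module OSU: a uniform maximal inequality
-/

set_option autoImplicit false

open MeasureTheory Set ProbabilityTheory Filter Topology

namespace Pool.Agent.Lib.MP_8b264c_pr.QV2

open Pool.Agent.BMR Pool.Agent.Lib.MP_8b264c_pr.QV

namespace OSUM

private theorem dyadic {γ : ℝ → ℂ} {s h M ρ : ℝ} (hρ : 0 ≤ ρ)
    (H : ∀ l i : ℕ, i < 2 ^ l →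
      ‖γ (s + (i + 1) * (h / 2 ^ l)) - γ (s + i * (h / 2 ^ l))‖ ≤ M * ρ ^ l) :
    ∀ l i : ℕ, i ≤ 2 ^ l →
      ‖γ (s + i * (h / 2 ^ l)) - γ s‖ ≤ M * ∑ k ∈ Finset.range (l + 1), ρ ^ k := by
  have hM : 0 ≤ M := by
    have := H 0 0 (by norm_num)
    simpa using (norm_nonneg _).trans this
  intro l
  induction l with
  | zero =>
    intro i hi
    rw [pow_zero] at hi
    have hi' : i = 0 ∨ i = 1 := by omega
    rcases hi' with rfl | rfl
    · simpa using hM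
    · simpa using H 0 0 (by norm_num)
  | succ l ih =>
    intro i hi
    rw [Finset.sum_range_succ, mul_add]
    obtain ⟨i', rfl | rfl⟩ := Nat.even_or_odd' i
    · have e : s + ((2 * i' : ℕ) : ℝ) * (h / 2 ^ (l + 1)) = s + i' * (h / 2 ^ l) := by
        push_cast
        rw [pow_succ]
        field_simp
      rw [e]
      have h1 := ih i' (by rw [pow_succ] at hi; omega)
      have h2 := mul_nonneg hM (pow_nonneg hρ (l + 1))
      linarith
    · have e : s + ((2 * i' : ℕ) : ℝ) * (h / 2 ^ (l + 1)) = s + i' * (h / 2 ^ l) := by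
        push_cast
        rw [pow_succ]
        field_simp
      have h1 := H (l + 1) (2 * i') (by omega)
      rw [e] at h1
      have h2 := ih i' (by rw [pow_succ] at hi; omega)
      have e3 : (((2 * i' : ℕ) : ℝ) + 1) = ((2 * i' + 1 : ℕ) : ℝ) := by push_cast; ring
      rw [e3] at h1
      have e2 : γ (s + ((2 * i' + 1 : ℕ) : ℝ) * (h / 2 ^ (l + 1))) - γ s =
          (γ (s + ((2 * i' + 1 : ℕ) : ℝ) * (h / 2 ^ (l + 1))) - γ (s + i' * (h / 2 ^ l))) +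
          (γ (s + i' * (h / 2 ^ l)) - γ s) := by ring
      rw [e2]
      refine (norm_add_le _ _).trans ?_
      linarith

private theorem chain {γ : ℝ → ℂ} {s h M ρ : ℝ} (hh : 0 < h) (hρ : 0 ≤ ρ) (hρ1 : ρ < 1)
    (hc : ContinuousOn γ (Icc s (s + h)))
    (H : ∀ l i : ℕ, i < 2 ^ l →
      ‖γ (s + (i + 1) * (h / 2 ^ l)) - γ (s + i * (h / 2 ^ l))‖ ≤ M * ρ ^ l) :
    ∀ t ∈ Icc s (s + h), ‖γ t - γ s‖ ≤ M * (1 - ρ)⁻¹ := by
  have hM : 0 ≤ M := by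
    have := H 0 0 (by norm_num)
    simpa using (norm_nonneg _).trans this
  intro t ht
  have hx0 : 0 ≤ (t - s) / h := div_nonneg (by linarith [ht.1]) hh.le
  have hx1 : (t - s) / h ≤ 1 := by rw [div_le_one hh]; linarith [ht.2]
  let N : ℕ → ℕ := fun l => ⌊(t - s) / h * 2 ^ l⌋₊
  have hN : ∀ l, N l ≤ 2 ^ l := by
    intro l
    have h2 : (t - s) / h * 2 ^ l ≤ ((2 ^ l : ℕ) : ℝ) := by
      push_cast
      have : (0 : ℝ) < 2 ^ l := by positivity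
      nlinarith
    exact (Nat.floor_le_floor h2).trans (by rw [Nat.floor_natCast])
  have hlo : ∀ l, (N l : ℝ) * (h / 2 ^ l) ≤ t - s := by
    intro l
    have h1 : (N l : ℝ) ≤ (t - s) / h * 2 ^ l := Nat.floor_le (by positivity)
    have h2 : (0 : ℝ) < h / 2 ^ l := by positivity
    calc (N l : ℝ) * (h / 2 ^ l) ≤ ((t - s) / h * 2 ^ l) * (h / 2 ^ l) :=
          mul_le_mul_of_nonneg_right h1 h2.le
      _ = t - s := by field_simp
  have hhi : ∀ l, t - s - h / 2 ^ l ≤ (N l : ℝ) * (h / 2 ^ l) := by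
    intro l
    have h1 : (t - s) / h * 2 ^ l < (N l : ℝ) + 1 := Nat.lt_floor_add_one _
    have h2 : (0 : ℝ) < h / 2 ^ l := by positivity
    have h3 : ((t - s) / h * 2 ^ l) * (h / 2 ^ l) ≤ ((N l : ℝ) + 1) * (h / 2 ^ l) :=
      mul_le_mul_of_nonneg_right h1.le h2.le
    have h4 : ((t - s) / h * 2 ^ l) * (h / 2 ^ l) = t - s := by field_simp
    linarith
  have hlim0 : Tendsto (fun l : ℕ => h / 2 ^ l) atTop (𝓝 0) := by
    have := (tendsto_pow_atTop_nhds_zero_of_lt_one (r := (1 / 2 : ℝ)) (by norm_num)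
      (by norm_num)).const_mul h
    simpa [div_eq_mul_inv] using this
  have hlim : Tendsto (fun l : ℕ => s + (N l : ℝ) * (h / 2 ^ l)) atTop (𝓝 t) := by
    have ha : Tendsto (fun l : ℕ => s + (t - s - h / 2 ^ l)) atTop (𝓝 t) := by
      have := (tendsto_const_nhds (x := t)).sub hlim0
      simp only [sub_zero] at this
      refine this.congr fun l => by ring
    refine tendsto_of_tendsto_of_tendsto_of_le_of_le ha tendsto_const_nhds ?_ ?_
    · intro l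
      have := hhi l
      simp only
      linarith
    · intro l
      have := hlo l
      simp only
      linarith
  have hmem : ∀ l, s + (N l : ℝ) * (h / 2 ^ l) ∈ Icc s (s + h) := by
    intro l
    have h1 := hlo l
    have h2 : 0 ≤ (N l : ℝ) * (h / 2 ^ l) := by positivity
    exact ⟨by linarith, by linarith [ht.2]⟩
  have hg : Tendsto (fun l : ℕ => γ (s + (N l : ℝ) * (h / 2 ^ l))) atTop (𝓝 (γ t)) :=
    (hc t ht).tendsto.comp
      (tendsto_nhdsWithin_iff.2 ⟨hlim, Eventually.of_forall hmem⟩)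
  have hg2 : Tendsto (fun l : ℕ => ‖γ (s + (N l : ℝ) * (h / 2 ^ l)) - γ s‖) atTop
      (𝓝 ‖γ t - γ s‖) := (hg.sub_const _).norm
  refine le_of_tendsto hg2 (Eventually.of_forall fun l => ?_)
  refine (dyadic hρ H l (N l) (hN l)).trans ?_
  refine mul_le_mul_of_nonneg_left ?_ hM
  rw [← tsum_geometric_of_lt_one hρ hρ1]
  exact (summable_geometric_of_lt_one hρ hρ1).sum_le_tsum _ (fun i _ => pow_nonneg hρ i)

/-- The increments of the chain on `[0,1]`. -/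
noncomputable def inc (γ : ℝ → ℂ) (l i : ℕ) : ℂ :=
  γ (0 + (i + 1) * (1 / 2 ^ l)) - γ (0 + i * (1 / 2 ^ l))

/-- The chaining sum. -/
noncomputable def S (γ : ℝ → ℂ) : ENNReal :=
  ∑' l : ℕ, ENNReal.ofReal ((100 / 81 : ℝ) ^ (2 * l)) *
    ∑ i ∈ Finset.range (2 ^ l), ‖inc γ l i‖ₑ ^ (2 * 2)

theorem point {γ : ℝ → ℂ} (hc : ContinuousOn γ (Icc 0 1)) {u : ℝ} (hu : u ∈ Icc (0 : ℝ) 1) :
    ENNReal.ofReal (‖γ u - γ 0‖ ^ 4) ≤ ENNReal.ofReal (10 ^ 4) * S γ := by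
  by_cases hS : S γ = ⊤
  · rw [hS, ENNReal.mul_top (by simp)]
    exact le_top
  set σ := (S γ).toReal with hσ
  have hσ0 : 0 ≤ σ := ENNReal.toReal_nonneg
  have hSσ : S γ = ENNReal.ofReal σ := (ENNReal.ofReal_toReal hS).symm
  set M : ℝ := σ ^ (1 / ((4 : ℕ) : ℝ)) with hMd
  have hM0 : 0 ≤ M := Real.rpow_nonneg hσ0 _
  have hMq : M ^ 4 = σ := by
    rw [hMd, one_div]
    exact Real.rpow_inv_natCast_pow hσ0 (by norm_num)
  have H : ∀ l i : ℕ, i < 2 ^ l →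
      ‖γ (0 + (i + 1) * (1 / 2 ^ l)) - γ (0 + i * (1 / 2 ^ l))‖ ≤ M * (9 / 10) ^ l := by
    intro l i hi
    have h1 : ENNReal.ofReal ((100 / 81 : ℝ) ^ (2 * l)) * ‖inc γ l i‖ₑ ^ (2 * 2) ≤
        ENNReal.ofReal σ := by
      rw [← hSσ]
      refine le_trans ?_ (ENNReal.le_tsum l)
      gcongr
      exact Finset.single_le_sum (f := fun i => ‖inc γ l i‖ₑ ^ (2 * 2))
        (fun _ _ => zero_le) (Finset.mem_range.2 hi)
    have h2 : (100 / 81 : ℝ) ^ (2 * l) * ‖inc γ l i‖ ^ (2 * 2) ≤ σ := by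
      have e : ENNReal.ofReal ((100 / 81 : ℝ) ^ (2 * l)) * ‖inc γ l i‖ₑ ^ (2 * 2) =
          ENNReal.ofReal ((100 / 81 : ℝ) ^ (2 * l) * ‖inc γ l i‖ ^ (2 * 2)) := by
        rw [ENNReal.ofReal_mul (by positivity), ENNReal.ofReal_pow (norm_nonneg _),
          ofReal_norm]
      rw [e] at h1
      exact (ENNReal.ofReal_le_ofReal_iff hσ0).1 h1
    have h3 : ‖inc γ l i‖ ^ 4 ≤ (M * (9 / 10) ^ l) ^ 4 := by
      have e5 : ((9 / 10 : ℝ) ^ l) ^ 4 = ((9 / 10 : ℝ) ^ 2) ^ (2 * l) := by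
        rw [← pow_mul, ← pow_mul]
        congr 1
        ring
      rw [mul_pow, hMq, e5]
      have e4 : ((9 / 10 : ℝ) ^ 2) ^ (2 * l) * (100 / 81 : ℝ) ^ (2 * l) = 1 := by
        rw [← mul_pow]
        norm_num
      have hp : (0 : ℝ) < ((9 / 10 : ℝ) ^ 2) ^ (2 * l) := by positivity
      calc ‖inc γ l i‖ ^ 4
          = ((9 / 10 : ℝ) ^ 2) ^ (2 * l) *
            ((100 / 81 : ℝ) ^ (2 * l) * ‖inc γ l i‖ ^ (2 * 2)) := by
              rw [← mul_assoc, e4, one_mul]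
        _ ≤ ((9 / 10 : ℝ) ^ 2) ^ (2 * l) * σ := mul_le_mul_of_nonneg_left h2 hp.le
        _ = σ * ((9 / 10 : ℝ) ^ 2) ^ (2 * l) := mul_comm _ _
    exact (pow_le_pow_iff_left₀ (norm_nonneg _) (by positivity) (by norm_num)).1 h3
  have hch := chain (γ := γ) (s := 0) (h := 1) one_pos (by norm_num : (0 : ℝ) ≤ 9 / 10)
    (by norm_num) (by rw [zero_add]; exact hc) H u (by rw [zero_add]; exact hu)
  have e : M * (1 - 9 / 10 : ℝ)⁻¹ = 10 * M := by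
    norm_num
    ring
  rw [e] at hch
  rw [hSσ, ← ENNReal.ofReal_mul (by norm_num)]
  refine ENNReal.ofReal_le_ofReal ?_
  calc ‖γ u - γ 0‖ ^ 4 ≤ (10 * M) ^ 4 := by gcongr
    _ = 10 ^ 4 * σ := by rw [← hMq]; ring

variable {Ω : Type} [MeasurableSpace Ω] {P : Measure Ω}

theorem moment {Y : ℝ → Ω → ℂ} (hY : IsPBM P Y) {C₁ : ℝ} (hC₁0 : 0 ≤ C₁)
    (hmom : ∀ s ∈ Icc (0 : ℝ) 1, ∀ t ∈ Icc (0 : ℝ) 1,
      ∫⁻ ω, ‖Y t ω - Y s ω‖ₑ ^ (2 * 2) ∂P ≤ ENNReal.ofReal (C₁ * |t - s| ^ 2)) :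
    AEMeasurable (fun ω => S (fun t => Y t ω)) P ∧
      ∫⁻ ω, S (fun t => Y t ω) ∂P ≤ ENNReal.ofReal (C₁ * (1 - 2 * (50 / 81) ^ 2)⁻¹) := by
  set r : ℝ := 2 * (50 / 81) ^ 2 with hr
  have hr0 : 0 ≤ r := by positivity
  have hr1 : r < 1 := by
    rw [hr]
    norm_num
  have hmemt : ∀ l i : ℕ, i ≤ 2 ^ l → 0 + (i : ℝ) * (1 / 2 ^ l) ∈ Icc (0 : ℝ) 1 := by
    intro l i hi
    have h1 : (i : ℝ) ≤ 2 ^ l := by exact_mod_cast hi
    have h5 : (0 : ℝ) < 2 ^ l := by positivity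
    refine ⟨by positivity, ?_⟩
    rw [zero_add, mul_one_div, div_le_one h5]
    exact h1
  have hmeas : ∀ l i : ℕ, i < 2 ^ l →
      AEMeasurable (fun ω => ‖inc (fun t => Y t ω) l i‖ₑ ^ (2 * 2)) P := by
    intro l i hi
    unfold inc
    have h1 := MOMM.aemeas hY (hmemt l (i + 1) hi)
    push_cast at h1
    exact (h1.sub (MOMM.aemeas hY (hmemt l i hi.le))).enorm.pow_const _
  have hmeasl : ∀ l : ℕ,
      AEMeasurable (fun ω => ENNReal.ofReal ((100 / 81 : ℝ) ^ (2 * l)) *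
        ∑ i ∈ Finset.range (2 ^ l), ‖inc (fun t => Y t ω) l i‖ₑ ^ (2 * 2)) P := by
    intro l
    exact (Finset.aemeasurable_fun_sum _ fun i hi =>
      hmeas l i (Finset.mem_range.1 hi)).const_mul _
  refine ⟨AEMeasurable.tsum hmeasl, ?_⟩
  unfold S
  rw [lintegral_tsum hmeasl]
  have hl : ∀ l : ℕ, ∫⁻ ω, ENNReal.ofReal ((100 / 81 : ℝ) ^ (2 * l)) *
      ∑ i ∈ Finset.range (2 ^ l), ‖inc (fun t => Y t ω) l i‖ₑ ^ (2 * 2) ∂P ≤
      ENNReal.ofReal (C₁ * r ^ l) := by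
    intro l
    rw [lintegral_const_mul' _ _ ENNReal.ofReal_ne_top,
      lintegral_finsetSum' _ fun i hi => hmeas l i (Finset.mem_range.1 hi)]
    have hb : ∀ i ∈ Finset.range (2 ^ l),
        ∫⁻ ω, ‖inc (fun t => Y t ω) l i‖ₑ ^ (2 * 2) ∂P ≤
        ENNReal.ofReal (C₁ * (1 / 2 ^ l) ^ 2) := by
      intro i hi
      have hi' := Finset.mem_range.1 hi
      have h1 := hmemt l (i + 1) hi'
      push_cast at h1
      have h2 := hmom _ (hmemt l i hi'.le) _ h1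
      have e : |0 + ((i : ℝ) + 1) * (1 / 2 ^ l) -
          (0 + (i : ℝ) * (1 / 2 ^ l))| = 1 / 2 ^ l := by
        rw [show 0 + ((i : ℝ) + 1) * (1 / 2 ^ l) -
          (0 + (i : ℝ) * (1 / 2 ^ l)) = 1 / 2 ^ l by ring]
        exact abs_of_nonneg (by positivity)
      rw [e] at h2
      exact h2
    refine (mul_le_mul_right (Finset.sum_le_sum hb) _).trans ?_
    rw [Finset.sum_const, Finset.card_range, nsmul_eq_mul,
      show ((2 ^ l : ℕ) : ENNReal) = ENNReal.ofReal (2 ^ l) by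
        rw [ENNReal.ofReal_pow (by norm_num)]; norm_num,
      ← ENNReal.ofReal_mul (by positivity), ← ENNReal.ofReal_mul (by positivity)]
    refine ENNReal.ofReal_le_ofReal (le_of_eq ?_)
    rw [hr, mul_pow 2, ← pow_mul (50 / 81 : ℝ), pow_mul (100 / 81 : ℝ)]
    have e1 : ((2 : ℝ) ^ l) ^ 2 ≠ 0 := by positivity
    have e2 : (50 / 81 : ℝ) ^ (2 * l) = ((100 / 81 : ℝ) ^ 2) ^ l / ((2 : ℝ) ^ l) ^ 2 := by
      rw [← pow_mul, ← pow_mul, mul_comm l 2, ← div_pow]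
      norm_num
    rw [e2]
    field_simp
  calc ∑' l : ℕ, ∫⁻ ω, ENNReal.ofReal ((100 / 81 : ℝ) ^ (2 * l)) *
        ∑ i ∈ Finset.range (2 ^ l), ‖inc (fun t => Y t ω) l i‖ₑ ^ (2 * 2) ∂P
      ≤ ∑' l : ℕ, ENNReal.ofReal (C₁ * r ^ l) := ENNReal.tsum_le_tsum hl
    _ = ENNReal.ofReal (∑' l : ℕ, C₁ * r ^ l) :=
        (ENNReal.ofReal_tsum_of_nonneg (fun l => by positivity)
          ((summable_geometric_of_lt_one hr0 hr1).mul_left _)).symm
    _ = ENNReal.ofReal (C₁ * (1 - r)⁻¹) := by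
        rw [tsum_mul_left, tsum_geometric_of_lt_one hr0 hr1]

/-- The maximal inequality on `[0,1]`. -/
theorem unit {Y : ℝ → Ω → ℂ} (hY : IsPBM P Y) {C₁ : ℝ} (hC₁0 : 0 ≤ C₁)
    (hmom : ∀ s ∈ Icc (0 : ℝ) 1, ∀ t ∈ Icc (0 : ℝ) 1,
      ∫⁻ ω, ‖Y t ω - Y s ω‖ₑ ^ (2 * 2) ∂P ≤ ENNReal.ofReal (C₁ * |t - s| ^ 2))
    {l : ℝ} (hl : 0 < l) :
    P {ω | ∃ u ∈ Icc (0 : ℝ) 1, l < ‖Y u ω‖} ≤
      ENNReal.ofReal (10 ^ 4 * (C₁ * (1 - 2 * (50 / 81) ^ 2)⁻¹) / l ^ 4) := by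
  obtain ⟨hm, hi⟩ := moment hY hC₁0 hmom
  have hm' : AEMeasurable (fun ω => ENNReal.ofReal (10 ^ 4) * S (fun t => Y t ω)) P :=
    hm.const_mul _
  have hl4 : (0 : ℝ) < l ^ 4 := by positivity
  have hsub : {ω | ∃ u ∈ Icc (0 : ℝ) 1, l < ‖Y u ω‖} ⊆
      {ω | ENNReal.ofReal (l ^ 4) ≤ ENNReal.ofReal (10 ^ 4) * S (fun t => Y t ω)} := by
    rintro ω ⟨u, hu, hlu⟩
    refine le_trans (ENNReal.ofReal_le_ofReal ?_) (point (γ := fun t => Y t ω)
      ((hY.cont ω).continuousOn) hu)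
    have e0 : Y 0 ω = 0 := hY.zero ω
    simp only [e0, sub_zero]
    exact pow_le_pow_left₀ hl.le hlu.le 4
  refine (measure_mono hsub).trans ?_
  refine (meas_ge_le_lintegral_div hm' (ENNReal.ofReal_pos.2 hl4).ne' ENNReal.ofReal_ne_top).trans ?_
  rw [ENNReal.ofReal_div_of_pos hl4]
  refine ENNReal.div_le_div_right ?_ _
  rw [lintegral_const_mul' _ _ ENNReal.ofReal_ne_top, ENNReal.ofReal_mul (by norm_num)]
  exact mul_le_mul_right hi _

end OSUM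

open OSUM in
theorem specOSU : SpecOSU := by
  set C₀ : ENNReal := 2 ^ 2 * (MOMM.mo 2 + MOMM.mo 2) with hC₀
  have hfin : C₀ ≠ ⊤ :=
    ENNReal.mul_ne_top (ENNReal.pow_ne_top (by norm_num))
      (ENNReal.add_ne_top.2 ⟨(MOMM.mo_lt 2).ne, (MOMM.mo_lt 2).ne⟩)
  set C₁ : ℝ := C₀.toReal with hC₁
  have hC₁0 : 0 ≤ C₁ := ENNReal.toReal_nonneg
  set D : ℝ := 10 ^ 4 * (C₁ * (1 - 2 * (50 / 81) ^ 2)⁻¹) with hD
  have hD0 : 0 ≤ D := by
    have : (0 : ℝ) ≤ (1 - 2 * (50 / 81) ^ 2)⁻¹ := by norm_num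
    positivity
  refine ⟨D + 1, by linarith, ?_⟩
  intro Ω _ P _ B hB s t l hs hst ht hl
  have hd : 0 < t - s := sub_pos.2 hst
  have hY := hB.isPBM_seg hs hst ht
  have hmom : ∀ s' ∈ Icc (0 : ℝ) 1, ∀ t' ∈ Icc (0 : ℝ) 1,
      ∫⁻ ω, ‖seg B s t t' ω - seg B s t s' ω‖ₑ ^ (2 * 2) ∂P ≤
        ENNReal.ofReal (C₁ * |t' - s'| ^ 2) := by
    intro s' hs' t' ht'
    refine (MOMM.inc_mom' hY 2 (by norm_num) (fun B' h' => MOMM.one_mom h' 2) hs' ht').trans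
      (le_of_eq ?_)
    rw [ENNReal.ofReal_mul hC₁0, ENNReal.ofReal_toReal hfin]
  have hsq : 0 < Real.sqrt (t - s) := Real.sqrt_pos.2 hd
  have hl' : 0 < l / Real.sqrt (t - s) := div_pos hl hsq
  have hu := unit hY hC₁0 hmom hl'
  refine le_trans (measure_mono ?_) (hu.trans (ENNReal.ofReal_le_ofReal ?_))
  · rintro ω ⟨u, hu, hlu⟩
    refine ⟨(u - s) / (t - s), ⟨div_nonneg (by linarith [hu.1]) hd.le, ?_⟩, ?_⟩
    · rw [div_le_one hd]
      linarith [hu.2]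
    · have e1 : s + (u - s) / (t - s) * (t - s) = u := by
        rw [div_mul_cancel₀ _ hd.ne']
        ring
      unfold seg
      rw [e1, norm_mul, Complex.norm_real, Real.norm_of_nonneg (inv_nonneg.2 hsq.le),
        div_eq_inv_mul]
      exact mul_lt_mul_of_pos_left hlu (inv_pos.2 hsq)
  · have e4 : (Real.sqrt (t - s)) ^ 4 = (t - s) ^ 2 := by
      rw [show 4 = 2 * 2 by norm_num, pow_mul, Real.sq_sqrt hd.le]
    rw [← hD, div_pow, e4, div_div_eq_mul_div]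
    refine div_le_div_of_nonneg_right ?_ (by positivity)
    exact mul_le_mul_of_nonneg_right (by linarith) (by positivity)

end Pool.Agent.Lib.MP_8b264c_pr.QV2
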