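import Pool.Agent.Lib.MP_8b264c_pr.QV2.Spec

/-!
# ROU: a hub is a circuit
-/

set_option autoImplicit false

open MeasureTheory Set ProbabilityTheory Filter Topology

namespace Pool.Agent.Lib.MP_8b264c_pr.QV2

open Pool.Agent.BMR Pool.Agent.Lib.MP_8b264c_pr.QV

namespace ROUM

lemma cl_one {x : ℝ} (h : 1 ≤ x) : cl x = 1 := by
  unfold cl
  rw [min_eq_left h, max_eq_right zero_le_one]

lemma cl_zero {x : ℝ} (h : x ≤ 0) : cl x = 0 := by
  unfold cl
  rw [min_eq_right (h.trans zero_le_one), max_eq_left h]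

lemma cl_id {x : ℝ} (h0 : 0 ≤ x) (h1 : x ≤ 1) : cl x = x := by
  unfold cl
  rw [min_eq_right h1, max_eq_right h0]

lemma cl_cont : Continuous cl := by
  unfold cl
  fun_prop

lemma route_re (z : ℂ) (t : ℝ) : (route z t).re =
    z.re + ∑ k ∈ Finset.range 8, cl (8 * t - k) * ((way z (k + 1)).re - (way z k).re) := by
  unfold route
  rw [Complex.add_re, Complex.re_sum]
  congr 1
  refine Finset.sum_congr rfl fun k _ => ?_
  rw [Complex.re_ofReal_mul, Complex.sub_re]

lemma route_im (z : ℂ) (t : ℝ) : (route z t).im =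
    z.im + ∑ k ∈ Finset.range 8, cl (8 * t - k) * ((way z (k + 1)).im - (way z k).im) := by
  unfold route
  rw [Complex.add_im, Complex.im_sum]
  congr 1
  refine Finset.sum_congr rfl fun k _ => ?_
  rw [Complex.im_ofReal_mul, Complex.sub_im]

/-- The route on the `j`-th interval, one coordinate. -/
lemma route_seg (w : ℕ → ℝ) (j : ℕ) (hj : j < 8) (t : ℝ) (h0 : (j : ℝ) ≤ 8 * t)
    (h1 : 8 * t ≤ j + 1) :
    w 0 + ∑ k ∈ Finset.range 8, cl (8 * t - k) * (w (k + 1) - w k) =
      w j + (8 * t - j) * (w (j + 1) - w j) := by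
  have e1 : ∑ k ∈ Finset.range 8, cl (8 * t - k) * (w (k + 1) - w k) =
      ∑ k ∈ Finset.range 8, ((if k < j then (w (k + 1) - w k) else 0) +
        (if k = j then (8 * t - j) * (w (j + 1) - w j) else 0)) := by
    refine Finset.sum_congr rfl fun k _ => ?_
    rcases lt_trichotomy k j with h | h | h
    · rw [if_pos h, if_neg h.ne, add_zero, cl_one, one_mul]
      have : (k : ℝ) + 1 ≤ j := by exact_mod_cast h
      linarith
    · subst h
      rw [if_neg (lt_irrefl _), if_pos rfl, zero_add, cl_id (by linarith) (by linarith)]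
    · rw [if_neg (by omega), if_neg (by omega), add_zero, cl_zero, zero_mul]
      have : (j : ℝ) + 1 ≤ k := by exact_mod_cast h
      linarith
  rw [e1, Finset.sum_add_distrib, Finset.sum_ite_eq' (Finset.range 8) j,
    if_pos (Finset.mem_range.mpr hj), ← Finset.sum_filter]
  have e2 : (Finset.range 8).filter (fun k => k < j) = Finset.range j := by
    ext k
    simp only [Finset.mem_filter, Finset.mem_range]
    omega
  rw [e2, Finset.sum_range_sub w j]
  ring

lemma seg_re (z : ℂ) (j : ℕ) (hj : j < 8) (t : ℝ) (h0 : (j : ℝ) ≤ 8 * t)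
    (h1 : 8 * t ≤ j + 1) :
    (route z t).re = (way z j).re + (8 * t - j) * ((way z (j + 1)).re - (way z j).re) := by
  rw [route_re, ← route_seg (fun k => (way z k).re) j hj t h0 h1]
  rfl

lemma seg_im (z : ℂ) (j : ℕ) (hj : j < 8) (t : ℝ) (h0 : (j : ℝ) ≤ 8 * t)
    (h1 : 8 * t ≤ j + 1) :
    (route z t).im = (way z j).im + (8 * t - j) * ((way z (j + 1)).im - (way z j).im) := by
  rw [route_im, ← route_seg (fun k => (way z k).im) j hj t h0 h1]
  rfl

/-- Closeness at all real times. -/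
lemma near_all {β : ℝ → ℂ} {n : ℕ} {c : ℤ × ℤ} {k : ℕ} (hβ : Continuous β)
    (h : hub (rat β) n c k) : ∃ z : ℂ, ∀ s ∈ Icc (0 : ℝ) 1,
      Near (rel n c (β (((k : ℝ) + s) / 4 ^ n))) (route z s) (1 / 2) := by
  refine ⟨rel n c (rat β ((k : ℚ) / 4 ^ n)), ?_⟩
  set z : ℂ := rel n c (rat β ((k : ℚ) / 4 ^ n)) with hz
  have hc : IsClosed {s : ℝ | Near (rel n c (β (((k : ℝ) + s) / 4 ^ n))) (route z s) (1 / 2)} := by
    have c1 : Continuous fun s : ℝ => β (((k : ℝ) + s) / 4 ^ n) := hβ.comp (by fun_prop)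
    have r1 : Continuous fun s : ℝ => (route z s).re := by
      simp only [route_re]
      refine continuous_const.add (continuous_finsetSum _ fun k _ => ?_)
      exact (cl_cont.comp (by fun_prop)).mul continuous_const
    have r2 : Continuous fun s : ℝ => (route z s).im := by
      simp only [route_im]
      refine continuous_const.add (continuous_finsetSum _ fun k _ => ?_)
      exact (cl_cont.comp (by fun_prop)).mul continuous_const
    have b1 : Continuous fun s : ℝ => (rel n c (β (((k : ℝ) + s) / 4 ^ n))).re := by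
      unfold rel
      exact (continuous_const.mul (Complex.continuous_re.comp c1)).sub continuous_const
    have b2 : Continuous fun s : ℝ => (rel n c (β (((k : ℝ) + s) / 4 ^ n))).im := by
      unfold rel
      exact (continuous_const.mul (Complex.continuous_im.comp c1)).sub continuous_const
    exact (isClosed_le (b1.sub r1).abs continuous_const).inter
      (isClosed_le (b2.sub r2).abs continuous_const)
  have hd : Icc (0 : ℝ) 1 ⊆ closure (Ioo (0 : ℝ) 1 ∩ range ((↑) : ℚ → ℝ)) := by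
    rw [← closure_Ioo (zero_ne_one (α := ℝ))]
    exact closure_minimal (Rat.denseRange_cast.open_subset_closure_inter isOpen_Ioo) isClosed_closure
  intro s hs
  have h1 := hd hs
  refine (closure_minimal ?_ hc) h1
  rintro _ ⟨⟨q0, q1⟩, q, rfl⟩
  have q0' : (0 : ℚ) ≤ q := by
    have : (0 : ℝ) ≤ (q : ℝ) := q0.le
    exact_mod_cast this
  have q1' : q ≤ 1 := by
    have : (q : ℝ) ≤ 1 := q1.le
    exact_mod_cast this
  have h2 := h.2 q q0' q1'
  rw [← hz] at h2
  have h3 : rat β (((k : ℚ) + q) / 4 ^ n) = β (((k : ℝ) + (q : ℝ)) / 4 ^ n) := by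
    unfold rat
    push_cast
    rfl
  rw [h3] at h2
  exact h2

lemma strip {β : ℝ → ℂ} {n : ℕ} {c : ℤ × ℤ} {k : ℕ} {z : ℂ}
    (hN : ∀ s ∈ Icc (0 : ℝ) 1,
      Near (rel n c (β (((k : ℝ) + s) / 4 ^ n))) (route z s) (1 / 2)) (j : ℕ) (hj : j < 8) :
    ∃ p q : ℝ, tm n k ≤ p ∧ p ≤ q ∧ q ≤ tm n (k + 1) ∧
      (∀ t ∈ Icc p q, ∃ x : ℝ, 0 ≤ x ∧ x ≤ 1 ∧
        |(rel n c (β t)).re - ((way z j).re + x * ((way z (j + 1)).re - (way z j).re))| ≤ 1 / 2 ∧
        |(rel n c (β t)).im - ((way z j).im + x * ((way z (j + 1)).im - (way z j).im))| ≤ 1 / 2) ∧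
      |(rel n c (β p)).re - (way z j).re| ≤ 1 / 2 ∧ |(rel n c (β p)).im - (way z j).im| ≤ 1 / 2 ∧
      |(rel n c (β q)).re - (way z (j + 1)).re| ≤ 1 / 2 ∧
      |(rel n c (β q)).im - (way z (j + 1)).im| ≤ 1 / 2 := by
  have p4 : (0 : ℝ) < 4 ^ n := by positivity
  have j0 : (0 : ℝ) ≤ j := Nat.cast_nonneg j
  have j1 : (j : ℝ) + 1 ≤ 8 := by exact_mod_cast hj
  have key : ∀ s : ℝ, (j : ℝ) ≤ 8 * s → 8 * s ≤ j + 1 →
      |(rel n c (β (((k : ℝ) + s) / 4 ^ n))).re -
        ((way z j).re + (8 * s - j) * ((way z (j + 1)).re - (way z j).re))| ≤ 1 / 2 ∧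
      |(rel n c (β (((k : ℝ) + s) / 4 ^ n))).im -
        ((way z j).im + (8 * s - j) * ((way z (j + 1)).im - (way z j).im))| ≤ 1 / 2 := by
    intro s a b
    have h := hN s ⟨by linarith, by linarith⟩
    unfold Near at h
    rw [seg_re z j hj s a b, seg_im z j hj s a b] at h
    exact h
  refine ⟨((k : ℝ) + j / 8) / 4 ^ n, ((k : ℝ) + (j + 1) / 8) / 4 ^ n, ?_, ?_, ?_, ?_, ?_, ?_, ?_, ?_⟩
  · unfold tm
    exact div_le_div_of_nonneg_right (by linarith) p4.le
  · exact div_le_div_of_nonneg_right (by linarith) p4.le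
  · unfold tm
    push_cast
    exact div_le_div_of_nonneg_right (by linarith) p4.le
  · rintro t ⟨ht1, ht2⟩
    rw [div_le_iff₀ p4] at ht1
    rw [le_div_iff₀ p4] at ht2
    have h := key (t * 4 ^ n - k) (by linarith) (by linarith)
    have e : ((k : ℝ) + (t * 4 ^ n - k)) / 4 ^ n = t := by
      field_simp
      ring
    rw [e] at h
    exact ⟨8 * (t * 4 ^ n - k) - j, by linarith, by linarith, h.1, h.2⟩
  · have h := (key (j / 8) (by linarith) (by linarith)).1
    have e : 8 * ((j : ℝ) / 8) - j = 0 := by ring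
    rw [e, zero_mul, add_zero] at h
    exact h
  · have h := (key (j / 8) (by linarith) (by linarith)).2
    have e : 8 * ((j : ℝ) / 8) - j = 0 := by ring
    rw [e, zero_mul, add_zero] at h
    exact h
  · have h := (key ((j + 1) / 8) (by linarith) (by linarith)).1
    have e : 8 * (((j : ℝ) + 1) / 8) - j = 1 := by ring
    rw [e, one_mul, add_sub_cancel] at h
    exact h
  · have h := (key ((j + 1) / 8) (by linarith) (by linarith)).2
    have e : 8 * (((j : ℝ) + 1) / 8) - j = 1 := by ring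
    rw [e, one_mul, add_sub_cancel] at h
    exact h

end ROUM

open ROUM in
theorem specROU (hCIR : SpecCIR) : SpecROU := by
  intro β n c k hβ h
  refine hCIR β _ _ n c hβ ?_
  obtain ⟨z, hN⟩ := near_all hβ h
  refine ⟨?_, ?_, ?_, ?_⟩
  · obtain ⟨p, q, h1, h2, h3, h4, h5, h6, h7, h8⟩ := strip hN 1 (by norm_num)
    refine ⟨p, q, h1, h2, h3, ?_, ?_, ?_⟩
    · intro t ht
      obtain ⟨x, -, -, hx, -⟩ := h4 t ht
      have e1 : (way z 1).re = -2 := rfl
      have e2 : (way z (1 + 1)).re = -2 := rfl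
      rw [e1, e2, abs_le] at hx
      constructor <;> linarith [hx.1, hx.2]
    · have e1 : (way z 1).im = -3 := rfl
      rw [e1, abs_le] at h6
      linarith [h6.2]
    · have e1 : (way z (1 + 1)).im = 4 := rfl
      rw [e1, abs_le] at h8
      linarith [h8.1]
  · obtain ⟨p, q, h1, h2, h3, h4, h5, h6, h7, h8⟩ := strip hN 3 (by norm_num)
    refine ⟨p, q, h1, h2, h3, ?_, ?_, ?_⟩
    · intro t ht
      obtain ⟨x, -, -, -, hx⟩ := h4 t ht
      have e1 : (way z 3).im = 3 := rfl
      have e2 : (way z (3 + 1)).im = 3 := rfl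
      rw [e1, e2, abs_le] at hx
      constructor <;> linarith [hx.1, hx.2]
    · have e1 : (way z 3).re = -3 := rfl
      rw [e1, abs_le] at h5
      linarith [h5.2]
    · have e1 : (way z (3 + 1)).re = 4 := rfl
      rw [e1, abs_le] at h7
      linarith [h7.1]
  · obtain ⟨p, q, h1, h2, h3, h4, h5, h6, h7, h8⟩ := strip hN 5 (by norm_num)
    refine ⟨p, q, h1, h2, h3, ?_, ?_, ?_⟩
    · intro t ht
      obtain ⟨x, -, -, hx, -⟩ := h4 t ht
      have e1 : (way z 5).re = 3 := rfl
      have e2 : (way z (5 + 1)).re = 3 := rfl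
      rw [e1, e2, abs_le] at hx
      constructor <;> linarith [hx.1, hx.2]
    · have e1 : (way z 5).im = 4 := rfl
      rw [e1, abs_le] at h6
      linarith [h6.1]
    · have e1 : (way z (5 + 1)).im = -3 := rfl
      rw [e1, abs_le] at h8
      linarith [h8.2]
  · obtain ⟨p, q, h1, h2, h3, h4, h5, h6, h7, h8⟩ := strip hN 7 (by norm_num)
    refine ⟨p, q, h1, h2, h3, ?_, ?_, ?_⟩
    · intro t ht
      obtain ⟨x, -, -, -, hx⟩ := h4 t ht
      have e1 : (way z 7).im = -2 := rfl
      have e2 : (way z (7 + 1)).im = -2 := rfl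
      rw [e1, e2, abs_le] at hx
      constructor <;> linarith [hx.1, hx.2]
    · have e1 : (way z 7).re = 4 := rfl
      rw [e1, abs_le] at h5
      linarith [h5.1]
    · have e1 : (way z (7 + 1)).re = -3 := rfl
      rw [e1, abs_le] at h7
      linarith [h7.2]

end Pool.Agent.Lib.MP_8b264c_pr.QV2
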