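import Pool.Agent.Lib.MP_8b264c_pr.QV2.Spec
import Pool.Agent.Lib.MP_8b264c_pr.QV.SEG

/-!
# SG2: null slices for the 4-adic pieces of the trace, every exponent `γ < 2`
-/

set_option autoImplicit false

open MeasureTheory Set ProbabilityTheory Filter Topology

namespace Pool.Agent.Lib.MP_8b264c_pr.QV2

open Pool.Agent.BMR Pool.Agent.Lib.MP_8b264c_pr.QV

/-- Null slices for the 4-adic pieces. -/
def SpecSG2 : Prop :=
  ∀ (Ω : Type) [MeasurableSpace Ω] (P : Measure Ω) [IsProbabilityMeasure P] (B : ℝ → Ω → ℂ),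
    IsPBM P B → ∀ m p : ℕ, p < 4 ^ m → ∀ᵐ ω ∂P, ∀ (f : ℂ ≃ₜ ℂ) (γ : ℝ), γ < 2 →
      (∃ C : ℝ, ∀ n : ℕ, ∑ j ∈ Finset.range (4 ^ n),
        (osc (⇑f ∘ fun t => B t ω) (m + n) (p * 4 ^ n + j)) ^ 2 ≤ C * ((n : ℝ) + 1) ^ γ) →
      ∀ g h : ℂ → ℝ, (∀ z w, |g z - g w| ≤ ‖z - w‖) → (∀ z w, |h z - h w| ≤ ‖z - w‖) →
        ∀ᵐ v : ℝ, volume ((fun z => g (f z)) '' {z | z ∈ pc (fun t => B t ω) m p ∧ h z = v}) = 0

namespace SG2M

/-- The affine homeomorphism `z ↦ σ z + b`. -/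
noncomputable def aff (σ : ℝ) (hσ : σ ≠ 0) (b : ℂ) : ℂ ≃ₜ ℂ where
  toFun z := (σ : ℂ) * z + b
  invFun w := (σ : ℂ)⁻¹ * (w - b)
  left_inv z := by
    have : (σ : ℂ) ≠ 0 := by exact_mod_cast hσ
    simp only
    field_simp
    ring
  right_inv w := by
    have : (σ : ℂ) ≠ 0 := by exact_mod_cast hσ
    simp only
    field_simp
    ring
  continuous_toFun := by fun_prop
  continuous_invFun := by fun_prop

lemma exists_K {γ : ℝ} (h : γ < 2) : ∃ K : ℕ, 1 ≤ K ∧ γ < 2 * (1 - 1 / (K : ℝ)) := by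
  obtain ⟨K, hK⟩ := exists_nat_gt (2 / (2 - γ))
  have h1 : 0 < 2 / (2 - γ) := div_pos two_pos (by linarith)
  have hK0 : (0 : ℝ) < K := h1.trans hK
  refine ⟨K, by exact_mod_cast hK0, ?_⟩
  rw [div_lt_iff₀ (by linarith)] at hK
  have h2 : 2 / (K : ℝ) < 2 - γ := by
    rw [div_lt_iff₀ hK0]
    linarith
  have h3 : 2 * (1 - 1 / (K : ℝ)) = 2 - 2 / (K : ℝ) := by ring
  rw [h3]
  linarith

end SG2M

theorem specSG2 (hMOM : SpecMOM) (hVAA : SpecVAA) (hASB : SpecASB) (hASE : SpecASE) :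
    SpecSG2 := by
  intro Ω _ P _ B hB m p hp
  have p4 : (0 : ℝ) < 4 ^ m := by positivity
  set s : ℝ := tm m p with hs
  set t : ℝ := tm m (p + 1) with ht
  have hst' : t - s = 1 / 4 ^ m := by
    rw [ht, hs]
    unfold tm
    push_cast
    ring
  have hst : s < t := by
    have : 0 < t - s := by rw [hst']; positivity
    linarith
  have hs0 : 0 ≤ s := by rw [hs]; unfold tm; positivity
  have ht1 : t ≤ 1 := by
    rw [ht]
    unfold tm
    rw [div_le_one p4]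
    exact_mod_cast hp
  have hts1 : t - s ≤ 1 := by linarith
  have hsq : 0 < Real.sqrt (t - s) := Real.sqrt_pos.mpr (by linarith)
  have hsq1 : Real.sqrt (t - s) ≤ 1 := by
    rw [Real.sqrt_le_one]
    exact hts1
  have hseg := hB.isPBM_seg hs0 hst ht1
  have hall : ∀ᵐ ω ∂P, ∀ K : ℕ, 1 ≤ K → ∃ R : ℝ, 0 ≤ R ∧ ∀ ν : ℕ, 1 ≤ ν →
      ((badJ (fun u => seg B s t u ω) ν (20 * K) (aK K ν)).card : ℝ) * (ν : ℝ) ^ 16 ≤
        R * 4 ^ sc ν (20 * K) := by
    refine ae_all_iff.mpr fun K => ?_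
    by_cases hK : 1 ≤ K
    · filter_upwards [hASB K hK Ω P (seg B s t) hseg] with ω hω _
      exact hω
    · exact Eventually.of_forall fun ω hK' => absurd hK' hK
  filter_upwards [hall, hVAA Ω P (seg B s t) (hMOM Ω P (seg B s t) hseg).1 2 le_rfl] with ω hω1 hω2
  obtain ⟨CF, hCF⟩ := hω2
  intro f γ hγ hQ g h hg hh
  obtain ⟨C, hC⟩ := hQ
  obtain ⟨K, hK1, hK2⟩ := SG2M.exists_K (show max γ 0 < 2 from max_lt hγ two_pos)
  obtain ⟨R, hR, hbad⟩ := hω1 K hK1
  set σ : ℝ := Real.sqrt (t - s) with hσ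
  -- the transported homeomorphism
  set f' : ℂ ≃ₜ ℂ := (SG2M.aff σ hsq.ne' (B s ω)).trans f with hf'
  have hf'a : ∀ z : ℂ, f' z = f ((σ : ℂ) * z + B s ω) := fun z => rfl
  have hval : ∀ u : ℝ, (σ : ℂ) * seg B s t u ω + B s ω = B (s + u * (t - s)) ω := by
    intro u
    unfold seg
    rw [← mul_assoc, ← Complex.ofReal_mul, mul_inv_cancel₀ hsq.ne', Complex.ofReal_one, one_mul,
      sub_add_cancel]
  have hQ2 : ∀ n : ℕ, QS (⇑f' ∘ fun u => seg B s t u ω) n ≤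
      (|C| + |CF|) * ((n : ℝ) + 1) ^ (max γ 0) := by
    intro n
    have h1 : QS (⇑f' ∘ fun u => seg B s t u ω) n ≤ C * ((n : ℝ) + 1) ^ γ := by
      refine le_trans ?_ (hC n)
      unfold QS
      refine Finset.sum_le_sum fun j hj => ?_
      rw [Finset.mem_range] at hj
      have e1 : ∀ i : ℕ, tm (m + n) (p * 4 ^ n + i) = s + tm n i * (t - s) := by
        intro i
        rw [hst', hs]
        unfold tm
        push_cast
        rw [pow_add]
        field_simp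
      have hsub : (⇑f' ∘ fun u => seg B s t u ω) '' Icc (tm n j) (tm n (j + 1)) ⊆
          (⇑f ∘ fun t => B t ω) '' Icc (tm (m + n) (p * 4 ^ n + j))
            (tm (m + n) (p * 4 ^ n + j + 1)) := by
        rintro _ ⟨u, hu, rfl⟩
        refine ⟨s + u * (t - s), ⟨?_, ?_⟩, ?_⟩
        · rw [e1]
          have : tm n j * (t - s) ≤ u * (t - s) :=
            mul_le_mul_of_nonneg_right hu.1 (by linarith)
          linarith
        · rw [add_assoc, e1]
          have : u * (t - s) ≤ tm n (j + 1) * (t - s) :=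
            mul_le_mul_of_nonneg_right hu.2 (by linarith)
          linarith
        · simp only [Function.comp, hf'a]
          rw [hval]
      have hbd : Bornology.IsBounded ((⇑f ∘ fun t => B t ω) '' Icc (tm (m + n) (p * 4 ^ n + j))
            (tm (m + n) (p * 4 ^ n + j + 1))) :=
        (isCompact_Icc.image (f.continuous.comp (hB.cont ω))).isBounded
      have hd := Metric.diam_mono hsub hbd
      unfold osc
      have h0 : 0 ≤ Metric.diam ((⇑f' ∘ fun u => seg B s t u ω) '' Icc (tm n j) (tm n (j + 1))) :=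
        Metric.diam_nonneg
      exact pow_le_pow_left₀ h0 hd 2
    have hn1 : (1 : ℝ) ≤ (n : ℝ) + 1 := by
      have : (0 : ℝ) ≤ n := Nat.cast_nonneg n
      linarith
    calc _ ≤ C * ((n : ℝ) + 1) ^ γ := h1
      _ ≤ |C| * ((n : ℝ) + 1) ^ γ :=
          mul_le_mul_of_nonneg_right (le_abs_self C) (by positivity)
      _ ≤ |C| * ((n : ℝ) + 1) ^ (max γ 0) :=
          mul_le_mul_of_nonneg_left (Real.rpow_le_rpow_of_exponent_le hn1 (le_max_left _ _))
            (abs_nonneg C)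
      _ ≤ (|C| + |CF|) * ((n : ℝ) + 1) ^ (max γ 0) :=
          mul_le_mul_of_nonneg_right (by linarith [abs_nonneg CF]) (by positivity)
  have hF2 : ∀ n : ℕ, FS (fun u => seg B s t u ω) 2 n ≤ (|C| + |CF|) * (n + 1) ^ 2 * 4 ^ n := by
    intro n
    refine (hCF n).trans ?_
    have h3 : CF ≤ |C| + |CF| := by linarith [le_abs_self CF, abs_nonneg C]
    have h4 : (0 : ℝ) ≤ ((n : ℝ) + 1) ^ 2 * 4 ^ n := by positivity
    calc CF * (n + 1) ^ 2 * 4 ^ n = CF * (((n : ℝ) + 1) ^ 2 * 4 ^ n) := by ring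
      _ ≤ (|C| + |CF|) * (((n : ℝ) + 1) ^ 2 * 4 ^ n) := mul_le_mul_of_nonneg_right h3 h4
      _ = _ := by ring
  have hh' : ∀ z w : ℂ, |h ((σ : ℂ) * z + B s ω) - h ((σ : ℂ) * w + B s ω)| ≤ ‖z - w‖ := by
    intro z w
    refine (hh _ _).trans ?_
    have e : (σ : ℂ) * z + B s ω - ((σ : ℂ) * w + B s ω) = (σ : ℂ) * (z - w) := by ring
    rw [e, norm_mul, Complex.norm_real, Real.norm_eq_abs, abs_of_pos hsq]
    exact mul_le_of_le_one_left (norm_nonneg _) hsq1
  have slices := hASE K (max γ 0) (fun u => seg B s t u ω) f' R (|C| + |CF|) hK1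
    (le_max_right _ _) hK2 (hseg.cont ω) hR (by positivity) hbad hF2 hQ2 g
    (fun z => h ((σ : ℂ) * z + B s ω)) hg hh'
  filter_upwards [slices] with v hv
  refine measure_mono_null ?_ hv
  rintro _ ⟨w, ⟨⟨r, hr, rfl⟩, hw⟩, rfl⟩
  have hu : (r - s) / (t - s) ∈ Icc (0 : ℝ) 1 := by
    have h5 : 0 < t - s := by linarith
    constructor
    · exact div_nonneg (by linarith [hr.1]) h5.le
    · rw [div_le_one h5]
      linarith [hr.2]
  have hr' : s + (r - s) / (t - s) * (t - s) = r := by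
    have h5 : t - s ≠ 0 := by linarith
    field_simp
    ring
  refine ⟨seg B s t ((r - s) / (t - s)) ω, ⟨⟨_, hu, rfl⟩, ?_⟩, ?_⟩
  · rw [hval, hr']
    exact hw
  · simp only [hf'a]
    rw [hval, hr']

end Pool.Agent.Lib.MP_8b264c_pr.QV2
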