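import Pool.Agent.Lib.MP_8b264c_pr.QV2.Spec

/-!
# STA: stationarity of the increments
-/

set_option autoImplicit false

open MeasureTheory Set ProbabilityTheory Filter Topology

namespace Pool.Agent.Lib.MP_8b264c_pr.QV2

open Pool.Agent.BMR Pool.Agent.Lib.MP_8b264c_pr.QV

namespace STAM

/-- The index set of the coordinates. -/
abbrev T : Type := {q : ℚ // 0 ≤ q ∧ q ≤ 1} × Bool

/-- The rescaled time. -/
def uu (n k L : ℕ) (q : ℚ) : {q : ℚ // 0 ≤ q ∧ q ≤ 1} :=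
  ⟨max 0 (min 1 ((q * 4 ^ n - k) / L)), le_max_left _ _,
    max_le zero_le_one (min_le_left _ _)⟩

/-- The path rebuilt from the coordinates. -/
noncomputable def XI (w : ℂ) (d : ℝ) (n k L : ℕ) (η : T → ℝ) : ℚ → ℂ := fun q =>
  w + (Real.sqrt d : ℂ) * ((η (uu n k L q, true) : ℂ) + (η (uu n k L q, false) : ℂ) * Complex.I)

lemma XI_meas (w : ℂ) (d : ℝ) (n k L : ℕ) : Measurable (XI w d n k L) := by
  rw [measurable_pi_iff]
  intro q
  unfold XI
  have h1 : Measurable fun η : T → ℝ => (η (uu n k L q, true) : ℂ) :=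
    Complex.measurable_ofReal.comp (measurable_pi_apply _)
  have h2 : Measurable fun η : T → ℝ => (η (uu n k L q, false) : ℂ) :=
    Complex.measurable_ofReal.comp (measurable_pi_apply _)
  exact measurable_const.add (measurable_const.mul (h1.add (h2.mul measurable_const)))

lemma uu_shift (n k k' L : ℕ) (q : ℚ) :
    uu n k L (q + (k : ℚ) / 4 ^ n) = uu n k' L (q + (k' : ℚ) / 4 ^ n) := by
  have h : ∀ m : ℕ, (q + (m : ℚ) / 4 ^ n) * 4 ^ n - m = q * 4 ^ n := by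
    intro m
    have : (4 : ℚ) ^ n ≠ 0 := by positivity
    field_simp
    ring
  unfold uu
  rw [Subtype.mk.injEq, h, h]

lemma XI_shift (w : ℂ) (d : ℝ) (n k k' L : ℕ) (η : T → ℝ) (q : ℚ) :
    XI w d n k L η (q + (k : ℚ) / 4 ^ n) = XI w d n k' L η (q + (k' : ℚ) / 4 ^ n) := by
  unfold XI
  rw [uu_shift n k k' L q]

lemma hub_shift {ξ ξ' : ℚ → ℂ} {n k k' : ℕ} {c : ℤ × ℤ}
    (h : ∀ q : ℚ, ξ (q + (k : ℚ) / 4 ^ n) = ξ' (q + (k' : ℚ) / 4 ^ n)) (j : ℕ) :
    hub ξ n c (k + j) ↔ hub ξ' n c (k' + j) := by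
  have e : ∀ m : ℕ, ∀ q : ℚ, (((m + j : ℕ) : ℚ) + q) / 4 ^ n =
      ((j : ℚ) + q) / 4 ^ n + (m : ℚ) / 4 ^ n := by
    intro m q
    push_cast
    ring
  have e0 : ∀ m : ℕ, ((m + j : ℕ) : ℚ) / 4 ^ n = (j : ℚ) / 4 ^ n + (m : ℚ) / 4 ^ n := by
    intro m
    push_cast
    ring
  unfold hub
  simp only [e, e0, h]

lemma cnt_range (ξ : ℚ → ℂ) (n : ℕ) (c : ℤ × ℤ) (k L : ℕ) :
    cnt ξ n c k L = (by classical exact
      ((Finset.range L).filter (fun j => hub ξ n c (k + j))).card) := by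
  classical
  unfold cnt
  refine Finset.card_nbij' (fun i => i - k) (fun j => k + j) ?_ ?_ ?_ ?_
  · intro i hi
    simp only [Finset.coe_filter, Finset.mem_Ico, Set.mem_setOf_eq, Finset.mem_range] at hi ⊢
    refine ⟨by omega, ?_⟩
    rw [Nat.add_sub_cancel' hi.1.1]
    exact hi.2
  · intro j hj
    simp only [Finset.coe_filter, Finset.mem_Ico, Set.mem_setOf_eq, Finset.mem_range] at hj ⊢
    exact ⟨by omega, hj.2⟩
  · intro i hi
    simp only [Finset.coe_filter, Finset.mem_Ico, Set.mem_setOf_eq] at hi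
    exact Nat.add_sub_cancel' hi.1.1
  · intro j _
    exact Nat.add_sub_cancel_left k j

lemma cnt_shift {ξ ξ' : ℚ → ℂ} {n k k' : ℕ} {c : ℤ × ℤ}
    (h : ∀ q : ℚ, ξ (q + (k : ℚ) / 4 ^ n) = ξ' (q + (k' : ℚ) / 4 ^ n)) (L : ℕ) :
    cnt ξ n c k L = cnt ξ' n c k' L := by
  classical
  rw [cnt_range, cnt_range]
  congr 1
  refine Finset.filter_congr fun j _ => ?_
  exact hub_shift h j

lemma prob_eq (hMSR : SpecMSR) {Ω : Type} [MeasurableSpace Ω] {P : Measure Ω}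
    [IsProbabilityMeasure P] {B : ℝ → Ω → ℂ} (hB : IsPBM P B) (n : ℕ) (c : ℤ × ℤ)
    (L a k : ℕ) (w : ℂ) (hL : 1 ≤ L) (hk : k + L ≤ 4 ^ n) :
    P {ω | cnt (fun q : ℚ => w + (B (q : ℝ) ω - B (tm n k) ω)) n c k L < a} =
      (P.map (fun ω (i : T) => co (seg B (tm n k) (tm n (k + L))) ((i.1.1 : ℝ), i.2) ω))
        {η : T → ℝ | cnt (XI w ((L : ℝ) / 4 ^ n) n k L η) n c k L < a} := by
  have p4 : (0 : ℝ) < 4 ^ n := by positivity
  have p4' : (0 : ℚ) < 4 ^ n := by positivity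
  have hL0 : (0 : ℝ) < L := by exact_mod_cast hL
  have hL0' : (0 : ℚ) < L := by exact_mod_cast hL
  have hd : tm n (k + L) - tm n k = (L : ℝ) / 4 ^ n := by
    unfold tm
    push_cast
    ring
  have hdp : (0 : ℝ) < (L : ℝ) / 4 ^ n := by positivity
  have hs0 : 0 ≤ tm n k := by unfold tm; positivity
  have hst : tm n k < tm n (k + L) := by linarith
  have ht1 : tm n (k + L) ≤ 1 := by
    unfold tm
    rw [div_le_one p4]
    exact_mod_cast hk
  have hseg := hB.isPBM_seg hs0 hst ht1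
  have hmem : ∀ i : T, (((i.1.1 : ℝ), i.2) : ℝ × Bool).1 ∈ Set.Icc (0 : ℝ) 1 := by
    rintro ⟨⟨q, q0, q1⟩, b⟩
    constructor
    · change (0 : ℝ) ≤ (q : ℝ)
      exact_mod_cast q0
    · change (q : ℝ) ≤ 1
      exact_mod_cast q1
  have hm : AEMeasurable
      (fun ω (i : T) => co (seg B (tm n k) (tm n (k + L))) ((i.1.1 : ℝ), i.2) ω) P :=
    aemeasurable_pi_lambda _ fun i => hseg.aemeasurable_co _ (hmem i)
  have hA : MeasurableSet {η : T → ℝ | cnt (XI w ((L : ℝ) / 4 ^ n) n k L η) n c k L < a} :=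
    XI_meas w _ n k L (hMSR.2.2 n c k L a)
  rw [Measure.map_apply_of_aemeasurable hm hA]
  congr 1
  ext ω
  change cnt (fun q : ℚ => w + (B (q : ℝ) ω - B (tm n k) ω)) n c k L < a ↔
    cnt (XI w ((L : ℝ) / 4 ^ n) n k L
      (fun i : T => co (seg B (tm n k) (tm n (k + L))) ((i.1.1 : ℝ), i.2) ω)) n c k L < a
  rw [cnt_congr (ξ := fun q : ℚ => w + (B (q : ℝ) ω - B (tm n k) ω))
    (ξ' := XI w ((L : ℝ) / 4 ^ n) n k L
      (fun i : T => co (seg B (tm n k) (tm n (k + L))) ((i.1.1 : ℝ), i.2) ω))]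
  intro q q0 q1
  rw [div_le_iff₀ p4'] at q0
  rw [le_div_iff₀ p4'] at q1
  have u0 : (0 : ℚ) ≤ (q * 4 ^ n - k) / L := div_nonneg (by linarith) hL0'.le
  have u1 : (q * 4 ^ n - k) / L ≤ (1 : ℚ) := by
    rw [div_le_one hL0']
    linarith
  have hu : (uu n k L q).1 = (q * 4 ^ n - k) / L := by
    unfold uu
    change max 0 (min 1 ((q * 4 ^ n - k) / L)) = _
    rw [min_eq_right u1, max_eq_right u0]
  have hq : tm n k + (((uu n k L q).1 : ℚ) : ℝ) * (tm n (k + L) - tm n k) = (q : ℝ) := by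
    rw [hu, hd]
    unfold tm
    push_cast
    field_simp
    ring
  have hsq : (Real.sqrt ((L : ℝ) / 4 ^ n) : ℂ) ≠ 0 := by
    rw [Ne, Complex.ofReal_eq_zero]
    exact (Real.sqrt_pos.mpr hdp).ne'
  unfold XI
  simp only [co, if_true, Bool.false_eq_true, if_false]
  rw [Complex.re_add_im]
  congr 1
  unfold seg
  rw [hq, hd, ← mul_assoc, Complex.ofReal_inv, mul_inv_cancel₀ hsq, one_mul]

end STAM

open STAM in
theorem specSTA (hMSR : SpecMSR) : SpecSTA := by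
  intro Ω _ P _ B hB n c L a k k' w hk hk'
  rcases Nat.eq_zero_or_pos L with hL | hL
  · subst hL
    have h : ∀ (ξ : ℚ → ℂ) (m : ℕ), cnt ξ n c m 0 = 0 := by
      intro ξ m
      unfold cnt
      simp
    simp only [h]
  · rw [prob_eq hMSR hB n c L a k w hL hk, prob_eq hMSR hB n c L a k' w hL hk']
    have p4 : (0 : ℝ) < 4 ^ n := by positivity
    have hL0 : (0 : ℝ) < L := by exact_mod_cast hL
    have hd : ∀ m : ℕ, tm n (m + L) - tm n m = (L : ℝ) / 4 ^ n := by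
      intro m
      unfold tm
      push_cast
      ring
    have hdp : (0 : ℝ) < (L : ℝ) / 4 ^ n := by positivity
    have hs0 : ∀ m : ℕ, 0 ≤ tm n m := by intro m; unfold tm; positivity
    have hst : ∀ m : ℕ, tm n m < tm n (m + L) := by intro m; linarith [hd m]
    have ht1 : ∀ m : ℕ, m + L ≤ 4 ^ n → tm n (m + L) ≤ 1 := by
      intro m hm
      unfold tm
      rw [div_le_one p4]
      exact_mod_cast hm
    have hmem : ∀ i : T, (((i.1.1 : ℝ), i.2) : ℝ × Bool).1 ∈ Set.Icc (0 : ℝ) 1 := by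
      rintro ⟨⟨q, q0, q1⟩, b⟩
      constructor
      · change (0 : ℝ) ≤ (q : ℝ)
        exact_mod_cast q0
      · change (q : ℝ) ≤ 1
        exact_mod_cast q1
    have e := map_unique (hB.isPBM_seg (hs0 k) (hst k) (ht1 k hk))
      (hB.isPBM_seg (hs0 k') (hst k') (ht1 k' hk')) (T := T)
      (fun i => ((i.1.1 : ℝ), i.2)) inferInstance
      hmem
    rw [e]
    congr 1
    ext η
    simp only [mem_setOf_eq]
    rw [cnt_shift (fun q => XI_shift w ((L : ℝ) / 4 ^ n) n k k' L η q) L]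

end Pool.Agent.Lib.MP_8b264c_pr.QV2
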