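import Pool.Agent.Lib.MP_8b264c_pr.QV2.Spec

/-!
# QV2, module TUB: the path follows the route with positive probability
-/

set_option autoImplicit false

open MeasureTheory Set ProbabilityTheory Filter Topology

namespace Pool.Agent.Lib.MP_8b264c_pr.QV2

open Pool.Agent.BMR Pool.Agent.Lib.MP_8b264c_pr.QV

namespace TUBM

/-! ## The route -/

lemma cl_lip (a b : ℝ) : |cl a - cl b| ≤ |a - b| := by
  unfold cl
  refine (abs_max_sub_max_le_max 0 (min 1 a) 0 (min 1 b)).trans ?_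
  rw [sub_self, abs_zero]
  refine max_le (abs_nonneg _) ((abs_min_sub_min_le_max 1 a 1 b).trans ?_)
  rw [sub_self, abs_zero]
  exact max_le (abs_nonneg _) le_rfl

lemma way_re {z : ℂ} (h0 : 0 ≤ z.re) (h1 : z.re ≤ 1) {k : ℕ} (hk : k < 8) :
    |(way z (k + 1) - way z k).re| ≤ 8 := by
  rw [Complex.sub_re, abs_le]
  interval_cases k <;> simp only [way] <;> constructor <;> norm_num <;> linarith

lemma way_im {z : ℂ} (h0 : 0 ≤ z.im) (h1 : z.im ≤ 1) {k : ℕ} (hk : k < 8) :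
    |(way z (k + 1) - way z k).im| ≤ 8 := by
  rw [Complex.sub_im, abs_le]
  interval_cases k <;> simp only [way] <;> constructor <;> norm_num <;> linarith

lemma route_re (z : ℂ) (t : ℝ) : (route z t).re =
    z.re + ∑ k ∈ Finset.range 8, cl (8 * t - k) * (way z (k + 1) - way z k).re := by
  unfold route
  rw [Complex.add_re, Complex.re_sum]
  congr 1
  exact Finset.sum_congr rfl fun k _ => Complex.re_ofReal_mul _ _

lemma route_im (z : ℂ) (t : ℝ) : (route z t).im =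
    z.im + ∑ k ∈ Finset.range 8, cl (8 * t - k) * (way z (k + 1) - way z k).im := by
  unfold route
  rw [Complex.add_im, Complex.im_sum]
  congr 1
  exact Finset.sum_congr rfl fun k _ => Complex.im_ofReal_mul _ _

lemma lip_aux (w : ℕ → ℝ) (hw : ∀ k < 8, |w k| ≤ 8) (s t : ℝ) :
    |∑ k ∈ Finset.range 8, cl (8 * s - k) * w k - ∑ k ∈ Finset.range 8, cl (8 * t - k) * w k| ≤
      512 * |s - t| := by
  rw [← Finset.sum_sub_distrib]
  refine (Finset.abs_sum_le_sum_abs _ _).trans ?_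
  have h1 : ∀ k ∈ Finset.range 8, |cl (8 * s - k) * w k - cl (8 * t - k) * w k| ≤
      64 * |s - t| := by
    intro k hk
    rw [← sub_mul, abs_mul]
    have h2 := cl_lip (8 * s - k) (8 * t - k)
    have h3 : |8 * s - k - (8 * t - k)| = 8 * |s - t| := by
      rw [show 8 * s - k - (8 * t - k) = 8 * (s - t) by ring, abs_mul]
      norm_num
    rw [h3] at h2
    have h4 := hw k (Finset.mem_range.1 hk)
    calc |cl (8 * s - k) - cl (8 * t - k)| * |w k| ≤ (8 * |s - t|) * 8 :=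
          mul_le_mul h2 h4 (abs_nonneg _) (by positivity)
      _ = 64 * |s - t| := by ring
  refine (Finset.sum_le_sum h1).trans ?_
  rw [Finset.sum_const, Finset.card_range, nsmul_eq_mul]
  push_cast
  linarith

lemma route_lip_re {z : ℂ} (h0 : 0 ≤ z.re) (h1 : z.re ≤ 1) (s t : ℝ) :
    |(route z s - route z t).re| ≤ 512 * |s - t| := by
  rw [Complex.sub_re, route_re, route_re, add_sub_add_left_eq_sub]
  exact lip_aux _ (fun k hk => way_re h0 h1 hk) s t

lemma route_lip_im {z : ℂ} (h0 : 0 ≤ z.im) (h1 : z.im ≤ 1) (s t : ℝ) :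
    |(route z s - route z t).im| ≤ 512 * |s - t| := by
  rw [Complex.sub_im, route_im, route_im, add_sub_add_left_eq_sub]
  exact lip_aux _ (fun k hk => way_im h0 h1 hk) s t

lemma route_zero (z : ℂ) : route z 0 = z := by
  unfold route
  rw [Finset.sum_eq_zero, add_zero]
  intro k _
  have h1 : cl (8 * 0 - k) = 0 := by
    unfold cl
    refine max_eq_left ((min_le_right _ _).trans ?_)
    have : (0 : ℝ) ≤ k := Nat.cast_nonneg k
    linarith
  rw [h1, Complex.ofReal_zero, zero_mul]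

/-! ## The good event of a step -/

/-- The grid times. -/
def tq (N i : ℕ) : ℚ := (i : ℚ) / N

/-- The good event of the step `i`, for a path given at rational times. -/
def gd (z : ℂ) (N i : ℕ) (x : ℚ → ℂ) : Prop :=
  Near (x (tq N (i + 1)) - x (tq N i))
    (route z ((tq N (i + 1) : ℚ) : ℝ) - route z ((tq N i : ℚ) : ℝ)) (1 / (8 * N)) ∧
  ∀ q : ℚ, tq N i ≤ q → q ≤ tq N (i + 1) → ‖x q - x (tq N i)‖ ≤ 1 / 8

lemma gd_meas (z : ℂ) (N i : ℕ) : MeasurableSet {x : ℚ → ℂ | gd z N i x} := by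
  have m1 : ∀ a b : ℚ, Measurable fun x : ℚ → ℂ => x a - x b := fun a b =>
    (measurable_pi_apply a).sub (measurable_pi_apply b)
  have h1 : {x : ℚ → ℂ | gd z N i x} =
      ({x : ℚ → ℂ | |(x (tq N (i + 1)) - x (tq N i)).re -
        (route z ((tq N (i + 1) : ℚ) : ℝ) - route z ((tq N i : ℚ) : ℝ)).re| ≤ 1 / (8 * N)} ∩
      {x : ℚ → ℂ | |(x (tq N (i + 1)) - x (tq N i)).im -
        (route z ((tq N (i + 1) : ℚ) : ℝ) - route z ((tq N i : ℚ) : ℝ)).im| ≤ 1 / (8 * N)}) ∩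
      ⋂ q : ℚ, ⋂ _ : tq N i ≤ q, ⋂ _ : q ≤ tq N (i + 1),
        {x : ℚ → ℂ | ‖x q - x (tq N i)‖ ≤ 1 / 8} := by
    ext x
    simp [gd, Near]
  rw [h1]
  refine MeasurableSet.inter (MeasurableSet.inter ?_ ?_) ?_
  · exact measurableSet_le ((Complex.measurable_re.comp (m1 _ _)).sub_const _).abs
      measurable_const
  · exact measurableSet_le ((Complex.measurable_im.comp (m1 _ _)).sub_const _).abs
      measurable_const
  · refine MeasurableSet.iInter fun q => MeasurableSet.iInter fun _ =>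
      MeasurableSet.iInter fun _ => ?_
    exact measurableSet_le (m1 _ _).norm measurable_const

lemma tq_le (N i : ℕ) : tq N i ≤ tq N (i + 1) := by
  unfold tq
  push_cast
  gcongr
  linarith

lemma tq_mono (N : ℕ) {i j : ℕ} (h : i ≤ j) : tq N i ≤ tq N j := by
  unfold tq
  gcongr

lemma tq_nonneg (N i : ℕ) : 0 ≤ tq N i := by unfold tq; positivity

lemma tq_le_one {N i : ℕ} (h : i ≤ N) : tq N i ≤ 1 := by
  unfold tq
  exact div_le_one_of_le₀ (by exact_mod_cast h) (by positivity)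

lemma gd_congr {z : ℂ} {N i : ℕ} {x x' : ℚ → ℂ} (w : ℂ)
    (h : ∀ q, tq N i ≤ q → q ≤ tq N (i + 1) → x q = x' q - w) :
    gd z N i x ↔ gd z N i x' := by
  have h0 := h _ le_rfl (tq_le N i)
  have h1 := h _ (tq_le N i) le_rfl
  have h2 : ∀ q, tq N i ≤ q → q ≤ tq N (i + 1) → x q - x (tq N i) = x' q - x' (tq N i) := by
    intro q a b
    rw [h q a b, h0]
    ring
  unfold gd
  rw [h2 _ (tq_le N i) le_rfl]
  refine and_congr Iff.rfl ?_
  constructor
  · intro g q a b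
    rw [← h2 q a b]
    exact g q a b
  · intro g q a b
    rw [h2 q a b]
    exact g q a b

variable {Ω : Type} [MeasurableSpace Ω]

/-- The first `i` steps are good. -/
def Ev (B : ℝ → Ω → ℂ) (z : ℂ) (N i : ℕ) : Set Ω :=
  {ω | ∀ j < i, gd z N j (fun q : ℚ => B (q : ℝ) ω)}

/-- The step `i` is good. -/
def Gv (B : ℝ → Ω → ℂ) (z : ℂ) (N i : ℕ) : Set Ω := {ω | gd z N i (fun q : ℚ => B (q : ℝ) ω)}

lemma step {P : Measure Ω} [IsProbabilityMeasure P] {B : ℝ → Ω → ℂ} (hIND : SpecIND)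
    (hB : IsPBM P B) (z : ℂ) {N i : ℕ} (hi : i < N) :
    P (Ev B z N (i + 1)) = P (Ev B z N i) * P (Gv B z N i) := by
  set T : ℝ := ((tq N i : ℚ) : ℝ) with hT
  have hT0 : 0 ≤ T := by rw [hT]; exact_mod_cast tq_nonneg N i
  have hT1 : T ≤ 1 := by rw [hT]; exact_mod_cast tq_le_one hi.le
  have hI := (hIND Ω P B hB).2 ℚ ℚ (fun _ => 0) (fun q => max 0 (min (q : ℝ) T)) (fun _ => T)
    (fun q => max T (min (q : ℝ) 1))
    (fun q => ⟨le_rfl, le_max_left _ _, max_le zero_le_one ((min_le_right _ _).trans hT1)⟩)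
    (fun q => ⟨hT0, le_max_left _ _, max_le hT1 (min_le_right _ _)⟩)
    (fun q q' => Or.inl (max_le hT0 (min_le_right _ _)))
  have mS : MeasurableSet {x : ℚ → ℂ | ∀ j < i, gd z N j x} := by
    have : {x : ℚ → ℂ | ∀ j < i, gd z N j x} = ⋂ j : ℕ, ⋂ _ : j < i, {x | gd z N j x} := by
      ext x; simp
    rw [this]
    exact MeasurableSet.iInter fun j => MeasurableSet.iInter fun _ => gd_meas z N j
  have hm := hI.measure_inter_preimage_eq_mul _ _ mS (gd_meas z N i)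
  have e1 : (fun ω (q : ℚ) => B (max 0 (min (q : ℝ) T)) ω - B 0 ω) ⁻¹'
      {x : ℚ → ℂ | ∀ j < i, gd z N j x} = Ev B z N i := by
    ext ω
    have h1 : ∀ j < i, (gd z N j (fun q : ℚ => B (max 0 (min (q : ℝ) T)) ω - B 0 ω) ↔
        gd z N j (fun q : ℚ => B (q : ℝ) ω)) := by
      intro j hj
      refine gd_congr (B 0 ω) fun q a b => ?_
      have q0 : (0 : ℝ) ≤ q := by exact_mod_cast (tq_nonneg N j).trans a
      have q1 : (q : ℝ) ≤ T := by
        rw [hT]
        exact_mod_cast b.trans (tq_mono N (by omega))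
      rw [min_eq_left q1, max_eq_right q0]
    change (∀ j < i, _) ↔ (∀ j < i, _)
    exact ⟨fun h j hj => (h1 j hj).1 (h j hj), fun h j hj => (h1 j hj).2 (h j hj)⟩
  have e2 : (fun ω (q : ℚ) => B (max T (min (q : ℝ) 1)) ω - B T ω) ⁻¹'
      {x : ℚ → ℂ | gd z N i x} = Gv B z N i := by
    ext ω
    change gd z N i (fun q : ℚ => B (max T (min (q : ℝ) 1)) ω - B T ω) ↔
      gd z N i (fun q : ℚ => B (q : ℝ) ω)
    refine gd_congr (B T ω) fun q a b => ?_
    have q0 : T ≤ (q : ℝ) := by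
      rw [hT]; exact_mod_cast a
    have q1 : (q : ℝ) ≤ 1 := by
      exact_mod_cast b.trans (tq_le_one hi)
    rw [min_eq_left q1, max_eq_right q0]
  rw [e1, e2] at hm
  rw [← hm]
  congr 1
  ext ω
  constructor
  · intro h
    exact ⟨fun j hj => h j (by omega), h i (by omega)⟩
  · rintro ⟨h1, h2⟩ j hj
    rcases Nat.lt_succ_iff_lt_or_eq.1 hj with h | rfl
    · exact h1 j h
    · exact h2

lemma tq_cast (N i : ℕ) : ((tq N i : ℚ) : ℝ) = (i : ℝ) / N := by
  unfold tq; push_cast; ring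

lemma tq_sub {N : ℕ} (i : ℕ) : ((tq N (i + 1) : ℚ) : ℝ) - ((tq N i : ℚ) : ℝ) = 1 / N := by
  rw [tq_cast, tq_cast]; push_cast; ring

omit [MeasurableSpace Ω] in
/-- on the good event the path follows the route at the grid times -/
lemma grid {B : ℝ → Ω → ℂ} {z : ℂ} {N : ℕ} {ω : Ω} (h : ω ∈ Ev B z N N) {i : ℕ} (hi : i ≤ N) :
    Near (B ((tq N i : ℚ) : ℝ) ω - B ((tq N 0 : ℚ) : ℝ) ω)
      (route z ((tq N i : ℚ) : ℝ) - route z ((tq N 0 : ℚ) : ℝ)) (i * (1 / (8 * N))) := by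
  induction i with
  | zero =>
    unfold Near
    simp
  | succ i ih =>
    obtain ⟨a, b⟩ := ih (by omega)
    obtain ⟨⟨c, d⟩, -⟩ := h i (by omega)
    simp only [Complex.sub_re, Complex.sub_im] at a b c d
    unfold Near
    simp only [Complex.sub_re, Complex.sub_im]
    rw [abs_le] at a b c d ⊢
    rw [abs_le]
    push_cast
    refine ⟨⟨?_, ?_⟩, ⟨?_, ?_⟩⟩
    · linarith [a.1, c.1]
    · linarith [a.2, c.2]
    · linarith [b.1, d.1]
    · linarith [b.2, d.2]

lemma follow {P : Measure Ω} {B : ℝ → Ω → ℂ} (hB : IsPBM P B) {z : ℂ} (h0 : 0 ≤ z.re)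
    (h1 : z.re ≤ 1) (h2 : 0 ≤ z.im) (h3 : z.im ≤ 1) {N : ℕ} (hN : 2048 ≤ N) {ω : Ω}
    (h : ω ∈ Ev B z N N) (q : ℚ) (q0 : 0 ≤ q) (q1 : q ≤ 1) :
    Near (z + B (q : ℝ) ω) (route z (q : ℝ)) (1 / 2) := by
  have hN0 : (0 : ℚ) < N := by exact_mod_cast (by omega : 0 < N)
  have hNr : (2048 : ℝ) ≤ N := by exact_mod_cast hN
  obtain ⟨i, hi, a, b⟩ : ∃ i : ℕ, i < N ∧ tq N i ≤ q ∧ q ≤ tq N (i + 1) := by
    rcases lt_or_eq_of_le q1 with q1 | rfl
    · refine ⟨⌊q * N⌋₊, ?_, ?_, ?_⟩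
      · rw [Nat.floor_lt (by positivity)]
        nlinarith
      · unfold tq
        rw [div_le_iff₀ hN0]
        exact Nat.floor_le (by positivity)
      · unfold tq
        rw [le_div_iff₀ hN0]
        push_cast
        exact (Nat.lt_floor_add_one _).le
    · refine ⟨N - 1, by omega, tq_le_one (by omega), ?_⟩
      have : N - 1 + 1 = N := by omega
      rw [this]
      unfold tq
      rw [div_self hN0.ne']
  have g1 := grid h hi.le
  have g2 := (h i hi).2 q a b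
  have e0 : ((tq N 0 : ℚ) : ℝ) = 0 := by rw [tq_cast]; simp
  rw [e0, hB.zero, route_zero, sub_zero] at g1
  have hin : (i : ℝ) * (1 / (8 * N)) ≤ 1 / 8 := by
    have : (i : ℝ) ≤ N := by exact_mod_cast hi.le
    rw [mul_one_div, div_le_div_iff₀ (by positivity) (by norm_num)]
    linarith
  have hd : |((tq N i : ℚ) : ℝ) - (q : ℝ)| ≤ 1 / N := by
    have a' : ((tq N i : ℚ) : ℝ) ≤ (q : ℝ) := by exact_mod_cast a
    have b' : (q : ℝ) ≤ ((tq N (i + 1) : ℚ) : ℝ) := by exact_mod_cast b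
    have := tq_sub (N := N) i
    rw [abs_le]
    have hp : (0 : ℝ) ≤ 1 / N := by positivity
    constructor <;> linarith
  have hl : 512 * |((tq N i : ℚ) : ℝ) - (q : ℝ)| ≤ 1 / 4 := by
    have h5 : (1 : ℝ) / N ≤ 1 / 2048 := by gcongr
    linarith
  have l1 := (route_lip_re h0 h1 ((tq N i : ℚ) : ℝ) (q : ℝ)).trans hl
  have l2 := (route_lip_im h2 h3 ((tq N i : ℚ) : ℝ) (q : ℝ)).trans hl
  have n1 := (Complex.abs_re_le_norm _).trans g2
  have n2 := (Complex.abs_im_le_norm _).trans g2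
  obtain ⟨g3, g4⟩ := g1
  simp only [Complex.sub_re, Complex.sub_im] at g3 g4 l1 l2 n1 n2
  unfold Near
  rw [Complex.add_re, Complex.add_im]
  rw [abs_le] at g3 g4 l1 l2 n1 n2 ⊢
  rw [abs_le]
  refine ⟨⟨?_, ?_⟩, ⟨?_, ?_⟩⟩
  · linarith [g3.1, l1.1, n1.1]
  · linarith [g3.2, l1.2, n1.2]
  · linarith [g4.1, l2.1, n2.1]
  · linarith [g4.2, l2.2, n2.2]

end TUBM

open TUBM in
theorem specTUB (hIND : SpecIND) (hLOW : SpecLOW) (hOSU : SpecOSU) : SpecTUB := by
  obtain ⟨c, hc, hL⟩ := hLOW 1 zero_le_one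
  obtain ⟨C, hC, hO⟩ := hOSU
  obtain ⟨N, hN⟩ := exists_nat_ge (max (512 ^ 2 : ℝ) (524288 * C / c))
  have hN1 : (512 ^ 2 : ℝ) ≤ N := (le_max_left _ _).trans hN
  have hN2 : 524288 * C / c ≤ N := (le_max_right _ _).trans hN
  have hN3 : 2048 ≤ N := by
    have : ((2048 : ℕ) : ℝ) ≤ N := by push_cast; linarith
    exact_mod_cast this
  have hNp : (0 : ℝ) < N := by linarith
  set p : ℝ := c / (128 * N) with hp
  have hp0 : 0 < p := by positivity
  refine ⟨p ^ N, by positivity, ?_⟩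
  intro Ω _ P _ B hB z h0 h1 h2 h3
  have hG : ∀ i < N, ENNReal.ofReal p ≤ P (Gv B z N i) := by
    intro i hi
    have s0 : (0 : ℝ) ≤ ((tq N i : ℚ) : ℝ) := by exact_mod_cast tq_nonneg N i
    have s1 : ((tq N (i + 1) : ℚ) : ℝ) ≤ 1 := by exact_mod_cast tq_le_one hi
    have sd := tq_sub (N := N) i
    have s2 : ((tq N i : ℚ) : ℝ) < ((tq N (i + 1) : ℚ) : ℝ) := by
      have : (0 : ℝ) < 1 / N := by positivity
      linarith
    have hsq : 512 * |((tq N (i + 1) : ℚ) : ℝ) - ((tq N i : ℚ) : ℝ)| ≤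
        1 * Real.sqrt (((tq N (i + 1) : ℚ) : ℝ) - ((tq N i : ℚ) : ℝ)) := by
      rw [sd, abs_of_pos (by positivity), one_mul]
      refine Real.le_sqrt_of_sq_le ?_
      have h4 : (512 * (1 / (N : ℝ))) ^ 2 = 512 ^ 2 / (N : ℝ) * (1 / N) := by
        field_simp
      rw [h4]
      have h5 : 512 ^ 2 / (N : ℝ) ≤ 1 := (div_le_one hNp).2 hN1
      have h6 : (0 : ℝ) ≤ 1 / N := by positivity
      nlinarith
    have hA := hL Ω P B hB _ _ (1 / (8 * N))
      (route z ((tq N (i + 1) : ℚ) : ℝ) - route z ((tq N i : ℚ) : ℝ)) s0 s2 s1 (by positivity)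
      (by
        rw [sd]
        have h4 : (1 / (8 * (N : ℝ))) ^ 2 = 1 / (64 * N) * (1 / N) := by
          field_simp; norm_num
        rw [h4]
        have h5 : 1 / (64 * (N : ℝ)) ≤ 1 := by
          rw [div_le_one (by positivity)]; linarith
        have h6 : (0 : ℝ) ≤ 1 / N := by positivity
        nlinarith)
      ((route_lip_re h0 h1 _ _).trans hsq) ((route_lip_im h2 h3 _ _).trans hsq)
    have hD := hO Ω P B hB _ _ (1 / 8) s0 s2 s1 (by norm_num)
    rw [sd] at hA hD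
    have hsub : {ω | Near (B ((tq N (i + 1) : ℚ) : ℝ) ω - B ((tq N i : ℚ) : ℝ) ω)
        (route z ((tq N (i + 1) : ℚ) : ℝ) - route z ((tq N i : ℚ) : ℝ)) (1 / (8 * N))} \
        {ω | ∃ u ∈ Icc ((tq N i : ℚ) : ℝ) ((tq N (i + 1) : ℚ) : ℝ),
          1 / 8 < ‖B u ω - B ((tq N i : ℚ) : ℝ) ω‖} ⊆ Gv B z N i := by
      rintro ω ⟨a, b⟩
      refine ⟨a, fun q q0 q1 => ?_⟩
      by_contra hcon
      rw [not_le] at hcon
      exact b ⟨(q : ℝ), ⟨by exact_mod_cast q0, by exact_mod_cast q1⟩, hcon⟩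
    refine le_trans ?_ (measure_mono hsub)
    refine le_trans ?_ le_measure_sdiff
    refine le_trans ?_ (tsub_le_tsub hA hD)
    rw [← ENNReal.ofReal_sub _ (by positivity)]
    refine ENNReal.ofReal_le_ofReal ?_
    have e1 : c * (1 / (8 * (N : ℝ))) ^ 2 / (1 / N) = 2 * p := by
      rw [hp]; field_simp; norm_num
    have e2 : C * (1 / (N : ℝ)) ^ 2 / (1 / 8) ^ 4 ≤ p := by
      rw [hp]
      have h4 : 524288 * C ≤ c * N := by
        rw [div_le_iff₀ hc] at hN2
        linarith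
      have h5 : C * (1 / (N : ℝ)) ^ 2 / (1 / 8) ^ 4 = 524288 * C / (128 * N * N) := by
        field_simp; norm_num
      have h6 : c / (128 * (N : ℝ)) = c * N / (128 * N * N) := by
        field_simp
      rw [h5, h6]
      gcongr
    rw [e1]
    linarith
  have hE : ∀ i ≤ N, ENNReal.ofReal p ^ i ≤ P (Ev B z N i) := by
    intro i
    induction i with
    | zero =>
      intro _
      have : Ev B z N 0 = univ := by
        ext ω
        simp [Ev]
      rw [this, measure_univ, pow_zero]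
    | succ i ih =>
      intro hi
      rw [step hIND hB z (by omega), pow_succ]
      exact mul_le_mul' (ih (by omega)) (hG i (by omega))
  rw [ENNReal.ofReal_pow hp0.le]
  refine (hE N le_rfl).trans (measure_mono fun ω hω => ?_)
  exact fun q q0 q1 => follow hB h0 h1 h2 h3 hN3 hω q q0 q1

end Pool.Agent.Lib.MP_8b264c_pr.QV2
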