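import Pool.Agent.Lib.MP_8b264c_pr.QV2.Spec

/-!
# MP_8b264c_pr, module WIN: few hubs at all scales

The Markov property along the scales.
-/

set_option autoImplicit false

open MeasureTheory Set ProbabilityTheory Filter Topology

namespace Pool.Agent.Lib.MP_8b264c_pr.QV2

open Pool.Agent.BMR Pool.Agent.Lib.MP_8b264c_pr.QV

namespace WINM

/-- The times. -/
def tau (ν : ℕ) (t : ℚ) (i : ℕ) : ℚ := t + 1 / 4 ^ (i * (2 * ν + 1) + ν)

/-- The start of the window of scale `i`. -/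
def kk (ν : ℕ) (t : ℚ) (i : ℕ) : ℕ := ⌈4 ^ sc ν i * tau ν t (i + 1)⌉₊ + 1

lemma le_tau (ν : ℕ) (t : ℚ) (i : ℕ) : t ≤ tau ν t i := by
  unfold tau
  have : (0 : ℚ) ≤ 1 / 4 ^ (i * (2 * ν + 1) + ν) := by positivity
  linarith

lemma tau_anti (ν : ℕ) (t : ℚ) {i j : ℕ} (h : i ≤ j) : tau ν t j ≤ tau ν t i := by
  unfold tau
  have h1 : i * (2 * ν + 1) + ν ≤ j * (2 * ν + 1) + ν :=
    Nat.add_le_add_right (Nat.mul_le_mul_right _ h) _
  have h2 : (1 : ℚ) / 4 ^ (j * (2 * ν + 1) + ν) ≤ 1 / 4 ^ (i * (2 * ν + 1) + ν) :=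
    one_div_le_one_div_of_le (by positivity) (pow_le_pow_right₀ (by norm_num) h1)
  linarith

lemma kk_lo (ν : ℕ) (t : ℚ) (i : ℕ) :
    tau ν t (i + 1) + 1 / 4 ^ sc ν i ≤ (kk ν t i : ℚ) / 4 ^ sc ν i := by
  have p : (0 : ℚ) < 4 ^ sc ν i := by positivity
  have h := Nat.le_ceil (4 ^ sc ν i * tau ν t (i + 1))
  rw [le_div_iff₀ p, add_mul, one_div, inv_mul_cancel₀ p.ne']
  unfold kk
  push_cast
  linarith

lemma kk_hi (ν : ℕ) (t : ℚ) (ht : 0 ≤ t) (i : ℕ) :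
    (kk ν t i : ℚ) / 4 ^ sc ν i ≤ tau ν t (i + 1) + 2 / 4 ^ sc ν i := by
  have p : (0 : ℚ) < 4 ^ sc ν i := by positivity
  have h := Nat.ceil_lt_add_one (a := 4 ^ sc ν i * tau ν t (i + 1))
    (mul_nonneg p.le (ht.trans (le_tau ν t _)))
  rw [div_le_iff₀ p, add_mul, div_mul_cancel₀ _ p.ne']
  unfold kk
  push_cast
  linarith

lemma kk_end (ν : ℕ) (t : ℚ) (ht : 0 ≤ t) (i : ℕ) :
    ((kk ν t i : ℚ) + ((4 ^ ν : ℕ) : ℚ)) / 4 ^ sc ν i ≤ tau ν t i := by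
  have h := kk_hi ν t ht i
  rw [add_div]
  have e1 : tau ν t (i + 1) = t + 1 / 4 ^ ((i + 1) * (2 * ν + 1) + ν) := rfl
  have e2 : tau ν t i = t + 1 / 4 ^ (i * (2 * ν + 1) + ν) := rfl
  have e3 : sc ν i = (i + 1) * (2 * ν + 1) := rfl
  have hD : (0 : ℚ) < 4 ^ (i * (2 * ν + 1)) := by positivity
  have hV : (1 : ℚ) ≤ 4 ^ ν := one_le_pow₀ (by norm_num)
  have f1 : (4 : ℚ) ^ sc ν i = 4 ^ (i * (2 * ν + 1)) * (4 ^ ν * 4 ^ ν * 4) := by
    rw [e3, ← pow_add, ← pow_succ, ← pow_add]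
    congr 1
    ring
  have f2 : (4 : ℚ) ^ ((i + 1) * (2 * ν + 1) + ν) =
      4 ^ (i * (2 * ν + 1)) * (4 ^ ν * 4 ^ ν * 4) * 4 ^ ν := by
    rw [pow_add, ← e3, f1]
  have f3 : (4 : ℚ) ^ (i * (2 * ν + 1) + ν) = 4 ^ (i * (2 * ν + 1)) * 4 ^ ν := by
    rw [pow_add]
  rw [e1, f1, f2] at h
  rw [e2, f1, f3]
  push_cast
  generalize (4 : ℚ) ^ (i * (2 * ν + 1)) = D at *
  generalize (4 : ℚ) ^ ν = V at *
  have hV0 : 0 < V := by linarith
  have g1 : 1 / (D * (V * V * 4) * V) ≤ 1 / (4 * (D * V)) := by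
    refine one_div_le_one_div_of_le (by positivity) ?_
    have : 1 ≤ V * V := by nlinarith
    have h2 : 0 ≤ D * V := by positivity
    nlinarith [mul_le_mul_of_nonneg_left this h2]
  have g2 : 2 / (D * (V * V * 4)) ≤ 2 / (4 * (D * V)) := by
    refine div_le_div_of_nonneg_left (by norm_num) (by positivity) ?_
    have h2 : 0 ≤ D * V := by positivity
    nlinarith [mul_le_mul_of_nonneg_left hV h2]
  have g3 : V / (D * (V * V * 4)) = 1 / (4 * (D * V)) := by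
    field_simp
  have g4 : 1 / (4 * (D * V)) + 2 / (4 * (D * V)) + 1 / (4 * (D * V)) = 1 / (D * V) := by
    field_simp
    norm_num
  linarith

/-- The events at the scales `≥ l`. -/
def Ev (ν r a : ℕ) (t : ℚ) (l : ℕ) (ξ : ℚ → ℂ) : Prop :=
  ∀ i, l ≤ i → i < r → cnt ξ (sc ν i) (cp (sc ν i) (ξ t)) (kk ν t i) (4 ^ ν) < a ∧
    Near (ξ (tau ν t (i + 1))) (ξ t) (1 / 2 ^ sc ν i)

lemma meas_cnt (h : SpecMSR) {Z : Type} [MeasurableSpace Z] (g : Z → ℚ → ℂ) (u : Z → ℂ)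
    (hg : Measurable g) (hu : Measurable u) (n k L a : ℕ) :
    MeasurableSet {z | cnt (g z) n (cp n (u z)) k L < a} := by
  have e : {z | cnt (g z) n (cp n (u z)) k L < a} =
      ⋃ c : ℤ × ℤ, ((fun z => cp n (u z)) ⁻¹' {c}) ∩ (g ⁻¹' {ξ | cnt ξ n c k L < a}) := by
    ext z
    simp
  rw [e]
  refine MeasurableSet.iUnion fun c => ?_
  exact (((h.1 n).comp hu) (measurableSet_singleton c)).inter (hg (h.2.2 n c k L a))

lemma meas_near {Z : Type} [MeasurableSpace Z] (f g : Z → ℂ) (hf : Measurable f)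
    (hg : Measurable g) (ρ : ℝ) : MeasurableSet {z | Near (f z) (g z) ρ} := by
  have m1 : Measurable fun z => |(f z).re - (g z).re| :=
    ((Complex.measurable_re.comp hf).sub (Complex.measurable_re.comp hg)).abs
  have m2 : Measurable fun z => |(f z).im - (g z).im| :=
    ((Complex.measurable_im.comp hf).sub (Complex.measurable_im.comp hg)).abs
  have e : {z | Near (f z) (g z) ρ} =
      {z | |(f z).re - (g z).re| ≤ ρ} ∩ {z | |(f z).im - (g z).im| ≤ ρ} := rfl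
  rw [e]
  exact (measurableSet_le m1 measurable_const).inter (measurableSet_le m2 measurable_const)

lemma meas_Ev (h : SpecMSR) (ν r a : ℕ) (t : ℚ) (l : ℕ) :
    MeasurableSet {ξ : ℚ → ℂ | Ev ν r a t l ξ} := by
  have e : {ξ : ℚ → ℂ | Ev ν r a t l ξ} = ⋂ i : ℕ, ⋂ (_ : l ≤ i), ⋂ (_ : i < r),
      ({ξ : ℚ → ℂ | cnt ξ (sc ν i) (cp (sc ν i) (ξ t)) (kk ν t i) (4 ^ ν) < a} ∩
        {ξ | Near (ξ (tau ν t (i + 1))) (ξ t) (1 / 2 ^ sc ν i)}) := by
    ext ξ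
    simp [Ev]
  rw [e]
  refine MeasurableSet.iInter fun i => MeasurableSet.iInter fun _ => MeasurableSet.iInter fun _ => ?_
  exact (meas_cnt h (fun ξ => ξ) (fun ξ => ξ t) measurable_id (measurable_pi_apply t) _ _ _ _).inter
    (meas_near _ _ (measurable_pi_apply _) (measurable_pi_apply _) _)

lemma pst_eq {Ω : Type} (B : ℝ → Ω → ℂ) (s : ℚ) (ω : Ω) (q : ℚ) (h0 : 0 ≤ q) (h1 : q ≤ s) :
    pst B (s : ℝ) ω q = B (q : ℝ) ω := by
  have a0 : (0 : ℝ) ≤ (q : ℝ) := by exact_mod_cast h0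
  have a1 : (q : ℝ) ≤ (s : ℝ) := by exact_mod_cast h1
  unfold pst
  rw [min_eq_left a1, max_eq_right a0]

lemma fut_eq {Ω : Type} (B : ℝ → Ω → ℂ) (s : ℚ) (ω : Ω) (q : ℚ) (h0 : s ≤ q) (h1 : q ≤ 1) :
    fut B (s : ℝ) ω q = B (q : ℝ) ω - B (s : ℝ) ω := by
  have a0 : (s : ℝ) ≤ (q : ℝ) := by exact_mod_cast h0
  have a1 : (q : ℝ) ≤ 1 := by exact_mod_cast h1
  unfold fut
  rw [min_eq_left a1, max_eq_right a0]

lemma Ev_past {Ω : Type} (B : ℝ → Ω → ℂ) (ν r a : ℕ) (t : ℚ) (ht : 0 ≤ t) (l : ℕ) (ω : Ω) :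
    Ev ν r a t l (pst B (tau ν t l : ℝ) ω) ↔ Ev ν r a t l (rat fun u => B u ω) := by
  have key : ∀ q : ℚ, 0 ≤ q → q ≤ tau ν t l →
      pst B (tau ν t l : ℝ) ω q = rat (fun u => B u ω) q := fun q h0 h1 =>
    pst_eq B (tau ν t l) ω q h0 h1
  unfold Ev
  refine forall_congr' fun i => forall_congr' fun hi => forall_congr' fun _ => ?_
  have h1 : t ≤ tau ν t l := le_tau ν t l
  have h2 : tau ν t (i + 1) ≤ tau ν t l := tau_anti ν t (by omega)
  have h3 : tau ν t i ≤ tau ν t l := tau_anti ν t hi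
  rw [key t ht h1, key _ (ht.trans (le_tau ν t _)) h2]
  rw [cnt_congr (ξ' := rat (fun u => B u ω))]
  intro q a b
  refine key q (le_trans (by positivity) a) ?_
  exact (b.trans (kk_end ν t ht i)).trans h3

lemma mkv_set {Ω : Type} [MeasurableSpace Ω] (P : Measure Ω) [IsProbabilityMeasure P]
    (B : ℝ → Ω → ℂ) (s : ℝ)
    (hM : (AEMeasurable (pst B s) P ∧ AEMeasurable (fut B s) P) ∧
      ∀ F : (ℚ → ℂ) → (ℚ → ℂ) → ENNReal, Measurable (Function.uncurry F) →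
        ∫⁻ ω, F (pst B s ω) (fut B s ω) ∂P = ∫⁻ ω, (∫⁻ ω', F (pst B s ω) (fut B s ω') ∂P) ∂P)
    (S : Set ((ℚ → ℂ) × (ℚ → ℂ))) (hS : MeasurableSet S) :
    P {ω | (pst B s ω, fut B s ω) ∈ S} = ∫⁻ ω, P {ω' | (pst B s ω, fut B s ω') ∈ S} ∂P := by
  have h := hM.2 (fun ξ η => S.indicator 1 (ξ, η)) (by
    exact measurable_one.indicator hS)
  have n1 : NullMeasurableSet {ω | (pst B s ω, fut B s ω) ∈ S} P :=
    (hM.1.1.prodMk hM.1.2).nullMeasurableSet_preimage hS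
  have e1 : ∫⁻ ω, S.indicator (1 : (ℚ → ℂ) × (ℚ → ℂ) → ENNReal) (pst B s ω, fut B s ω) ∂P =
      P {ω | (pst B s ω, fut B s ω) ∈ S} := by
    rw [← lintegral_indicator_one₀ n1]
    rfl
  have e2 : ∀ ω, ∫⁻ ω', S.indicator (1 : (ℚ → ℂ) × (ℚ → ℂ) → ENNReal) (pst B s ω, fut B s ω') ∂P =
      P {ω' | (pst B s ω, fut B s ω') ∈ S} := by
    intro ω
    have n2 : NullMeasurableSet {ω' | (pst B s ω, fut B s ω') ∈ S} P :=
      (aemeasurable_const.prodMk hM.1.2).nullMeasurableSet_preimage hS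
    rw [← lintegral_indicator_one₀ n2]
    rfl
  rw [← e1, h]
  exact lintegral_congr e2

lemma rel_le (n : ℕ) (x y : ℂ) (h : Near x y (1 / 2 ^ n)) :
    |(rel n (cp n y) x).re| ≤ 3 ∧ |(rel n (cp n y) x).im| ≤ 3 := by
  have p : (0 : ℝ) < 2 ^ n := by positivity
  have aux : ∀ u v : ℝ, |u - v| ≤ 1 / 2 ^ n → |2 ^ n * u - (⌊2 ^ n * v⌋ : ℝ)| ≤ 3 := by
    intro u v huv
    have h1 := Int.floor_le (2 ^ n * v)
    have h2 := Int.lt_floor_add_one (2 ^ n * v)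
    rw [abs_le] at huv
    have h3 : 2 ^ n * (u - v) ≤ 1 := by
      have := mul_le_mul_of_nonneg_left huv.2 p.le
      rwa [mul_one_div_cancel p.ne'] at this
    have h4 : -1 ≤ 2 ^ n * (u - v) := by
      have := mul_le_mul_of_nonneg_left huv.1 p.le
      rwa [mul_neg, mul_one_div_cancel p.ne'] at this
    rw [mul_sub] at h3 h4
    rw [abs_le]
    constructor <;> linarith
  exact ⟨aux _ _ h.1, aux _ _ h.2⟩

/-- One step of the Markov property. -/
lemma step (hMSR : SpecMSR) {Ω : Type} [MeasurableSpace Ω] (P : Measure Ω)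
    [IsProbabilityMeasure P] (B : ℝ → Ω → ℂ) (ν r a : ℕ) (t : ℚ) (l : ℕ) (ht : 0 ≤ t)
    (ht1 : tau ν t 0 ≤ 1) (hl : l < r) (δ : ENNReal)
    (hM : (AEMeasurable (pst B (tau ν t (l + 1) : ℝ)) P ∧
        AEMeasurable (fut B (tau ν t (l + 1) : ℝ)) P) ∧
      ∀ F : (ℚ → ℂ) → (ℚ → ℂ) → ENNReal, Measurable (Function.uncurry F) →
        ∫⁻ ω, F (pst B (tau ν t (l + 1) : ℝ) ω) (fut B (tau ν t (l + 1) : ℝ) ω) ∂P =
          ∫⁻ ω, (∫⁻ ω', F (pst B (tau ν t (l + 1) : ℝ) ω)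
            (fut B (tau ν t (l + 1) : ℝ) ω') ∂P) ∂P)
    (hF : ∀ (c : ℤ × ℤ) (x : ℂ), |(rel (sc ν l) c x).re| ≤ 3 → |(rel (sc ν l) c x).im| ≤ 3 →
      P {ω | cnt (fun q : ℚ => x + (B (q : ℝ) ω - B (tau ν t (l + 1) : ℝ) ω)) (sc ν l) c
        (kk ν t l) (4 ^ ν) < a} ≤ δ) :
    P {ω | Ev ν r a t l (rat fun u => B u ω)} ≤
      δ * P {ω | Ev ν r a t (l + 1) (rat fun u => B u ω)} := by
  set s : ℚ := tau ν t (l + 1) with hs
  set S : Set ((ℚ → ℂ) × (ℚ → ℂ)) := {p | (Ev ν r a t (l + 1) p.1 ∧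
    Near (p.1 s) (p.1 t) (1 / 2 ^ sc ν l)) ∧
    cnt (fun q => p.1 s + p.2 q) (sc ν l) (cp (sc ν l) (p.1 t)) (kk ν t l) (4 ^ ν) < a} with hSdef
  have hS : MeasurableSet S := by
    have m1 : Measurable fun p : (ℚ → ℂ) × (ℚ → ℂ) => p.1 s := (measurable_pi_apply s).comp measurable_fst
    have m2 : Measurable fun p : (ℚ → ℂ) × (ℚ → ℂ) => p.1 t := (measurable_pi_apply t).comp measurable_fst
    refine MeasurableSet.inter (MeasurableSet.inter ?_ ?_) ?_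
    · exact measurable_fst (meas_Ev hMSR ν r a t (l + 1))
    · exact meas_near _ _ m1 m2 _
    · refine meas_cnt hMSR (fun p : (ℚ → ℂ) × (ℚ → ℂ) => fun q => p.1 s + p.2 q) _ ?_ m2 _ _ _ _
      exact measurable_pi_lambda _ fun q => m1.add ((measurable_pi_apply q).comp measurable_snd)
  have hs0 : 0 ≤ s := ht.trans (le_tau ν t _)
  have hts : t ≤ s := le_tau ν t _
  have hw0 : ∀ q : ℚ, (kk ν t l : ℚ) / 4 ^ sc ν l ≤ q → s ≤ q := fun q hq =>
    (le_trans (by have : (0 : ℚ) ≤ 1 / 4 ^ sc ν l := by positivity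
                  linarith) (kk_lo ν t l)).trans hq
  have hw1 : ∀ q : ℚ, q ≤ ((kk ν t l : ℚ) + ((4 ^ ν : ℕ) : ℚ)) / 4 ^ sc ν l → q ≤ 1 := fun q hq =>
    ((hq.trans (kk_end ν t ht l)).trans (tau_anti ν t (Nat.zero_le l))).trans ht1
  have sub : {ω | Ev ν r a t l (rat fun u => B u ω)} ⊆ {ω | (pst B (s : ℝ) ω, fut B (s : ℝ) ω) ∈ S} := by
    intro ω hω
    have hω' : Ev ν r a t l (rat fun u => B u ω) := hω
    have e1 : Ev ν r a t (l + 1) (rat fun u => B u ω) := fun i hi hr => hω' i (by omega) hr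
    have e2 := hω' l le_rfl hl
    have k1 : pst B (s : ℝ) ω s = B (s : ℝ) ω := pst_eq B s ω s hs0 le_rfl
    have k2 : pst B (s : ℝ) ω t = B (t : ℝ) ω := pst_eq B s ω t ht hts
    refine ⟨⟨(Ev_past B ν r a t ht (l + 1) ω).2 e1, ?_⟩, ?_⟩
    · show Near (pst B (s : ℝ) ω s) (pst B (s : ℝ) ω t) _
      rw [k1, k2]
      exact e2.2
    · show cnt (fun q => pst B (s : ℝ) ω s + fut B (s : ℝ) ω q) _ (cp _ (pst B (s : ℝ) ω t)) _ _ < a
      rw [k1, k2]
      rw [cnt_congr (ξ' := rat (fun u => B u ω))]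
      · exact e2.1
      · intro q q0 q1
        rw [fut_eq B s ω q (hw0 q q0) (hw1 q q1)]
        show B (s : ℝ) ω + (B (q : ℝ) ω - B (s : ℝ) ω) = B (q : ℝ) ω
        ring
  refine (measure_mono sub).trans ?_
  rw [mkv_set P B (s : ℝ) hM S hS]
  have bd : ∀ ω, P {ω' | (pst B (s : ℝ) ω, fut B (s : ℝ) ω') ∈ S} ≤
      δ * ({ω | Ev ν r a t (l + 1) (rat fun u => B u ω)}.indicator 1 ω) := by
    intro ω
    by_cases hE : Ev ν r a t (l + 1) (rat fun u => B u ω) ∧ Near (B (s : ℝ) ω) (B (t : ℝ) ω) (1 / 2 ^ sc ν l)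
    · have hmem : ω ∈ {ω | Ev ν r a t (l + 1) (rat fun u => B u ω)} := hE.1
      rw [indicator_of_mem hmem]
      simp only [Pi.one_apply, mul_one]
      obtain ⟨r1, r2⟩ := rel_le (sc ν l) _ _ hE.2
      refine le_trans (measure_mono ?_) (hF (cp (sc ν l) (B (t : ℝ) ω)) (B (s : ℝ) ω) r1 r2)
      intro ω' hω'
      have k1 : pst B (s : ℝ) ω s = B (s : ℝ) ω := pst_eq B s ω s hs0 le_rfl
      have k2 : pst B (s : ℝ) ω t = B (t : ℝ) ω := pst_eq B s ω t ht hts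
      have h3 : cnt (fun q => pst B (s : ℝ) ω s + fut B (s : ℝ) ω' q) (sc ν l)
          (cp (sc ν l) (pst B (s : ℝ) ω t)) (kk ν t l) (4 ^ ν) < a := hω'.2
      rw [k1, k2] at h3
      show cnt (fun q : ℚ => B (s : ℝ) ω + (B (q : ℝ) ω' - B (s : ℝ) ω')) _ _ _ _ < a
      rw [cnt_congr (ξ' := fun q => B (s : ℝ) ω + fut B (s : ℝ) ω' q)]
      · exact h3
      · intro q q0 q1
        rw [fut_eq B s ω' q (hw0 q q0) (hw1 q q1)]
    · have : {ω' | (pst B (s : ℝ) ω, fut B (s : ℝ) ω') ∈ S} = ∅ := by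
        ext ω'
        simp only [mem_ofPred_eq, mem_empty_iff_false, iff_false]
        intro hS'
        apply hE
        have k1 : pst B (s : ℝ) ω s = B (s : ℝ) ω := pst_eq B s ω s hs0 le_rfl
        have k2 : pst B (s : ℝ) ω t = B (t : ℝ) ω := pst_eq B s ω t ht hts
        have h4 : Near (pst B (s : ℝ) ω s) (pst B (s : ℝ) ω t) (1 / 2 ^ sc ν l) := hS'.1.2
        rw [k1, k2] at h4
        exact ⟨(Ev_past B ν r a t ht (l + 1) ω).1 hS'.1.1, h4⟩
      rw [this, measure_empty]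
      exact zero_le
  refine (lintegral_mono bd).trans ?_
  by_cases hδ : δ = ⊤
  · subst hδ
    by_cases hz : P {ω | Ev ν r a t (l + 1) (rat fun u => B u ω)} = 0
    · have h0 : ∫⁻ ω, ⊤ * ({ω | Ev ν r a t (l + 1) (rat fun u => B u ω)}.indicator
          (1 : Ω → ENNReal) ω) ∂P = 0 := by
        refine lintegral_eq_zero_of_ae_eq_zero ?_
        have : ∀ᵐ ω ∂P, ω ∉ {ω | Ev ν r a t (l + 1) (rat fun u => B u ω)} :=
          measure_eq_zero_iff_ae_notMem.1 hz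
        filter_upwards [this] with ω hω
        rw [indicator_of_notMem hω]
        simp
      rw [h0]
      exact zero_le
    · rw [ENNReal.top_mul hz]
      exact le_top
  · rw [lintegral_const_mul' _ _ hδ]
    exact mul_le_mul_right (lintegral_indicator_one_le _) δ

end WINM

open WINM in
theorem specWIN (hMSR : SpecMSR) (hMKV : SpecMKV) (hMOM : SpecMOM) (hFEW : SpecFEW) :
    SpecWIN := by
  obtain ⟨C, hC, hFEW⟩ := hFEW
  refine ⟨C, hC, ?_⟩
  intro Ω _ P _ B hB ν r a t hν ha ht ht1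
  have ht1' : tau ν t 0 ≤ 1 := by
    unfold tau
    have h : ((t + 1 / 4 ^ ν : ℚ) : ℝ) ≤ 1 := by
      push_cast
      exact ht1
    have h2 : t + 1 / 4 ^ ν ≤ (1 : ℚ) := by exact_mod_cast h
    simpa using h2
  have htau1 : ∀ i, tau ν t i ≤ 1 := fun i => (tau_anti ν t (Nat.zero_le i)).trans ht1'
  have hend : ∀ i, kk ν t i + 4 ^ ν ≤ 4 ^ sc ν i := by
    intro i
    have h := (kk_end ν t ht i).trans (htau1 i)
    have p : (0 : ℚ) < 4 ^ sc ν i := by positivity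
    rw [div_le_one p] at h
    exact_mod_cast h
  refine ⟨kk ν t, fun i _ => hend i, ?_⟩
  set δ : ENNReal := ENNReal.ofReal (C * a / ν) with hδ
  have hnu : (0 : ℝ) < ν := by exact_mod_cast hν
  have hx0 : 0 ≤ C * a / ν := by positivity
  -- the induction
  have ind : ∀ d l : ℕ, l + d = r → P {ω | Ev ν r a t l (rat fun u => B u ω)} ≤ δ ^ d := by
    intro d
    induction d with
    | zero =>
      intro l _
      rw [pow_zero]
      exact prob_le_one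
    | succ d ih =>
      intro l hl
      have s0 : 0 ≤ tau ν t (l + 1) := ht.trans (le_tau ν t _)
      have hM := hMKV Ω P B hB (tau ν t (l + 1) : ℝ)
        ⟨by exact_mod_cast s0, by exact_mod_cast htau1 (l + 1)⟩
      have h1 := step hMSR P B ν r a t l ht ht1' (by omega) δ hM (by
        intro c x hx1 hx2
        refine hFEW Ω P B hB (sc ν l) ν a (kk ν t l) c x (tau ν t (l + 1)) hν ha ?_ hx1 hx2 s0
          (hend l) ?_ ?_
        · unfold sc
          exact Nat.le_mul_of_pos_left _ (Nat.succ_pos l)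
        · have h := kk_lo ν t l
          have h' : ((tau ν t (l + 1) + 1 / 4 ^ sc ν l : ℚ) : ℝ) ≤
              (((kk ν t l : ℚ) / 4 ^ sc ν l : ℚ) : ℝ) := by exact_mod_cast h
          push_cast at h'
          unfold tm
          linarith
        · have h := kk_hi ν t ht l
          have h' : (((kk ν t l : ℚ) / 4 ^ sc ν l : ℚ) : ℝ) ≤
              ((tau ν t (l + 1) + 2 / 4 ^ sc ν l : ℚ) : ℝ) := by exact_mod_cast h
          push_cast at h'
          unfold tm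
          linarith)
      rw [pow_succ', ]
      exact h1.trans (mul_le_mul_right (ih (l + 1) (by omega)) δ)
  have hmain := ind r 0 (by omega)
  -- the exceptional events
  have hG : ∀ i, P {ω | ¬ Near (B (tau ν t (i + 1) : ℝ) ω) (B (t : ℝ) ω) (1 / 2 ^ sc ν i)} ≤
      ENNReal.ofReal (2 / 4 ^ ν) := by
    intro i
    have s0 : 0 ≤ tau ν t (i + 1) := ht.trans (le_tau ν t _)
    have t1 : t ≤ 1 := (le_tau ν t 0).trans ht1'
    have h := (hMOM Ω P B hB).2 (t : ℝ) ⟨by exact_mod_cast ht, by exact_mod_cast t1⟩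
      (tau ν t (i + 1) : ℝ) ⟨by exact_mod_cast s0, by exact_mod_cast htau1 (i + 1)⟩
    have e : (tau ν t (i + 1) : ℝ) - (t : ℝ) = 1 / (4 ^ sc ν i * 4 ^ ν) := by
      unfold tau
      push_cast
      have : sc ν i = (i + 1) * (2 * ν + 1) := rfl
      rw [← this, pow_add]
      ring
    rw [e, abs_of_nonneg (by positivity)] at h
    have p : (0 : ℝ) < 4 ^ sc ν i := by positivity
    have p2 : (0 : ℝ) < 1 / 4 ^ sc ν i := by positivity
    have sub : {ω | ¬ Near (B (tau ν t (i + 1) : ℝ) ω) (B (t : ℝ) ω) (1 / 2 ^ sc ν i)} ⊆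
        {ω | ENNReal.ofReal (1 / 4 ^ sc ν i) ≤ ‖B (tau ν t (i + 1) : ℝ) ω - B (t : ℝ) ω‖ₑ ^ 2} := by
      intro ω hω
      have hω' : ¬ Near (B (tau ν t (i + 1) : ℝ) ω) (B (t : ℝ) ω) (1 / 2 ^ sc ν i) := hω
      show ENNReal.ofReal (1 / 4 ^ sc ν i) ≤ ‖B (tau ν t (i + 1) : ℝ) ω - B (t : ℝ) ω‖ₑ ^ 2
      rw [← ofReal_norm, ← ENNReal.ofReal_pow (norm_nonneg _)]
      refine ENNReal.ofReal_le_ofReal ?_
      set z := B (tau ν t (i + 1) : ℝ) ω - B (t : ℝ) ω with hz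
      have hre : (B (tau ν t (i + 1) : ℝ) ω).re - (B (t : ℝ) ω).re = z.re := by rw [hz, Complex.sub_re]
      have him : (B (tau ν t (i + 1) : ℝ) ω).im - (B (t : ℝ) ω).im = z.im := by rw [hz, Complex.sub_im]
      unfold Near at hω'
      rw [hre, him, not_and_or, not_le, not_le] at hω'
      have q : (1 : ℝ) / 4 ^ sc ν i = (1 / 2 ^ sc ν i) ^ 2 := by
        rw [div_pow, one_pow, ← pow_mul, mul_comm (sc ν i) 2, pow_mul]
        norm_num
      rw [q]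
      have p3 : (0 : ℝ) ≤ 1 / 2 ^ sc ν i := by positivity
      refine pow_le_pow_left₀ p3 ?_ 2
      rcases hω' with h1 | h1
      · exact h1.le.trans (Complex.abs_re_le_norm z)
      · exact h1.le.trans (Complex.abs_im_le_norm z)
    refine (measure_mono sub).trans ?_
    have hae : AEMeasurable (fun ω => ‖B (tau ν t (i + 1) : ℝ) ω - B (t : ℝ) ω‖ₑ ^ 2) P := by
      have m := (hMOM Ω P B hB).1.meas
      have m1 := m (tau ν t (i + 1) : ℝ) ⟨by exact_mod_cast s0, by exact_mod_cast htau1 (i + 1)⟩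
      have m2 := m (t : ℝ) ⟨by exact_mod_cast ht, by exact_mod_cast t1⟩
      exact ((m1.sub m2).enorm).pow_const 2
    have hmk := mul_meas_ge_le_lintegral₀ hae (ENNReal.ofReal (1 / 4 ^ sc ν i))
    have h5 := hmk.trans h
    have h6 : ENNReal.ofReal (2 * (1 / (4 ^ sc ν i * 4 ^ ν))) =
        ENNReal.ofReal (1 / 4 ^ sc ν i) * ENNReal.ofReal (2 / 4 ^ ν) := by
      rw [← ENNReal.ofReal_mul p2.le]
      congr 1
      field_simp
    rw [h6] at h5
    exact (ENNReal.mul_le_mul_iff_right (by simp) ENNReal.ofReal_ne_top).1 h5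
  have cover : {ω | ∀ i < r, cnt (rat fun u => B u ω) (sc ν i) (cp (sc ν i) (B (t : ℝ) ω)) (kk ν t i)
      (4 ^ ν) < a} ⊆ {ω | Ev ν r a t 0 (rat fun u => B u ω)} ∪
        ⋃ i ∈ Finset.range r, {ω | ¬ Near (B (tau ν t (i + 1) : ℝ) ω) (B (t : ℝ) ω)
          (1 / 2 ^ sc ν i)} := by
    intro ω hω
    by_cases hn : ∀ i < r, Near (B (tau ν t (i + 1) : ℝ) ω) (B (t : ℝ) ω) (1 / 2 ^ sc ν i)
    · left
      intro i _ hi
      exact ⟨hω i hi, hn i hi⟩
    · right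
      push Not at hn
      obtain ⟨i, hi, h⟩ := hn
      simp only [mem_iUnion]
      exact ⟨i, Finset.mem_range.2 hi, h⟩
  refine (measure_mono cover).trans ((measure_union_le _ _).trans ?_)
  have u2 : P (⋃ i ∈ Finset.range r, {ω | ¬ Near (B (tau ν t (i + 1) : ℝ) ω) (B (t : ℝ) ω)
      (1 / 2 ^ sc ν i)}) ≤ ENNReal.ofReal (2 * r / 4 ^ ν) := by
    refine (measure_biUnion_finset_le _ _).trans ((Finset.sum_le_sum fun i _ => hG i).trans ?_)
    rw [Finset.sum_const, Finset.card_range, nsmul_eq_mul, ← ENNReal.ofReal_natCast,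
      ← ENNReal.ofReal_mul (Nat.cast_nonneg r)]
    refine ENNReal.ofReal_le_ofReal (le_of_eq ?_)
    ring
  rw [ENNReal.ofReal_add (by positivity) (by positivity), ENNReal.ofReal_pow hx0]
  exact add_le_add hmain u2

end Pool.Agent.Lib.MP_8b264c_pr.QV2
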